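import Mathlib
import Pool.Agent.Shared.FunProb
import Pool.Agent.Lib.MP_2c654c_co.Abs.McD

/-! Bounded differences with a separate constant for every coordinate. -/

set_option autoImplicit false

namespace Pool.Agent.Lib.MP_4a6af7_co.Simple

open Finset Real Pool.Agent.Shared.FunProb

lemma hoeff0 {F : Type} [Fintype F] (y : F → ℝ) (s c : ℝ) (hc : 0 ≤ c)
    (h0 : ∑ v, y v = 0) (hy : ∀ v, |y v| ≤ c) :
    ∑ v, exp (s * y v) ≤ Fintype.card F * exp (s ^ 2 * c ^ 2 / 2) := by
  rcases hc.eq_or_lt with rfl | hc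
  · have : ∀ v, y v = 0 := fun v => abs_nonpos_iff.1 (hy v)
    simp [this]
  · exact MP_2c654c_co.Abs.hoeffding_fin y s c hc h0 hy

lemma mcdv_fin {F : Type} [Fintype F] [Nonempty F] (s : ℝ) (n : ℕ) :
    ∀ (c : Fin n → ℝ) (X : (Fin n → F) → ℝ),
      (∀ ω x v, |X (Function.update ω x v) - X ω| ≤ c x) →
      ∑ ω, exp (s * ((∑ η, X η) / Fintype.card (Fin n → F) - X ω)) ≤
        Fintype.card (Fin n → F) * exp (s ^ 2 * (∑ x, c x ^ 2) / 2) := by
  induction n with
  | zero => intro c X _; simp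
  | succ n ih =>
    intro c X hX
    have hs : ∀ g : (Fin (n + 1) → F) → ℝ,
        ∑ ω, g ω = ∑ v : F, ∑ ω : Fin n → F, g (Fin.cons v ω) := by
      intro g
      rw [← (Fin.consEquiv fun _ => F).sum_comp, Fintype.sum_prod_type]; rfl
    have hF : (0 : ℝ) < Fintype.card F := by exact_mod_cast Fintype.card_pos
    have hN : (0 : ℝ) < Fintype.card (Fin n → F) := by exact_mod_cast Fintype.card_pos
    have hc' : (Fintype.card (Fin (n + 1) → F) : ℝ) =
        Fintype.card F * Fintype.card (Fin n → F) := by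
      simp [pow_succ, mul_comm]
    let mv : F → ℝ := fun v => (∑ η : Fin n → F, X (Fin.cons v η)) / Fintype.card (Fin n → F)
    set m := (∑ η, X η) / Fintype.card (Fin (n + 1) → F) with hm
    have hm' : m = (∑ v, mv v) / Fintype.card F := by
      rw [hm, hs, hc', ← sum_div]; field_simp
    have h1 : ∀ v v', |mv v - mv v'| ≤ c 0 := by
      intro v v'
      simp only [mv]
      rw [← sub_div, ← sum_sub_distrib, abs_div, abs_of_pos hN, div_le_iff₀ hN]
      refine (abs_sum_le_sum_abs _ _).trans ((sum_le_card_nsmul _ _ (c 0) fun η _ => ?_).trans ?_)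
      · have := hX (Fin.cons v' η) 0 v
        rwa [Fin.update_cons_zero] at this
      · simp [mul_comm]
    have h2 : ∀ v, |m - mv v| ≤ c 0 := by
      intro v
      have : m - mv v = (∑ v', (mv v' - mv v)) / Fintype.card F := by
        rw [hm', sum_sub_distrib]; simp; field_simp
      rw [this, abs_div, abs_of_pos hF, div_le_iff₀ hF]
      refine (abs_sum_le_sum_abs _ _).trans
        ((sum_le_card_nsmul _ _ (c 0) fun v' _ => h1 v' v).trans ?_)
      simp [mul_comm]
    have h3 := hoeff0 (fun v => m - mv v) s (c 0)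
      ((abs_nonneg _).trans (h2 (Classical.arbitrary F)))
      (by rw [sum_sub_distrib, hm']; simp; field_simp; ring) h2
    rw [hs]
    calc _ ≤ ∑ v, exp (s * (m - mv v)) *
          (Fintype.card (Fin n → F) * exp (s ^ 2 * (∑ x : Fin n, c x.succ ^ 2) / 2)) := by
          refine sum_le_sum fun v _ => ?_
          have h4 := ih (fun x => c x.succ) (fun η => X (Fin.cons v η)) (fun ω x w => by
            have := hX (Fin.cons v ω) x.succ w
            rwa [← Fin.cons_update] at this)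
          refine le_trans (le_of_eq ?_) (mul_le_mul_of_nonneg_left h4 (exp_pos _).le)
          rw [mul_sum]
          refine sum_congr rfl fun ω _ => ?_
          rw [← exp_add]; congr 1; simp only [mv]; ring
      _ ≤ Fintype.card F * exp (s ^ 2 * c 0 ^ 2 / 2) *
          (Fintype.card (Fin n → F) * exp (s ^ 2 * (∑ x : Fin n, c x.succ ^ 2) / 2)) := by
          rw [← sum_mul]; gcongr
      _ = _ := by
          rw [hc', Fin.sum_univ_succ, mul_add, add_div, exp_add]; ring

variable {P F : Type} [Fintype P] [DecidableEq P] [Fintype F] [Nonempty F]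

lemma mcdv (s : ℝ) (c : P → ℝ) (X : (P → F) → ℝ)
    (hX : ∀ ω x v, |X (Function.update ω x v) - X ω| ≤ c x) :
    ∑ ω, exp (s * ((∑ η, X η) / Fintype.card (P → F) - X ω)) ≤
      Fintype.card (P → F) * exp (s ^ 2 * (∑ x, c x ^ 2) / 2) := by
  let e := Fintype.equivFin P
  let E : (Fin (Fintype.card P) → F) ≃ (P → F) := (e.symm.arrowCongr (Equiv.refl F))
  have h1 := mcdv_fin s (Fintype.card P) (fun x => c (e.symm x)) (fun ω => X (E ω)) (fun ω x v => by
    have : E (Function.update ω x v) = Function.update (E ω) (e.symm x) v := by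
      exact Function.update_comp_equiv ω e x v
    rw [this]; exact hX _ _ _)
  rw [E.sum_comp X, Fintype.card_congr E, e.symm.sum_comp fun x => c x ^ 2] at h1
  rw [← E.sum_comp]; exact h1

lemma tail1 (c : P → ℝ) (X : (P → F) → ℝ)
    (hX : ∀ ω x v, |X (Function.update ω x v) - X ω| ≤ c x) {l s : ℝ} (hl : 0 < l) (hs : 0 < s)
    (h : 2 * s * ∑ x, c x ^ 2 ≤ l ^ 2) :
    pr (fun ω => X ω + l < (∑ η, X η) / Fintype.card (P → F)) ≤ exp (-s) := by
  classical
  have hN : (0 : ℝ) < Fintype.card (P → F) := card_pos'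
  have h2 := mcdv (2 * s / l) c X hX
  have h3 : (2 * s / l) ^ 2 * (∑ x, c x ^ 2) / 2 ≤ s := by
    rw [div_pow, div_mul_eq_mul_div, div_div, div_le_iff₀ (by positivity)]
    nlinarith
  have h4 : (cnt (fun ω => X ω + l < (∑ η, X η) / Fintype.card (P → F)) : ℝ) * exp (2 * s) ≤
      ∑ ω, exp (2 * s / l * ((∑ η, X η) / Fintype.card (P → F) - X ω)) := by
    unfold cnt
    rw [← nsmul_eq_mul, ← sum_const]
    refine (sum_le_sum fun ω hω => ?_).trans
      (sum_le_sum_of_subset_of_nonneg (subset_univ _) fun _ _ _ => (exp_pos _).le)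
    have h4 := (mem_filter.1 hω).2
    refine exp_le_exp.2 ?_
    calc 2 * s = 2 * s / l * l := by field_simp
      _ ≤ _ := mul_le_mul_of_nonneg_left (by linarith) (by positivity)
  unfold pr
  rw [div_le_iff₀ hN]
  have h5 := h4.trans (h2.trans (mul_le_mul_of_nonneg_left (exp_le_exp.2 h3) hN.le))
  have h6 : exp s = exp (-s) * exp (2 * s) := by rw [← exp_add]; congr 1; ring
  rw [h6, ← mul_assoc] at h5
  have := le_of_mul_le_mul_right h5 (exp_pos _)
  linarith

variable {τ : Type}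

open Classical in
/-- the number of patterns that are realised -/
noncomputable def Nw (Ω : Finset τ) (T : τ → Finset P) (g : τ → P → F) (ω : P → F) : ℕ :=
  (Ω.filter fun w => ∀ x ∈ T w, ω x = g w x).card

lemma mean_Nw (Ω : Finset τ) (T : τ → Finset P) (g : τ → P → F) :
    (∑ η, (Nw Ω T g η : ℝ)) / Fintype.card (P → F) =
      ∑ w ∈ Ω, (1 / (Fintype.card F : ℝ)) ^ (T w).card := by
  classical
  have h1 : ∀ w, pr (fun ω : P → F => ∀ x ∈ T w, ω x = g w x) =
      (1 / (Fintype.card F : ℝ)) ^ (T w).card := fun w => by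
    rw [pr_forall (T w) (fun x (ω : P → F) => ω x = g w x) (fun x => {x})
      (fun x _ f f' hf h => (hf x (mem_singleton_self x)).symm.trans h)
      (fun x _ y _ h => disjoint_singleton.2 h), prod_congr rfl fun x _ => pr_coord x (g w x),
      prod_const]
  simp only [← h1, pr, cnt, ← sum_div, Nw, card_filter]
  push_cast
  rw [sum_comm]

omit [Fintype F] [Nonempty F] in
lemma lip_Nw (Ω : Finset τ) (T : τ → Finset P) (g : τ → P → F) (ω : P → F) (x : P) (v : F) :
    |(Nw Ω T g (Function.update ω x v) : ℝ) - Nw Ω T g ω| ≤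
      ((Ω.filter fun w => x ∈ T w).card : ℝ) := by
  classical
  have key : ∀ ω ω' : P → F, (∀ y, y ≠ x → ω y = ω' y) →
      Nw Ω T g ω ≤ Nw Ω T g ω' + (Ω.filter fun w => x ∈ T w).card := by
    intro ω ω' h
    unfold Nw
    refine le_trans (card_le_card fun w hw => ?_) (card_union_le _ _)
    rw [mem_union, mem_filter, mem_filter]
    obtain ⟨h1, h2⟩ := mem_filter.1 hw
    by_cases hx : x ∈ T w
    · exact Or.inr ⟨h1, hx⟩
    · exact Or.inl ⟨h1, fun y hy => (h y fun e => hx (e ▸ hy)).symm.trans (h2 y hy)⟩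
  have h1 := key (Function.update ω x v) ω fun y hy => Function.update_of_ne hy _ _
  have h2 := key ω (Function.update ω x v) fun y hy => (Function.update_of_ne hy _ _).symm
  rw [abs_le]
  constructor
  · have : (Nw Ω T g ω : ℝ) ≤ Nw Ω T g (Function.update ω x v) +
        (Ω.filter fun w => x ∈ T w).card := by exact_mod_cast h2
    linarith
  · have : (Nw Ω T g (Function.update ω x v) : ℝ) ≤ Nw Ω T g ω +
        (Ω.filter fun w => x ∈ T w).card := by exact_mod_cast h1
    linarith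

omit [Fintype F] [Nonempty F] in
lemma sq_deg (Ω : Finset τ) (T : τ → Finset P) {r Δ : ℕ} (hr : ∀ w ∈ Ω, (T w).card ≤ r)
    (hΔ : ∀ x, (Ω.filter fun w => x ∈ T w).card ≤ Δ) :
    ∑ x, ((Ω.filter fun w => x ∈ T w).card : ℝ) ^ 2 ≤ r * Δ * Ω.card := by
  have h1 : ∑ x, (Ω.filter fun w => x ∈ T w).card ≤ r * Ω.card := by
    simp only [card_filter]
    rw [sum_comm, mul_comm]
    refine (sum_le_card_nsmul _ _ r fun w hw => ?_).trans (by rw [smul_eq_mul])
    rw [← card_filter]
    simpa using hr w hw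
  have h2 : ∑ x, (Ω.filter fun w => x ∈ T w).card ^ 2 ≤ r * Δ * Ω.card := by
    calc _ ≤ ∑ x, Δ * (Ω.filter fun w => x ∈ T w).card :=
          sum_le_sum fun x _ => by rw [sq]; exact Nat.mul_le_mul_right _ (hΔ x)
      _ ≤ Δ * (r * Ω.card) := by rw [← mul_sum]; exact Nat.mul_le_mul_left _ h1
      _ = _ := by ring
  exact_mod_cast h2

/-- Lower tail for the number of realised patterns. -/
theorem tail_lo (Ω : Finset τ) (T : τ → Finset P) (g : τ → P → F) {r Δ : ℕ}
    (hr : ∀ w ∈ Ω, (T w).card ≤ r) (hΔ : ∀ x, (Ω.filter fun w => x ∈ T w).card ≤ Δ) {l s : ℝ}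
    (hl : 0 < l) (hs : 0 < s) (h : 2 * s * (r * Δ * Ω.card) ≤ l ^ 2) :
    pr (fun ω => (Nw Ω T g ω : ℝ) + l < Ω.card / (Fintype.card F : ℝ) ^ r) ≤ exp (-s) := by
  classical
  have h1 := tail1 _ (fun ω => (Nw Ω T g ω : ℝ)) (lip_Nw Ω T g) hl hs
    ((mul_le_mul_of_nonneg_left (sq_deg Ω T hr hΔ) (by positivity)).trans h)
  have hF : (1 : ℝ) ≤ Fintype.card F := by exact_mod_cast Fintype.card_pos
  have h2 : Ω.card / (Fintype.card F : ℝ) ^ r ≤
      (∑ η, (Nw Ω T g η : ℝ)) / Fintype.card (P → F) := by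
    rw [mean_Nw, div_eq_mul_one_div, ← one_div_pow, ← nsmul_eq_mul]
    exact card_nsmul_le_sum _ _ _ fun w hw =>
      pow_le_pow_of_le_one (by positivity) (by rw [div_le_one (by linarith)]; exact hF) (hr w hw)
  refine le_trans ?_ h1
  unfold pr cnt
  refine div_le_div_of_nonneg_right ?_ card_pos'.le
  refine Nat.cast_le.2 (card_le_card fun ω hω => ?_)
  simp only [mem_filter, mem_univ, true_and] at hω ⊢
  exact lt_of_lt_of_le hω h2

open Classical in
/-- Upper tail for the number of points of a set with a given value. -/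
theorem tail_hi (Z : Finset P) (y : F) {l s : ℝ} (hl : 0 < l) (hs : 0 < s)
    (h : 2 * s * Z.card ≤ l ^ 2) :
    pr (fun ω : P → F => Z.card / (Fintype.card F : ℝ) + l < (Z.filter fun x => ω x = y).card)
      ≤ exp (-s) := by
  have h0 := sq_deg Z (fun x => ({x} : Finset P)) (r := 1) (Δ := 1) (fun _ _ => by simp)
    (fun x => card_le_one.2 fun a ha b hb =>
      (mem_singleton.1 (mem_filter.1 ha).2).symm.trans (mem_singleton.1 (mem_filter.1 hb).2))
  have h1 := tail1 _ (fun ω => -(Nw Z (fun x => {x}) (fun _ _ => y) ω : ℝ))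
    (fun ω x v => by
      rw [neg_sub_neg, abs_sub_comm]; exact lip_Nw Z (fun x => {x}) (fun _ _ => y) ω x v) hl hs
    ((mul_le_mul_of_nonneg_left h0 (by positivity)).trans (by simpa using h))
  rw [sum_neg_distrib, neg_div, mean_Nw] at h1
  refine le_trans (le_of_eq (pr_congr fun ω => ?_)) h1
  simp only [card_singleton, pow_one, sum_const, nsmul_eq_mul, Nw, mem_singleton, forall_eq,
    mul_one_div]
  constructor <;> intro h <;> linarith

theorem exists_good [DecidableEq F] {ρ σ : Type} [Fintype ρ] [Fintype σ] (Ω : ρ → Finset τ)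
    (T : ρ → τ → Finset P) (g : ρ → τ → P → F) (Z : σ → Finset P) {r Δ : ℕ} {l l' s : ℝ}
    (hr : ∀ i, ∀ w ∈ Ω i, (T i w).card ≤ r)
    (hΔ : ∀ i x, ((Ω i).filter fun w => x ∈ T i w).card ≤ Δ) (hl : 0 < l) (hl' : 0 < l')
    (hs : 0 < s) (h1 : ∀ i, 2 * s * (r * Δ * (Ω i).card) ≤ l ^ 2)
    (h2 : ∀ j, 2 * s * (Z j).card ≤ l' ^ 2)
    (h3 : (Fintype.card ρ + Fintype.card σ * Fintype.card F) * exp (-s) < 1) :
    ∃ ω : P → F, (∀ i, (Ω i).card / (Fintype.card F : ℝ) ^ r ≤ Nw (Ω i) (T i) (g i) ω + l) ∧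
      ∀ j y, (((Z j).filter fun x => ω x = y).card : ℝ) ≤ (Z j).card / Fintype.card F + l' := by
  obtain ⟨ω, h⟩ := exists_forall_not (ρ := ρ ⊕ σ × F) (P := P) (F := F) (Sum.elim
    (fun i ω => (Nw (Ω i) (T i) (g i) ω : ℝ) + l < (Ω i).card / (Fintype.card F : ℝ) ^ r)
    fun j ω => (Z j.1).card / (Fintype.card F : ℝ) + l' < ((Z j.1).filter fun x => ω x = j.2).card)
    (exp (-s)) (by
      rintro (i | j)
      · exact tail_lo _ _ _ (hr i) (hΔ i) hl hs (h1 i)
      · convert tail_hi (Z j.1) j.2 hl' hs (h2 j.1) using 1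
        exact pr_congr fun ω => by simp only [Sum.elim_inr]; congr!) (by simpa using h3)
  exact ⟨ω, fun i => not_lt.1 (h (.inl i)), fun j y => not_lt.1 (h (.inr (j, y)))⟩

lemma exp_small (A : ℝ) {c : ℝ} (hc : 0 < c) :
    ∃ n0 : ℕ, ∀ n : ℕ, n0 ≤ n → A * n ^ 2 * exp (-(c * n)) < 1 := by
  obtain ⟨n0, h⟩ := exists_nat_gt (6 * A / c ^ 3)
  refine ⟨n0 + 1, fun n hn => ?_⟩
  have h1 : (n0 : ℝ) + 1 ≤ n := by exact_mod_cast hn
  have h0 : (0 : ℝ) < n := by linarith [(Nat.cast_nonneg n0 : (0 : ℝ) ≤ n0)]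
  have h2 := Real.pow_div_factorial_le_exp (c * n) (by positivity) 3
  rw [div_lt_iff₀ (by positivity)] at h
  rw [exp_neg, ← div_eq_mul_inv, div_lt_one (exp_pos _)]
  refine lt_of_lt_of_le ?_ h2
  have h3 : 6 * A < n * c ^ 3 := h.trans (mul_lt_mul_of_pos_right (by linarith) (by positivity))
  have := mul_lt_mul_of_pos_right h3 (pow_pos h0 2)
  norm_num [Nat.factorial]
  nlinarith

end Pool.Agent.Lib.MP_4a6af7_co.Simple
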