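import Mathlib

/-! Properly coloured simple bipartite graphs, given by involutions on subsets. -/

set_option autoImplicit false
set_option linter.unusedSectionVars false

namespace Pool.Agent.Lib.MP_4a6af7_co.Simple

open Finset

/-- every colour is an involution on a subset that changes the side -/
structure Gr (V C : Type) where
  cel : C × V → Prop
  lab : C × V → V
  lf : V → Prop
  inv : ∀ e, cel e → cel (e.1, lab e) ∧ lab (e.1, lab e) = e.2
  side : ∀ e, cel e → (lf e.2 ↔ ¬ lf (lab e))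
  simp : ∀ e f, cel e → cel f → e.2 = f.2 → lab e = lab f → e = f

namespace Gr

variable {V C : Type} [Fintype V] [DecidableEq V] [Fintype C] [DecidableEq C] (G : Gr V C)

lemma inj {e f : C × V} (he : G.cel e) (hf : G.cel f) (h1 : e.1 = f.1) (h2 : G.lab e = G.lab f) :
    e = f :=
  Prod.ext h1 (by rw [← (G.inv e he).2, ← (G.inv f hf).2, h1, h2])

lemma cross {e f : C × V} (hf : G.cel f) (h1 : G.lf e.2) (h2 : G.lf f.2) : e.2 ≠ G.lab f :=
  fun h => (G.side f hf).1 h2 (h ▸ h1)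

/-- exchange the sides -/
def flip : Gr V C where
  cel := G.cel
  lab := G.lab
  lf := fun v => ¬ G.lf v
  inv := G.inv
  side := fun e he => not_congr (G.side e he)
  simp := G.simp

open Classical in
/-- the left ends of the edges of a colour -/
noncomputable def E (c : C) : Finset V := univ.filter fun u => G.lf u ∧ G.cel (c, u)

lemma mem_E {c : C} {u : V} : u ∈ G.E c ↔ G.lf u ∧ G.cel (c, u) := by simp [E]

lemma flip_E (c : C) : (G.E c).card ≤ (G.flip.E c).card := by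
  refine card_le_card_of_injOn (fun u => G.lab (c, u)) (fun u hu => ?_) fun u hu v hv h => ?_
  · obtain ⟨h1, h2⟩ := G.mem_E.1 hu
    exact G.flip.mem_E.2 ⟨(G.side _ h2).1 h1, (G.inv _ h2).1⟩
  · exact (Prod.ext_iff.1 (G.inj (G.mem_E.1 hu).2 (G.mem_E.1 hv).2 rfl h)).2

lemma touch (c : C) (B : Finset V) :
    ((G.E c).filter fun u => u ∈ B ∨ G.lab (c, u) ∈ B).card ≤ B.card := by
  refine card_le_card_of_injOn (fun u => if u ∈ B then u else G.lab (c, u)) (fun u hu => ?_)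
    fun u hu v hv h => ?_
  · have := (mem_filter.1 hu).2
    by_cases h : u ∈ B <;> simp_all
  · obtain ⟨a1, a2⟩ := G.mem_E.1 (mem_filter.1 hu).1
    obtain ⟨b1, b2⟩ := G.mem_E.1 (mem_filter.1 hv).1
    dsimp only at h
    split_ifs at h
    · exact h
    · exact absurd h (G.cross (e := (c, u)) b2 a1 b1)
    · exact absurd h.symm (G.cross (e := (c, v)) a2 b1 a1)
    · exact (Prod.ext_iff.1 (G.inj a2 b2 rfl h)).2

lemma avoid (c : C) (B : Finset V) {A : Finset V} (hA : A ⊆ G.E c) :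
    A.card ≤ (A.filter fun u => u ∉ B ∧ G.lab (c, u) ∉ B).card + B.card := by
  rw [← card_filter_add_card_filter_not (s := A) fun u => u ∉ B ∧ G.lab (c, u) ∉ B]
  refine Nat.add_le_add_left (le_trans (card_le_card fun u hu => ?_) (G.touch c B)) _
  simp only [mem_filter] at hu ⊢
  exact ⟨hA hu.1, by tauto⟩

lemma exists_avoid (c : C) (B : Finset V) {A : Finset V} (hA : A ⊆ G.E c) (h : B.card < A.card) :
    ∃ u ∈ A, u ∉ B ∧ G.lab (c, u) ∉ B := by
  have := G.avoid c B hA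
  obtain ⟨u, hu⟩ := card_pos.1
    (show 0 < (A.filter fun u => u ∉ B ∧ G.lab (c, u) ∉ B).card by omega)
  exact ⟨u, mem_filter.1 hu⟩

/-- the colours `K` can be matched inside `W` -/
def RM (K : Finset C) (W : Finset V) : Prop :=
  ∃ M : Finset (C × V), (∀ e ∈ M, G.cel e ∧ e.2 ∈ W ∧ G.lab e ∈ W) ∧ K ⊆ M.image Prod.fst ∧
    ∀ e ∈ M, ∀ f ∈ M, e ≠ f → e.2 ≠ f.2 ∧ e.2 ≠ G.lab f ∧ G.lab e ≠ G.lab f

variable {G}

lemma RM.mono {K K' : Finset C} {W W' : Finset V} (h : G.RM K W) (hK : K' ⊆ K) (hW : W ⊆ W') :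
    G.RM K' W' := by
  obtain ⟨M, h1, h2, h3⟩ := h
  exact ⟨M, fun e he => ⟨(h1 e he).1, hW (h1 e he).2.1, hW (h1 e he).2.2⟩, hK.trans h2, h3⟩

lemma RM.union {K K' : Finset C} {W W' : Finset V} (h : G.RM K W) (h' : G.RM K' W')
    (hd : Disjoint W W') : G.RM (K ∪ K') (W ∪ W') := by
  obtain ⟨M, h1, h2, h3⟩ := h
  obtain ⟨M', g1, g2, g3⟩ := h'
  have hd' : ∀ a ∈ W, ∀ b ∈ W', a ≠ b := disjoint_iff_ne.1 hd
  refine ⟨M ∪ M', fun e he => ?_, ?_, fun e he f hf hne => ?_⟩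
  · rcases mem_union.1 he with he | he
    · exact ⟨(h1 e he).1, mem_union_left _ (h1 e he).2.1, mem_union_left _ (h1 e he).2.2⟩
    · exact ⟨(g1 e he).1, mem_union_right _ (g1 e he).2.1, mem_union_right _ (g1 e he).2.2⟩
  · rw [image_union]; exact union_subset_union h2 g2
  · rcases mem_union.1 he with he | he <;> rcases mem_union.1 hf with hf | hf
    · exact h3 e he f hf hne
    · exact ⟨hd' _ (h1 e he).2.1 _ (g1 f hf).2.1, hd' _ (h1 e he).2.1 _ (g1 f hf).2.2,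
        hd' _ (h1 e he).2.2 _ (g1 f hf).2.2⟩
    · exact ⟨(hd' _ (h1 f hf).2.1 _ (g1 e he).2.1).symm, (hd' _ (h1 f hf).2.2 _ (g1 e he).2.1).symm,
        (hd' _ (h1 f hf).2.2 _ (g1 e he).2.2).symm⟩
    · exact g3 e he f hf hne

lemma RM.empty : G.RM ∅ ∅ := ⟨∅, by simp, by simp, by simp⟩

lemma RM.single {e : C × V} (h : G.cel e) : G.RM {e.1} {e.2, G.lab e} :=
  ⟨{e}, by simpa, by simp, by simp⟩

variable (G)

/-- a rainbow set of cells -/
def Rb (M : Finset (C × V)) : Prop :=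
  (∀ e ∈ M, G.cel e) ∧ ∀ e ∈ M, ∀ f ∈ M, e ≠ f → e.1 ≠ f.1 ∧ e.2 ≠ f.2 ∧ G.lab e ≠ G.lab f

variable {G}

lemma Rb.mono {M M' : Finset (C × V)} (h : G.Rb M) (hs : M' ⊆ M) : G.Rb M' :=
  ⟨fun e he => h.1 e (hs he), fun e he f hf => h.2 e (hs he) f (hs hf)⟩

lemma Rb.insert {M : Finset (C × V)} (h : G.Rb M) {e : C × V} (he : G.cel e)
    (hM : ∀ f ∈ M, e.1 ≠ f.1 ∧ e.2 ≠ f.2 ∧ G.lab e ≠ G.lab f) :
    G.Rb (insert e M) ∧ (insert e M).card = M.card + 1 := by
  refine ⟨⟨forall_mem_insert _ _ _ |>.2 ⟨he, h.1⟩, fun a ha b hb hab => ?_⟩,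
    card_insert_of_notMem fun h => (hM e h).1 rfl⟩
  rcases mem_insert.1 ha with rfl | ha' <;> rcases mem_insert.1 hb with rfl | hb'
  · exact absurd rfl hab
  · exact hM b hb'
  · exact ⟨(hM a ha').1.symm, (hM a ha').2.1.symm, (hM a ha').2.2.symm⟩
  · exact h.2 a ha' b hb' hab

lemma Rb.i1 {M : Finset (C × V)} (h : G.Rb M) : Set.InjOn Prod.fst (M : Set (C × V)) :=
  fun e he f hf e1 => by_contra fun hne => (h.2 e he f hf hne).1 e1

lemma Rb.i2 {M : Finset (C × V)} (h : G.Rb M) : Set.InjOn Prod.snd (M : Set (C × V)) :=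
  fun e he f hf e1 => by_contra fun hne => (h.2 e he f hf hne).2.1 e1

lemma Rb.i3 {M : Finset (C × V)} (h : G.Rb M) : Set.InjOn G.lab (M : Set (C × V)) :=
  fun e he f hf e1 => by_contra fun hne => (h.2 e he f hf hne).2.2 e1

lemma Rb.rm {M : Finset (C × V)} (h : G.Rb M) {W : Finset V}
    (hW : ∀ e ∈ M, e.2 ∈ W ∧ G.lab e ∈ W) (hc : ∀ e ∈ M, ∀ f ∈ M, e.2 ≠ G.lab f) :
    G.RM (M.image Prod.fst) W :=
  ⟨M, fun e he => ⟨h.1 e he, hW e he⟩, Subset.rfl, fun e he f hf hne =>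
    ⟨(h.2 e he f hf hne).2.1, hc e he f hf, (h.2 e he f hf hne).2.2⟩⟩

lemma inter_pair {X : Finset V} {u v : V} (h : ¬ (u ∈ X ∧ v ∈ X)) :
    (X ∩ {u, v}).card ≤ 1 := by
  refine card_le_one.2 fun a ha b hb => ?_
  simp only [mem_inter, mem_insert, mem_singleton] at ha hb
  obtain ⟨a1, rfl | rfl⟩ := ha <;> obtain ⟨b1, rfl | rfl⟩ := hb <;> tauto

/-- Covering further colours greedily. -/
lemma exc (X Y R : Finset V) (K0 : Finset C) (W0 : Finset V) (a b β : ℕ) (h0 : G.RM K0 W0)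
    (hX : (X ∩ W0).card + a ≤ K0.card) (hY : (Y ∩ W0).card + b ≤ K0.card) (K1 : Finset C)
    (h : ∀ c ∈ K1, ∀ B : Finset V, B.card ≤ β → ∃ u ∈ R, G.cel (c, u) ∧ G.lab (c, u) ∈ R ∧ u ∉ B ∧
      G.lab (c, u) ∉ B ∧ ¬ (u ∈ X ∧ G.lab (c, u) ∈ X) ∧ ¬ (u ∈ Y ∧ G.lab (c, u) ∈ Y))
    (hβ : W0.card + 2 * K1.card ≤ β) :
    ∃ K W, G.RM K W ∧ K1 ⊆ K ∧ W ⊆ W0 ∪ R ∧ K.card ≤ K0.card + K1.card ∧
      W.card ≤ W0.card + 2 * K1.card ∧ (X ∩ W).card + a ≤ K.card ∧ (Y ∩ W).card + b ≤ K.card := by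
  induction K1 using Finset.induction_on with
  | empty => exact ⟨K0, W0, h0, by simp, by simp, by simp, by simp, hX, hY⟩
  | insert c K1 hc ih =>
    rw [card_insert_of_notMem hc] at hβ ⊢
    obtain ⟨K, W, g1, g2, g3, g4, g5, g6, g7⟩ :=
      ih (fun c hc => h c (mem_insert_of_mem hc)) (by omega)
    by_cases hK : c ∈ K
    · exact ⟨K, W, g1, insert_subset hK g2, g3, by omega, by omega, g6, g7⟩
    obtain ⟨u, u1, u2, u3, u4, u5, u6, u7⟩ := h c (mem_insert_self _ _) W (by omega)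
    have e1 : (K ∪ {c}).card = K.card + 1 := card_union_of_disjoint (by simpa using hK)
    have e2 : ∀ Z : Finset V, ¬ (u ∈ Z ∧ G.lab (c, u) ∈ Z) →
        (Z ∩ (W ∪ {u, G.lab (c, u)})).card ≤ (Z ∩ W).card + 1 := fun Z hZ => by
      rw [inter_union_distrib_left]
      exact (card_union_le _ _).trans (Nat.add_le_add_left (inter_pair hZ) _)
    have e3 := (card_union_le W {u, G.lab (c, u)}).trans (Nat.add_le_add_left card_le_two _)
    refine ⟨K ∪ {c}, W ∪ {u, G.lab (c, u)}, g1.union (RM.single u2) (by simp [u4, u5]), ?_, ?_,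
      by omega, by omega, ?_, ?_⟩
    · exact insert_subset (by simp) (g2.trans subset_union_left)
    · exact union_subset g3 (by simp [insert_subset_iff, u1, u3])
    · have := e2 X u6; omega
    · have := e2 Y u7; omega

end Gr

lemma few_bad {ι : Type} (s : Finset ι) (f : ι → ℕ) (N d Λ : ℕ) (hf : ∀ i ∈ s, f i ≤ N)
    (h : s.card * N ≤ ∑ i ∈ s, f i + Λ) : (s.filter fun i => f i + d < N).card * d ≤ Λ := by
  have h2 : ∑ i ∈ s, (f i + if f i + d < N then d else 0) ≤ ∑ _i ∈ s, N := by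
    refine sum_le_sum fun i hi => ?_
    split_ifs with h
    · exact h.le
    · exact hf i hi
  rw [sum_add_distrib, ← sum_filter, sum_const, sum_const, smul_eq_mul, smul_eq_mul] at h2
  omega

end Pool.Agent.Lib.MP_4a6af7_co.Simple
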