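import Mathlib
import Pool.Agent.Lib.MP_4a6af7_co.Simple.Basic

/-! Absorbing paths in an array. -/

set_option autoImplicit false
set_option linter.unusedSectionVars false

namespace Pool.Agent.Lib.MP_4a6af7_co.Simple.Gr

open Finset

lemma pair_le {ι : Type} [DecidableEq ι] (I : Finset ι) (P B B' : ι × ι → Prop) [DecidablePred P]
    [DecidablePred B] [DecidablePred B'] {a b : ℕ} (h0 : ∀ w ∈ I ×ˢ I, P w → B w ∨ B' w)
    (h : ∀ i ∈ I, (I.filter fun j => B (i, j)).card ≤ a)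
    (h' : ∀ j ∈ I, (I.filter fun i => B' (i, j)).card ≤ b) :
    ((I ×ˢ I).filter P).card ≤ (a + b) * I.card := by
  have a1 : ((I ×ˢ I).filter B).card ≤ I.card * a := by
    rw [card_filter, sum_product]
    simp only [← card_filter]
    exact sum_le_card_nsmul _ _ _ h
  have a2 : ((I ×ˢ I).filter B').card ≤ I.card * b := by
    rw [card_filter, sum_product_right]
    simp only [← card_filter]
    exact sum_le_card_nsmul _ _ _ h'
  have a3 : ((I ×ˢ I).filter P).card ≤ _ := (card_le_card fun w hw => by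
    rw [mem_union, mem_filter, mem_filter]
    exact (h0 w (mem_filter.1 hw).1 (mem_filter.1 hw).2).imp (fun h => ⟨(mem_filter.1 hw).1, h⟩)
      fun h => ⟨(mem_filter.1 hw).1, h⟩).trans (card_union_le ((I ×ˢ I).filter B) ((I ×ˢ I).filter B'))
  nlinarith

variable {V C : Type} [Fintype V] [DecidableEq V] [Fintype C] [DecidableEq C] (G : Gr V C)

/-- a cell with a label in `T` -/
def ok (T : Finset V) (e : C × V) : Prop := G.cel e ∧ G.lab e ∈ T

noncomputable instance (T : Finset V) : DecidablePred (G.ok T) := Classical.decPred _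

/-- the colour of a pair -/
noncomputable def cl (s x : V) : Finset C := univ.filter fun c => G.ok {x} (c, s)

/-- the neighbour in a colour -/
noncomputable def nb (c : C) (x : V) : Finset V := univ.filter fun s => G.ok {x} (c, s)

lemma mem_cl {s x : V} {c : C} : c ∈ G.cl s x ↔ G.cel (c, s) ∧ G.lab (c, s) = x := by
  simp [cl, ok]

lemma mem_nb {s x : V} {c : C} : s ∈ G.nb c x ↔ G.cel (c, s) ∧ G.lab (c, s) = x := by
  simp [nb, ok]

lemma cl_le (s x : V) : (G.cl s x).card ≤ 1 := card_le_one.2 fun a ha b hb => by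
  rw [mem_cl] at ha hb
  exact (Prod.ext_iff.1 (G.simp _ _ ha.1 hb.1 rfl (ha.2.trans hb.2.symm))).1

lemma nb_le (c : C) (x : V) : (G.nb c x).card ≤ 1 := card_le_one.2 fun a ha b hb => by
  rw [mem_nb] at ha hb
  exact (Prod.ext_iff.1 (G.inj ha.1 hb.1 rfl (ha.2.trans hb.2.symm))).2

variable {G}

lemma Rb.cnt {I : Finset (C × V)} (hI : G.Rb I) (A : Finset C) (B B' : Finset V) :
    (I.filter fun j => j.1 ∈ A ∨ j.2 ∈ B ∨ G.lab j ∈ B').card ≤ A.card + B.card + B'.card := by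
  rw [filter_or, filter_or, add_assoc]
  refine (card_union_le _ _).trans (add_le_add ?_ ((card_union_le _ _).trans (add_le_add ?_ ?_)))
  · exact card_le_card_of_injOn _ (fun j hj => (mem_filter.1 hj).2) (hI.mono (filter_subset _ _)).i1
  · exact card_le_card_of_injOn _ (fun j hj => (mem_filter.1 hj).2) (hI.mono (filter_subset _ _)).i2
  · exact card_le_card_of_injOn _ (fun j hj => (mem_filter.1 hj).2) (hI.mono (filter_subset _ _)).i3

lemma Rb.pair {I : Finset (C × V)} (hI : G.Rb I) (P : (C × V) × C × V → Prop) [DecidablePred P]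
    (A A' : C × V → Finset C) (B D B' D' : C × V → Finset V) {a b : ℕ}
    (h0 : ∀ w ∈ I ×ˢ I, P w → (w.2.1 ∈ A w.1 ∨ w.2.2 ∈ B w.1 ∨ G.lab w.2 ∈ D w.1) ∨
      w.1.1 ∈ A' w.2 ∨ w.1.2 ∈ B' w.2 ∨ G.lab w.1 ∈ D' w.2)
    (h : ∀ i ∈ I, (A i).card + (B i).card + (D i).card ≤ a)
    (h' : ∀ i ∈ I, (A' i).card + (B' i).card + (D' i).card ≤ b) :
    ((I ×ˢ I).filter P).card ≤ (a + b) * I.card :=
  pair_le I P _ _ h0 (fun i hi => (hI.cnt (A i) (B i) (D i)).trans (h i hi))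
    fun i hi => (hI.cnt (A' i) (B' i) (D' i)).trans (h' i hi)

lemma exI {R : Finset C} {S T : Finset V} {d : ℕ}
    (h : ∀ c ∈ R, (S.filter fun s => ¬ G.ok T (c, s)).card ≤ d) (k : ℕ) (hR : k ≤ R.card)
    (hS : 2 * k + d ≤ S.card) :
    ∃ I ⊆ R ×ˢ S, G.Rb I ∧ (∀ e ∈ I, G.lab e ∈ T) ∧ I.card = k := by
  induction k with
  | zero => exact ⟨∅, by simp, ⟨by simp, by simp⟩, by simp, rfl⟩
  | succ k ih =>
    obtain ⟨I, h1, h2, h3, h4⟩ := ih (by omega) (by omega)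
    obtain ⟨c, c1, c2⟩ := exists_mem_notMem_of_card_lt_card (s := I.image Prod.fst) (t := R)
      (card_image_le.trans_lt (by omega))
    have a1 := card_biUnion_le_card_mul I (fun e => G.nb c (G.lab e)) 1 fun e _ => G.nb_le _ _
    have a2 := card_image_le (s := I) (f := Prod.snd)
    have a3 := h c c1
    obtain ⟨s, s1, s2⟩ := exists_mem_notMem_of_card_lt_card (t := S)
      (s := (S.filter fun s => ¬ G.ok T (c, s)) ∪ (I.image Prod.snd ∪
        I.biUnion fun e => G.nb c (G.lab e))) ((card_union_le _ _).trans_lt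
          ((Nat.add_le_add_left (card_union_le _ _) _).trans_lt (by omega)))
    simp only [mem_union, mem_filter, s1, true_and, not_or, not_not, mem_image, mem_biUnion,
      not_exists, not_and, mem_nb] at s2 c2
    obtain ⟨b1, b2⟩ := h2.insert (e := (c, s)) s2.1.1 fun f hf =>
      ⟨Ne.symm (c2 f hf), Ne.symm (s2.2.1 f hf), s2.2.2 f hf s2.1.1⟩
    exact ⟨_, insert_subset (mem_product.2 ⟨c1, s1⟩) h1, b1,
      forall_mem_insert _ _ _ |>.2 ⟨s2.1.2, h3⟩, by omega⟩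

variable (G)

/-- the labels of a path -/
def Tw (p : C × V) (w : (C × V) × C × V) : Finset V :=
  {G.lab w.1, G.lab w.2, G.lab (p.1, w.1.2), G.lab (w.1.1, w.2.2), G.lab (w.2.1, p.2)}

/-- a path with five different labels -/
structure good (T : Finset V) (p : C × V) (w : (C × V) × C × V) : Prop where
  o1 : G.ok T (p.1, w.1.2)
  o2 : G.ok T (w.1.1, w.2.2)
  o3 : G.ok T (w.2.1, p.2)
  n0 : w.2.2 ≠ w.1.2
  n1 : w.1.1 ≠ p.1
  n2 : w.2.2 ≠ p.2
  n3 : G.lab (w.1.1, w.2.2) ≠ G.lab (p.1, w.1.2)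
  n4 : G.lab (w.2.1, p.2) ≠ G.lab (p.1, w.1.2)
  n5 : G.lab (w.1.1, w.2.2) ≠ G.lab (w.2.1, p.2)
  n6 : G.lab w.2 ≠ G.lab (p.1, w.1.2)
  n7 : G.lab (w.2.1, p.2) ≠ G.lab w.1

noncomputable instance (T : Finset V) (p : C × V) : DecidablePred (G.good T p) :=
  Classical.decPred _

variable {G}

lemma good_many {R : Finset C} {S T : Finset V} {d : ℕ}
    (h1 : ∀ c ∈ R, (S.filter fun s => ¬ G.ok T (c, s)).card ≤ d)
    (h2 : ∀ s ∈ S, (R.filter fun c => ¬ G.ok T (c, s)).card ≤ d) {I : Finset (C × V)}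
    (hI : G.Rb I) (hs : I ⊆ R ×ˢ S) {p : C × V} (hp : p ∈ R ×ˢ S) :
    I.card * I.card ≤ ((I ×ˢ I).filter (G.good T p)).card + (3 * d + 8) * I.card := by
  rw [← card_product, ← card_filter_add_card_filter_not (G.good T p)]
  rw [mem_product] at hp
  refine Nat.add_le_add_left ((hI.pair _ (fun i => (R.filter fun c => ¬ G.ok T (c, p.2)) ∪
      (G.cl p.2 (G.lab (p.1, i.2)) ∪ G.cl p.2 (G.lab i)))
    (fun j => {p.1} ∪ G.cl j.2 (G.lab (j.1, p.2)))
    (fun i => (S.filter fun s => ¬ G.ok T (i.1, s)) ∪ ({i.2, p.2} ∪ G.nb i.1 (G.lab (p.1, i.2))))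
    (fun i => {G.lab (p.1, i.2)}) (fun _ => S.filter fun s => ¬ G.ok T (p.1, s)) (fun _ => ∅)
    (a := 2 * d + 6) (b := d + 2) (fun w hw h => ?_) (fun i hi => ?_)
    fun j hj => ?_).trans (le_of_eq (by ring))) _
  · by_contra hc
    obtain ⟨w1, w2⟩ := mem_product.1 hw
    simp only [mem_union, mem_filter, mem_cl, mem_nb, mem_insert, mem_singleton, not_or, not_and,
      not_not, (mem_product.1 (hs w1)).2, (mem_product.1 (hs w2)).1, (mem_product.1 (hs w2)).2,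
      forall_const] at hc
    obtain ⟨⟨⟨a1, a2, a3⟩, ⟨a4, ⟨a5, a6⟩, a7⟩, a8⟩, ⟨a9, a10⟩, a11, -⟩ := hc
    exact h ⟨a11, a4, a1, a5, a9, a6, a7 a4.1, a2 a1.1, a10 a4.1, a8, a3 a1.1⟩
  · have := h2 _ hp.2
    have := h1 _ (mem_product.1 (hs hi)).1
    have := G.cl_le p.2 (G.lab (p.1, i.2))
    have := G.cl_le p.2 (G.lab i)
    have := G.nb_le i.1 (G.lab (p.1, i.2))
    have := card_le_two (a := i.2) (b := p.2)
    grw [card_union_le, card_union_le, card_union_le, card_union_le, card_singleton]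
    omega
  · have := h1 _ hp.1
    have := G.cl_le j.2 (G.lab (j.1, p.2))
    grw [card_union_le, card_singleton, card_empty]
    omega

lemma good_deg {T : Finset V} {I : Finset (C × V)} (hI : G.Rb I) (p : C × V) (x : V) :
    (((I ×ˢ I).filter (G.good T p)).filter fun w => x ∈ G.Tw p w).card ≤ 5 * I.card := by
  rw [filter_filter]
  refine hI.pair _ (fun _ => G.cl p.2 x) (fun _ => ∅) (fun i => G.nb i.1 x) (fun _ => {x})
    (fun _ => G.nb p.1 x) (fun _ => {x}) (a := 3) (b := 2) (fun w _ h => ?_)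
    (fun i _ => ?_) fun j _ => ?_
  · have := h.2
    simp only [Tw, mem_insert, mem_singleton] at this
    simp only [mem_cl, mem_nb, mem_singleton, h.1.o1.1, h.1.o2.1, h.1.o3.1, true_and]
    tauto
  · have := G.cl_le p.2 x
    have := G.nb_le i.1 x
    simp only [card_singleton]
    omega
  · simpa using G.nb_le p.1 x

lemma good.marks {T : Finset V} {p : C × V} {w : (C × V) × C × V} (h : G.good T p w)
    {I : Finset (C × V)} (hI : G.Rb I) (hw : w ∈ I ×ˢ I) {F : Type} {ω : V → F} {y0 y1 : F}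
    (hω : ∀ x ∈ G.Tw p w, ω x = if x = G.lab w.1 ∨ x = G.lab w.2 then y0 else y1) :
    ω (G.lab w.1) = y0 ∧ ω (G.lab w.2) = y0 ∧ ω (G.lab (p.1, w.1.2)) = y1 ∧
      ω (G.lab (w.1.1, w.2.2)) = y1 ∧ ω (G.lab (w.2.1, p.2)) = y1 := by
  obtain ⟨w1, w2⟩ := mem_product.1 hw
  have c1 := hI.1 _ w1
  have c2 := hI.1 _ w2
  simp only [Tw, forall_mem_insert, mem_singleton, forall_eq, true_or, or_true, if_true] at hω
  obtain ⟨a1, a2, a3, a4, a5⟩ := hω
  rw [if_neg (not_or.2 ⟨fun g => h.n1 (Prod.ext_iff.1 (G.simp _ _ h.o1.1 c1 rfl g)).1.symm,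
    h.n6.symm⟩)] at a3
  rw [if_neg (not_or.2 ⟨fun g => h.n0 (Prod.ext_iff.1 (G.inj h.o2.1 c1 rfl g)).2, fun g =>
    (hI.2 _ w1 _ w2 fun e => h.n0 (by rw [e])).1
      (Prod.ext_iff.1 (G.simp _ _ h.o2.1 c2 rfl g)).1⟩)] at a4
  rw [if_neg (not_or.2 ⟨h.n7, fun g => h.n2 (Prod.ext_iff.1 (G.inj h.o3.1 c2 rfl g)).2.symm⟩)] at a5
  exact ⟨a1, a2, a3, a4, a5⟩

lemma absorb {R : Finset C} {S T : Finset V} {m β : ℕ} (hR : R.card = m) (hS : S.card = m)
    {I : Finset (C × V)} (hI : I ⊆ R ×ˢ S) (Z0 Z1 : V → Prop)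
    (h : ∀ p ∈ R ×ˢ S, ∀ B : Finset V, B.card ≤ β → ∃ w ∈ I ×ˢ I, G.good T p w ∧
      Disjoint (G.Tw p w) B ∧ Z0 (G.lab w.1) ∧ Z0 (G.lab w.2) ∧ Z1 (G.lab (p.1, w.1.2)) ∧
      Z1 (G.lab (w.1.1, w.2.2)) ∧ Z1 (G.lab (w.2.1, p.2))) (k : ℕ) :
    ∀ (M : Finset (C × V)) (B : Finset V), M ⊆ R ×ˢ S → G.Rb M → (∀ e ∈ M, G.lab e ∈ T) →
      (∀ i ∈ I, Z0 (G.lab i) → G.lab i ∉ B → i ∈ M) → (∀ e ∈ M, Z1 (G.lab e) → G.lab e ∈ B) →
      m ≤ M.card + k → B.card + 5 * k ≤ β →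
      ∃ M' ⊆ R ×ˢ S, G.Rb M' ∧ (∀ e ∈ M', G.lab e ∈ T) ∧ m ≤ M'.card := by
  induction k with
  | zero => exact fun M _ h1 h2 h3 _ _ h6 _ => ⟨M, h1, h2, h3, h6⟩
  | succ k ih =>
    intro M B h1 h2 h3 h4 h5 h6 h7
    by_cases hm : m ≤ M.card
    · exact ⟨M, h1, h2, h3, hm⟩
    obtain ⟨c, c1, c2⟩ := exists_mem_notMem_of_card_lt_card (s := M.image Prod.fst) (t := R)
      (card_image_le.trans_lt (by omega))
    obtain ⟨s, s1, s2⟩ := exists_mem_notMem_of_card_lt_card (s := M.image Prod.snd) (t := S)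
      (card_image_le.trans_lt (by omega))
    obtain ⟨⟨i, j⟩, w1, w2, w3, z1, z2, z3, z4, z5⟩ :=
      h (c, s) (mem_product.2 ⟨c1, s1⟩) B (by omega)
    obtain ⟨i1, j1⟩ := mem_product.1 w1
    obtain ⟨o1, o2, o3, n0, -, -, n3, n4, n5, -, -⟩ := w2
    simp only [mem_image, not_exists, not_and] at c2 s2
    have w4 := w3
    simp only [Tw, disjoint_insert_left, disjoint_singleton_left] at w4
    obtain ⟨b1, b2, b3, b4, b5⟩ := w4
    dsimp only at *
    have i2 := h4 i i1 z1 b1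
    have j2 := h4 j j1 z2 b2
    have ij : j ≠ i := fun e => n0 (by rw [e])
    have N0 : ∀ f ∈ (M.erase i).erase j, f ∈ M := fun f hf => mem_of_mem_erase (mem_of_mem_erase hf)
    have N1 : ∀ f ∈ (M.erase i).erase j, i.1 ≠ f.1 ∧ i.2 ≠ f.2 ∧ _ := fun f hf =>
      h2.2 i i2 f (N0 f hf) (ne_of_mem_erase (mem_of_mem_erase hf)).symm
    have N2 : ∀ f ∈ (M.erase i).erase j, j.1 ≠ f.1 ∧ j.2 ≠ f.2 ∧ _ := fun f hf =>
      h2.2 j j2 f (N0 f hf) (ne_of_mem_erase hf).symm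
    have N3 : ∀ f ∈ (M.erase i).erase j, ∀ x, Z1 x → x ∉ B → x ≠ G.lab f := fun f hf x x1 x2 e =>
      x2 (e ▸ h5 f (N0 f hf) (e ▸ x1))
    obtain ⟨r1, r2⟩ := (h2.mono N0).insert o1.1 fun f hf =>
      ⟨Ne.symm (c2 f (N0 f hf)), (N1 f hf).2.1, N3 f hf _ z3 b3⟩
    obtain ⟨r3, r4⟩ := r1.insert o2.1 (forall_mem_insert _ _ _ |>.2 ⟨⟨c2 i i2, n0, n3⟩, fun f hf =>
      ⟨(N1 f hf).1, (N2 f hf).2.1, N3 f hf _ z4 b4⟩⟩)
    obtain ⟨r5, r6⟩ := r3.insert o3.1 (forall_mem_insert _ _ _ |>.2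
      ⟨⟨(h2.2 j j2 i i2 ij).1, Ne.symm (s2 j j2), n5.symm⟩, forall_mem_insert _ _ _ |>.2
        ⟨⟨c2 j j2, Ne.symm (s2 i i2), n4⟩, fun f hf =>
          ⟨(N2 f hf).1, Ne.symm (s2 f (N0 f hf)), N3 f hf _ z5 b5⟩⟩⟩)
    have r7 := card_erase_add_one i2
    have r8 := card_erase_add_one (mem_erase.2 ⟨ij, j2⟩)
    have r9 := (card_union_le B (G.Tw (c, s) (i, j))).trans (Nat.add_le_add_left card_le_five _)
    have i3 := mem_product.1 (hI i1)
    have j3 := mem_product.1 (hI j1)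
    refine ih _ (B ∪ G.Tw (c, s) (i, j)) ?_ r5 ?_ (fun e he e1 e2 => ?_) ?_ (by omega) (by omega)
    · simp only [insert_subset_iff, mem_product, c1, s1, i3, j3, true_and]
      exact fun f hf => h1 (N0 f hf)
    · simp only [forall_mem_insert, o1.2, o2.2, o3.2, true_and]
      exact fun f hf => h3 f (N0 f hf)
    · simp only [Tw, mem_union, mem_insert, not_or] at e2
      refine mem_insert_of_mem (mem_insert_of_mem (mem_insert_of_mem ?_))
      exact mem_erase.2 ⟨fun g => e2.2.2.1 (by rw [g]), mem_erase.2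
        ⟨fun g => e2.2.1 (by rw [g]), h4 e he e1 e2.1⟩⟩
    · simp only [forall_mem_insert]
      exact ⟨by simp [Tw], by simp [Tw], by simp [Tw],
        fun f hf g => mem_union_left _ (h5 f (N0 f hf) g)⟩

end Pool.Agent.Lib.MP_4a6af7_co.Simple.Gr
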