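import Mathlib
import Pool.Agent.Lib.MP_4a6af7_co.Simple.Basic

/-! A small rainbow matching with many edges that miss two given vertex sets. -/

set_option autoImplicit false
set_option linter.unusedSectionVars false

namespace Pool.Agent.Lib.MP_4a6af7_co.Simple.Gr

open Finset

variable {V C : Type} [Fintype V] [DecidableEq V] [Fintype C] [DecidableEq C] (G : Gr V C)

/-- the edge misses `U` -/
def av (U : Finset V) (e : C × V) : Prop := e.2 ∉ U ∧ G.lab e ∉ U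

instance (U : Finset V) : DecidablePred (G.av U) := fun _ => inferInstanceAs (Decidable (_ ∧ _))

/-- the number of edges that miss `U` -/
def na (U : Finset V) (Q : Finset (C × V)) : ℕ := (Q.filter (G.av U)).card

open Classical in
/-- the colours at `z` with the other end outside `X` -/
noncomputable def out (X : Finset V) (z : V) : Finset C :=
  univ.filter fun c => G.cel (c, z) ∧ G.lab (c, z) ∉ X

lemma mem_out {X : Finset V} {z : V} {c : C} :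
    c ∈ G.out X z ↔ G.cel (c, z) ∧ G.lab (c, z) ∉ X := by simp [out]

variable {G}

lemma swap {U U' : Finset V} (h1 : ∀ v, G.lf v → v ∉ U → v ∉ U')
    (h2 : ∀ v, ¬ G.lf v → v ∉ U' → v ∉ U) {Q : Finset (C × V)} (hQ : G.Rb Q)
    (hl : ∀ e ∈ Q, G.lf e.2 ∧ (G.av U e ∨ G.av U' e)) {f : C × V} (f1 : G.cel f) (f2 : G.lf f.2)
    (f3 : G.av U' f) (f4 : ∀ e ∈ Q, f.1 ≠ e.1)
    (f5 : ∀ e ∈ Q, G.av U' e → f.2 ≠ e.2 ∧ G.lab f ≠ G.lab e) :
    ∃ Q' ⊆ insert f Q, G.Rb Q' ∧ G.na U Q ≤ G.na U Q' ∧ G.na U' Q + 1 ≤ G.na U' Q' := by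
  have hf : f ∉ Q := fun h => f4 f h rfl
  refine ⟨insert f (Q.filter fun e => e.2 ≠ f.2), insert_subset_insert _ (filter_subset _ _),
    ((hQ.mono (filter_subset _ _)).insert f1 fun e he => ?_).1, ?_, ?_⟩
  · obtain ⟨e1, e2⟩ := mem_filter.1 he
    refine ⟨f4 e e1, e2.symm, fun h => ?_⟩
    by_cases h' : G.av U' e
    · exact (f5 e e1 h').2 h
    · exact h' ⟨h1 _ (hl e e1).1 ((hl e e1).2.resolve_right h').1, h ▸ f3.2⟩
  · by_cases hg : ∃ g ∈ Q, g.2 = f.2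
    · obtain ⟨g, g1, g2⟩ := hg
      have g3 : G.av U g := (hl g g1).2.resolve_right fun h => (f5 g g1 h).1 g2.symm
      have g4 : G.av U f := ⟨g2 ▸ g3.1, h2 _ ((G.side f f1).1 f2) f3.2⟩
      unfold na
      rw [filter_insert, if_pos g4,
        card_insert_of_notMem fun h => hf (mem_filter.1 (mem_filter.1 h).1).1]
      refine le_trans (card_le_card fun e he => ?_) (card_insert_le g _)
      simp only [mem_insert, mem_filter] at he ⊢
      by_cases h : e.2 = f.2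
      · exact Or.inl (hQ.i2 he.1 g1 (h.trans g2.symm))
      · exact Or.inr ⟨⟨he.1, h⟩, he.2⟩
    · exact card_le_card (filter_subset_filter _ fun e he =>
        mem_insert_of_mem (mem_filter.2 ⟨he, fun h => hg ⟨e, he, h⟩⟩))
  · unfold na
    rw [filter_insert, if_pos f3,
      card_insert_of_notMem fun h => hf (mem_filter.1 (mem_filter.1 h).1).1]
    refine Nat.add_le_add_right (card_le_card fun e he => ?_) _
    simp only [mem_filter] at he ⊢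
    exact ⟨⟨he.1, (f5 e he.1 he.2).1.symm⟩, he.2⟩

lemma find {U : Finset V} {D : ℕ} (hD : ∀ v ∉ U, (G.out U v).card ≤ D) (Q : Finset (C × V))
    (Fb : Finset C) (ht : 0 < G.na U Q) (hE : ∀ c, U.card + G.na U Q ≤ (G.E c).card)
    (hn : 2 * D + Q.card + Fb.card < Fintype.card C) :
    ∃ f, G.cel f ∧ G.lf f.2 ∧ G.av U f ∧ f.1 ∉ Fb ∧ (∀ e ∈ Q, f.1 ≠ e.1) ∧
      ∀ e ∈ Q, G.av U e → f.2 ≠ e.2 ∧ G.lab f ≠ G.lab e := by
  classical
  by_contra hcon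
  set T := Q.filter (G.av U) with hT
  set B := T.image Prod.snd ∪ T.image G.lab with hB
  have hB1 : B.card ≤ 2 * G.na U Q := by
    have := card_union_le (T.image Prod.snd) (T.image G.lab)
    have := card_image_le (s := T) (f := Prod.snd)
    have := card_image_le (s := T) (f := G.lab)
    unfold na; rw [← hT, hB]; omega
  have hB2 : ∀ v ∈ B, v ∉ U := by
    intro v hv
    simp only [hB, hT, mem_union, mem_image, mem_filter] at hv
    rcases hv with ⟨e, e1, rfl⟩ | ⟨e, e1, rfl⟩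
    exacts [e1.2.1, e1.2.2]
  have h1 : ∀ c ∈ (Q.image Prod.fst ∪ Fb)ᶜ, G.na U Q ≤ (B.filter fun v => c ∈ G.out U v).card := by
    intro c hc
    simp only [mem_compl, mem_union, mem_image, not_or, not_exists, not_and] at hc
    have h2 := G.avoid c U Subset.rfl
    have h3 := hE c
    refine le_trans (by omega) ((card_le_card (s := (G.E c).filter fun u =>
      u ∉ U ∧ G.lab (c, u) ∉ U) fun u hu => ?_).trans (G.touch c _))
    obtain ⟨u1, u2⟩ := mem_filter.1 hu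
    obtain ⟨u3, u4⟩ := G.mem_E.1 u1
    refine mem_filter.2 ⟨u1, ?_⟩
    by_contra h4
    refine hcon ⟨(c, u), u4, u3, u2, hc.2, fun e he => Ne.symm (hc.1 e he), fun e he h =>
      ⟨fun h5 => h4 (Or.inl ?_), fun h5 => h4 (Or.inr ?_)⟩⟩
    · exact mem_filter.2 ⟨mem_union_left _ (mem_image.2 ⟨e, mem_filter.2 ⟨he, h⟩, h5.symm⟩),
        G.mem_out.2 ⟨u4, u2.2⟩⟩
    · exact mem_filter.2 ⟨mem_union_right _ (mem_image.2 ⟨e, mem_filter.2 ⟨he, h⟩, h5.symm⟩),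
        G.mem_out.2 ⟨(G.inv _ u4).1, (G.inv _ u4).2 ▸ u2.1⟩⟩
  have h2 : ∑ c, (B.filter fun v => c ∈ G.out U v).card ≤ B.card * D := by
    simp only [card_filter]
    rw [sum_comm]
    refine sum_le_card_nsmul _ _ _ fun v hv => ?_
    rw [← card_filter]
    simpa using hD v (hB2 v hv)
  have h3 := (card_nsmul_le_sum _ _ _ h1).trans
    ((sum_le_sum_of_subset (subset_univ _)).trans h2)
  have h4 := card_add_card_compl (Q.image Prod.fst ∪ Fb)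
  have h5 := (card_union_le (Q.image Prod.fst) Fb).trans (Nat.add_le_add_right card_image_le _)
  rw [smul_eq_mul] at h3
  have h6 : 2 * D < (Q.image Prod.fst ∪ Fb)ᶜ.card := by omega
  have := Nat.mul_le_mul_right D hB1
  nlinarith

lemma phase {U U' : Finset V} (h1 : ∀ v, G.lf v → v ∉ U → v ∉ U')
    (h2 : ∀ v, ¬ G.lf v → v ∉ U' → v ∉ U) {D : ℕ} (hD : ∀ v ∉ U', (G.out U' v).card ≤ D)
    (hE : ∀ c, Fintype.card C ≤ (G.E c).card) {c0 : C} (h0 : Fintype.card C < (G.E c0).card)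
    {Fb : Finset C} (hc : c0 ∉ Fb) {Q0 : Finset (C × V)} (hQ : G.Rb Q0)
    (hl : ∀ e ∈ Q0, (G.lf e.2 ∧ (G.av U e ∨ G.av U' e)) ∧ e.1 ∉ Fb) (h3 : ∀ e ∈ Q0, c0 ≠ e.1)
    (j : ℕ) (hj : j ≤ Fintype.card C + 1 - U'.card)
    (hn : 2 * D + Q0.card + j + Fb.card ≤ Fintype.card C) :
    ∃ Q, G.Rb Q ∧ (∀ e ∈ Q, (G.lf e.2 ∧ (G.av U e ∨ G.av U' e)) ∧ e.1 ∉ Fb) ∧
      G.na U Q0 ≤ G.na U Q ∧ j ≤ G.na U' Q ∧ Q.card ≤ Q0.card + j ∧ (j = 0 → Q = Q0) := by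
  induction j with
  | zero => exact ⟨Q0, hQ, hl, le_rfl, by omega, le_rfl, fun _ => rfl⟩
  | succ j ih =>
    obtain ⟨Q, g1, g2, g3, g4, g5, g6⟩ := ih (by omega) (by omega)
    by_cases h : j + 1 ≤ G.na U' Q
    · exact ⟨Q, g1, g2, g3, h, by omega, by omega⟩
    have : ∃ f, G.cel f ∧ G.lf f.2 ∧ G.av U' f ∧ f.1 ∉ Fb ∧ (∀ e ∈ Q, f.1 ≠ e.1) ∧
        ∀ e ∈ Q, G.av U' e → f.2 ≠ e.2 ∧ G.lab f ≠ G.lab e := by
      rcases Nat.eq_zero_or_pos j with rfl | hj0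
      · obtain ⟨u, u1, u2⟩ := G.exists_avoid c0 U' Subset.rfl (by omega)
        refine ⟨(c0, u), (G.mem_E.1 u1).2, (G.mem_E.1 u1).1, u2, hc, g6 rfl ▸ h3, fun e he h' => ?_⟩
        exact absurd (card_pos.2 ⟨e, mem_filter.2 ⟨he, h'⟩⟩) h
      · exact find hD Q Fb (by omega) (fun c => by have := hE c; omega) (by omega)
    obtain ⟨f, f1, f2, f3, f4, f5, f6⟩ := this
    obtain ⟨Q', q1, q2, q3, q4⟩ := swap h1 h2 g1 (fun e he => (g2 e he).1) f1 f2 f3 f5 f6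
    have := (card_le_card q1).trans (card_insert_le _ _)
    refine ⟨Q', q2, fun e he => ?_, by omega, by omega, by omega, by omega⟩
    rcases mem_insert.1 (q1 he) with rfl | he
    · exact ⟨⟨f2, Or.inr f3⟩, f4⟩
    · exact g2 e he

lemma stars (Z : Finset V) (Pr : C × V → Prop) (β : ℕ)
    (h : ∀ z ∈ Z, ∀ (K : Finset C) (B : Finset V), K.card ≤ β → B.card ≤ 2 * β → z ∉ B →
      ∃ f, G.cel f ∧ G.lf f.2 ∧ Pr f ∧ (f.2 = z ∨ G.lab f = z) ∧ f.1 ∉ K ∧ f.2 ∉ B ∧ G.lab f ∉ B)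
    {Q0 : Finset (C × V)} (hQ : G.Rb Q0) (hl : ∀ e ∈ Q0, G.lf e.2 ∧ Pr e)
    (hβ : Q0.card + Z.card ≤ β) :
    ∃ Q, Q0 ⊆ Q ∧ G.Rb Q ∧ (∀ e ∈ Q, G.lf e.2 ∧ Pr e) ∧ Q.card ≤ Q0.card + Z.card ∧
      ∀ z ∈ Z, ∃ e ∈ Q, e.2 = z ∨ G.lab e = z := by
  induction Z using Finset.induction_on with
  | empty => exact ⟨Q0, Subset.rfl, hQ, hl, by simp, by simp⟩
  | insert z Z hz ih =>
    rw [card_insert_of_notMem hz] at hβ ⊢
    obtain ⟨Q, g1, g2, g3, g4, g5⟩ := ih (fun z hz => h z (mem_insert_of_mem hz)) (by omega)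
    by_cases hz' : ∃ e ∈ Q, e.2 = z ∨ G.lab e = z
    · exact ⟨Q, g1, g2, g3, by omega, forall_mem_insert _ _ _ |>.2 ⟨hz', g5⟩⟩
    have a1 := card_union_le (Q.image Prod.snd) (Q.image G.lab)
    have a2 := card_image_le (s := Q) (f := Prod.snd)
    have a3 := card_image_le (s := Q) (f := G.lab)
    have a4 := card_image_le (s := Q) (f := Prod.fst)
    obtain ⟨f, f1, f2, f3, f4, f5, f6, f7⟩ := h z (mem_insert_self _ _) (Q.image Prod.fst)
      (Q.image Prod.snd ∪ Q.image G.lab) (by omega) (by omega) (by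
        simp only [mem_union, mem_image]
        rintro (⟨e, e1, e2⟩ | ⟨e, e1, e2⟩)
        exacts [hz' ⟨e, e1, Or.inl e2⟩, hz' ⟨e, e1, Or.inr e2⟩])
    obtain ⟨b1, b2⟩ := g2.insert f1 fun e he =>
      ⟨fun h => f5 (mem_image.2 ⟨e, he, h.symm⟩),
        fun h => f6 (mem_union_left _ (mem_image.2 ⟨e, he, h.symm⟩)),
        fun h => f7 (mem_union_right _ (mem_image.2 ⟨e, he, h.symm⟩))⟩
    refine ⟨insert f Q, g1.trans (subset_insert _ _), b1,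
      forall_mem_insert _ _ _ |>.2 ⟨⟨f2, f3⟩, g3⟩, by omega,
      forall_mem_insert _ _ _ |>.2 ⟨⟨f, mem_insert_self _ _, f4⟩, fun y hy => ?_⟩⟩
    obtain ⟨e, e1, e2⟩ := g5 y hy
    exact ⟨e, mem_insert_of_mem e1, e2⟩

lemma orient {e : C × V} (he : G.cel e) : ∃ f, G.cel f ∧ G.lf f.2 ∧ f.1 = e.1 ∧
    ((f.2 = e.2 ∧ G.lab f = G.lab e) ∨ (f.2 = G.lab e ∧ G.lab f = e.2)) := by
  by_cases h : G.lf e.2
  · exact ⟨e, he, h, rfl, Or.inl ⟨rfl, rfl⟩⟩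
  · exact ⟨(e.1, G.lab e), (G.inv e he).1, by_contra fun h' => h ((G.side e he).2 h'), rfl,
      Or.inr ⟨rfl, (G.inv e he).2⟩⟩

lemma ends_le (Z : Finset V) (T : Finset (C × V)) (h : ∀ z ∈ Z, ∃ e ∈ T, e.2 = z ∨ G.lab e = z)
    (h' : ∀ e ∈ T, ¬ (e.2 ∈ Z ∧ G.lab e ∈ Z)) : Z.card ≤ T.card := by
  refine card_le_card_of_forall_subsingleton (fun z e => e.2 = z ∨ G.lab e = z) h ?_
  rintro e he a ⟨a1, rfl | rfl⟩ b ⟨b1, rfl | rfl⟩
  exacts [rfl, absurd ⟨a1, b1⟩ (h' e he), absurd ⟨b1, a1⟩ (h' e he), rfl]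

variable (G) in
/-- the edge behaves well at the centres `Z` -/
def nice (X Z : Finset V) (e : C × V) : Prop :=
  (e.2 ∈ Z ∨ G.lab e ∈ Z → G.av X e) ∧ ¬ (e.2 ∈ Z ∧ G.lab e ∈ Z)

lemma nice_of {X P Z : Finset V} (hZ : Z ⊆ P) (hP : ∀ z ∈ P, z ∉ X) {e : C × V}
    (h : e.2 ∉ X ∪ P ∨ G.lab e ∉ X ∪ P) : G.nice X Z e := by
  have h1 := @hZ e.2
  have h2 := @hZ (G.lab e)
  have h3 := hP e.2
  have h4 := hP (G.lab e)
  simp only [mem_union] at h
  unfold nice av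
  tauto

lemma nice_count {X P Z : Finset V} (hZ : Z ⊆ P) {Q : Finset (C × V)}
    (h : ∀ e ∈ Q, G.nice X Z e) (h' : ∀ z ∈ Z, ∃ e ∈ Q, e.2 = z ∨ G.lab e = z) :
    Z.card + G.na (X ∪ P) Q ≤ G.na X Q := by
  have h1 := ends_le (G := G) Z ((Q.filter (G.av X)).filter fun e => ¬ G.av (X ∪ P) e)
    (fun z hz => by
      obtain ⟨e, e1, e2⟩ := h' z hz
      refine ⟨e, mem_filter.2 ⟨mem_filter.2 ⟨e1, (h e e1).1 ?_⟩, fun h => ?_⟩, e2⟩
      · rcases e2 with rfl | rfl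
        exacts [Or.inl hz, Or.inr hz]
      · exact e2.elim (fun g => h.1 (mem_union_right _ (hZ (g ▸ hz))))
          fun g => h.2 (mem_union_right _ (hZ (g ▸ hz))))
    fun e he => (h e (mem_filter.1 (mem_filter.1 he).1).1).2
  have h2 := card_filter_add_card_filter_not (s := Q.filter (G.av X)) (G.av (X ∪ P))
  have h3 : G.na (X ∪ P) Q ≤ ((Q.filter (G.av X)).filter (G.av (X ∪ P))).card :=
    card_le_card fun e he => by
      simp only [mem_filter, av, mem_union] at he ⊢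
      tauto
  unfold na at *
  omega

lemma used_count {X : Finset V} {Q : Finset (C × V)} (h : ∀ e ∈ Q, ¬ (e.2 ∈ X ∧ G.lab e ∈ X)) :
    (X ∩ (Q.image Prod.snd ∪ Q.image G.lab)).card + G.na X Q ≤ Q.card := by
  rw [← card_filter_add_card_filter_not (s := Q) (G.av X), add_comm]
  refine Nat.add_le_add_left (ends_le (G := G) _ _ (fun z hz => ?_) fun e he g => ?_) _
  · simp only [mem_inter, mem_union, mem_image] at hz
    obtain ⟨z1, ⟨e, e1, rfl⟩ | ⟨e, e1, rfl⟩⟩ := hz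
    · exact ⟨e, mem_filter.2 ⟨e1, fun h => h.1 z1⟩, Or.inl rfl⟩
    · exact ⟨e, mem_filter.2 ⟨e1, fun h => h.2 z1⟩, Or.inr rfl⟩
  · exact h e (mem_filter.1 he).1 ⟨(mem_inter.1 g.1).1, (mem_inter.1 g.2).1⟩

variable (G) in
/-- vertices outside `X` with many edges that miss `X` -/
noncomputable def big (X : Finset V) (D : ℕ) : Finset V :=
  univ.filter fun z => z ∉ X ∧ D < (G.out X z).card

lemma mem_big {X : Finset V} {D : ℕ} {z : V} :
    z ∈ G.big X D ↔ z ∉ X ∧ D < (G.out X z).card := by simp [big]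

lemma out_le {X : Finset V} {D : ℕ} (v : V) (hv : v ∉ X ∪ G.big X D) :
    (G.out (X ∪ G.big X D) v).card ≤ D := by
  simp only [mem_union, mem_big, not_or, not_and, not_lt] at hv
  refine le_trans (card_le_card fun c hc => ?_) (hv.2 hv.1)
  rw [mem_out] at hc ⊢
  exact ⟨hc.1, fun h => hc.2 (mem_union_left _ h)⟩

lemma star {X Y Z Z' A B : Finset V} {K : Finset C} {z : V} (hz : z ∈ Z ∪ Z') (hB : z ∉ B)
    (h1 : z ∈ Z → X ⊆ A ∧ z ∉ X) (h2 : z ∈ Z' → Y ⊆ A ∧ z ∉ Y)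
    (h : K.card + (B.card + (Z ∪ Z').card) < (G.out A z).card) :
    ∃ f, G.cel f ∧ G.lf f.2 ∧ (G.nice X Z f ∧ G.nice Y Z' f ∧ (G.av X f ∨ G.av Y f)) ∧
      (f.2 = z ∨ G.lab f = z) ∧ f.1 ∉ K ∧ f.2 ∉ B ∧ G.lab f ∉ B := by
  have c1 : ((G.out A z).filter fun c => G.lab (c, z) ∈ B ∪ (Z ∪ Z')).card ≤
      (B ∪ (Z ∪ Z')).card := card_le_card_of_injOn (fun c => G.lab (c, z))
    (fun c hc => (mem_filter.1 hc).2) fun c hc c' hc' h => (Prod.ext_iff.1 (G.simp _ _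
      (G.mem_out.1 (mem_filter.1 hc).1).1 (G.mem_out.1 (mem_filter.1 hc').1).1 rfl h)).1
  have c2 := card_union_le B (Z ∪ Z')
  obtain ⟨c, c3, c4⟩ := exists_mem_notMem_of_card_lt_card (s := K ∪ (G.out A z).filter
    fun c => G.lab (c, z) ∈ B ∪ (Z ∪ Z')) (t := G.out A z)
    ((card_union_le _ _).trans_lt (by omega))
  obtain ⟨c5, c6⟩ := G.mem_out.1 c3
  obtain ⟨f, f1, f2, f3, f4⟩ := orient c5
  simp only [mem_union, mem_filter, c3, true_and, not_or] at c4 hz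
  obtain ⟨d1, d2, d3, d4⟩ := c4
  have c7 : z ∈ Z → G.av X f := fun h => by
    rcases f4 with ⟨f4, f5⟩ | ⟨f4, f5⟩ <;> rw [av, f4, f5]
    exacts [⟨(h1 h).2, fun g => c6 ((h1 h).1 g)⟩, ⟨fun g => c6 ((h1 h).1 g), (h1 h).2⟩]
  have c8 : z ∈ Z' → G.av Y f := fun h => by
    rcases f4 with ⟨f4, f5⟩ | ⟨f4, f5⟩ <;> rw [av, f4, f5]
    exacts [⟨(h2 h).2, fun g => c6 ((h2 h).1 g)⟩, ⟨fun g => c6 ((h2 h).1 g), (h2 h).2⟩]
  refine ⟨f, f1, f2, ⟨?_, ?_, hz.imp c7 c8⟩, ?_, f3 ▸ d1, ?_⟩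
  all_goals rcases f4 with ⟨f4, f5⟩ | ⟨f4, f5⟩ <;> simp only [nice, f4, f5] <;> tauto

theorem pre (X Y : Finset V) (k : ℕ)
    (h1 : ∀ v, G.lf v → v ∉ X ∪ G.big X (8 * k) → v ∉ Y ∪ G.big Y (8 * k))
    (h2 : ∀ v, ¬ G.lf v → v ∉ Y ∪ G.big Y (8 * k) → v ∉ X ∪ G.big X (8 * k))
    (h3 : ∀ z ∈ G.big X (8 * k), z ∈ G.big Y (8 * k) → 8 * k < (G.out (X ∪ Y) z).card)
    (h4 : ∀ e, G.cel e → G.av X e ∨ G.av Y e →
      ¬ (e.2 ∈ X ∧ G.lab e ∈ X) ∧ ¬ (e.2 ∈ Y ∧ G.lab e ∈ Y))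
    (hE : ∀ c, Fintype.card C ≤ (G.E c).card) {c1 c2 : C} (hc : c1 ≠ c2)
    (e1 : Fintype.card C < (G.E c1).card) (e2 : Fintype.card C < (G.E c2).card)
    (hX : Fintype.card C + 1 ≤ X.card + k) (hY : Fintype.card C + 1 ≤ Y.card + k)
    (hn : 18 * k + 1 ≤ Fintype.card C) :
    ∃ K W, G.RM K W ∧ K.card ≤ 2 * k ∧ W.card ≤ 4 * k ∧
      (X ∩ W).card + (Fintype.card C + 1 - X.card) ≤ K.card ∧
      (Y ∩ W).card + (Fintype.card C + 1 - Y.card) ≤ K.card := by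
  set P := G.big X (8 * k) with hP
  set P' := G.big Y (8 * k) with hP'
  have p1 : ∀ z ∈ P, z ∉ X := fun z hz => (mem_big.1 hz).1
  have p2 : ∀ z ∈ P', z ∉ Y := fun z hz => (mem_big.1 hz).1
  have u1 : (X ∪ P).card = X.card + P.card :=
    card_union_of_disjoint (disjoint_right.2 fun z hz => p1 z hz)
  have u2 : (Y ∪ P').card = Y.card + P'.card :=
    card_union_of_disjoint (disjoint_right.2 fun z hz => p2 z hz)
  obtain ⟨Q1, a1, a2, -, a3, a4, -⟩ := phase (U := X ∪ P) (U' := X ∪ P) (fun _ _ h => h)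
    (fun _ _ h => h) out_le hE e1 (Fb := {c2}) (by simpa using hc) (Q0 := ∅) ⟨by simp, by simp⟩
    (by simp) (by simp) _ le_rfl (by simp only [card_empty, card_singleton]; omega)
  rw [card_empty] at a4
  obtain ⟨Q2, b1, b2, b3, b4, b5, -⟩ := phase h1 h2 out_le hE e2 (Fb := ∅) (by simp) a1
    (fun e he => ⟨⟨(a2 e he).1.1, Or.inl ((a2 e he).1.2.elim id id)⟩, by simp⟩)
    (fun e he h => (a2 e he).2 (mem_singleton.2 h.symm)) _ le_rfl (by rw [card_empty]; omega)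
  obtain ⟨Z, z1, z2⟩ := exists_subset_card_eq (min_le_left P.card (Fintype.card C + 1 - X.card))
  obtain ⟨Z', z3, z4⟩ := exists_subset_card_eq (min_le_left P'.card (Fintype.card C + 1 - Y.card))
  have z5 := card_union_le Z Z'
  obtain ⟨Q, q1, q2, q3, q4, q5⟩ := stars (G := G) (Z ∪ Z')
    (fun e => G.nice X Z e ∧ G.nice Y Z' e ∧ (G.av X e ∨ G.av Y e)) (2 * k) (fun z hz K B hK hB hz' => by
      obtain ⟨A, A1, A2, A3⟩ : ∃ A, 8 * k < (G.out A z).card ∧ (z ∈ Z → X ⊆ A) ∧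
          (z ∈ Z' → Y ⊆ A) := by
        by_cases g1 : z ∈ Z <;> by_cases g2 : z ∈ Z'
        · exact ⟨X ∪ Y, h3 z (z1 g1) (z3 g2), fun _ => subset_union_left,
            fun _ => subset_union_right⟩
        · exact ⟨X, (mem_big.1 (z1 g1)).2, fun _ => Subset.rfl, fun h => absurd h g2⟩
        · exact ⟨Y, (mem_big.1 (z3 g2)).2, fun h => absurd h g1, fun _ => Subset.rfl⟩
        · simp [g1, g2] at hz
      exact star hz hz' (fun h => ⟨A2 h, p1 z (z1 h)⟩) (fun h => ⟨A3 h, p2 z (z3 h)⟩) (by omega))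
    b1 (fun e he => by
      obtain ⟨⟨g1, g2⟩, -⟩ := b2 e he
      have g3 := h1 _ g1
      have g4 := h2 _ ((G.side e (b1.1 e he)).1 g1)
      refine ⟨g1, nice_of z1 p1 (Or.inr ?_), nice_of z3 p2 (Or.inl ?_), ?_⟩
      · exact g2.elim (fun h => h.2) fun h => g4 h.2
      · exact g2.elim (fun h => g3 h.1) fun h => h.1
      · simp only [av, mem_union] at g2 ⊢
        tauto) (by omega)
  have n1 := nice_count z1 (fun e he => (q3 e he).2.1) fun z hz => q5 z (mem_union_left _ hz)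
  have n2 := nice_count z3 (fun e he => (q3 e he).2.2.1) fun z hz => q5 z (mem_union_right _ hz)
  have n3 : G.na (X ∪ P) Q2 ≤ G.na (X ∪ P) Q := card_le_card (filter_subset_filter _ q1)
  have n4 : G.na (Y ∪ P') Q2 ≤ G.na (Y ∪ P') Q := card_le_card (filter_subset_filter _ q1)
  have n5 := used_count fun e he => (h4 e (q2.1 e he) (q3 e he).2.2.2).1
  have n6 := used_count fun e he => (h4 e (q2.1 e he) (q3 e he).2.2.2).2
  have n7 := card_union_le (Q.image Prod.snd) (Q.image G.lab)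
  have n8 := card_image_le (s := Q) (f := Prod.snd)
  have n9 := card_image_le (s := Q) (f := G.lab)
  refine ⟨Q.image Prod.fst, Q.image Prod.snd ∪ Q.image G.lab, q2.rm (fun e he =>
    ⟨mem_union_left _ (mem_image_of_mem _ he), mem_union_right _ (mem_image_of_mem _ he)⟩)
    fun e he f hf => G.cross (q2.1 f hf) (q3 e he).1 (q3 f hf).1, ?_⟩
  rw [card_image_of_injOn q2.i1]
  omega

/-- every colour has `n` edges and two colours have more -/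
structure Sz (G : Gr V C) : Prop where
  ge : ∀ c, Fintype.card C ≤ (G.E c).card
  two : ∃ c1 c2, c1 ≠ c2 ∧ Fintype.card C < (G.E c1).card ∧ Fintype.card C < (G.E c2).card

lemma Sz.flip (h : G.Sz) : G.flip.Sz := by
  obtain ⟨c1, c2, h1, h2, h3⟩ := h.two
  exact ⟨fun c => (h.ge c).trans (G.flip_E c), c1, c2, h1, h2.trans_le (G.flip_E _),
    h3.trans_le (G.flip_E _)⟩

theorem cover (X Y : Finset V) (k : ℕ)
    (h1 : ∀ v, G.lf v → v ∉ X ∪ G.big X (8 * k) → v ∉ Y ∪ G.big Y (8 * k))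
    (h2 : ∀ v, ¬ G.lf v → v ∉ Y ∪ G.big Y (8 * k) → v ∉ X ∪ G.big X (8 * k))
    (h3 : ∀ z ∈ G.big X (8 * k), z ∈ G.big Y (8 * k) → 8 * k < (G.out (X ∪ Y) z).card)
    (h4 : ∀ e, G.cel e → G.av X e ∨ G.av Y e →
      ¬ (e.2 ∈ X ∧ G.lab e ∈ X) ∧ ¬ (e.2 ∈ Y ∧ G.lab e ∈ Y))
    (hs : G.Sz) (hX : Fintype.card C + 1 ≤ X.card + k) (hY : Fintype.card C + 1 ≤ Y.card + k)
    (hn : 18 * k + 1 ≤ Fintype.card C) (K1 : Finset C) (hK : K1.card ≤ k)
    (h5 : ∀ c, ∀ B : Finset V, B.card ≤ 6 * k → ∃ u, G.cel (c, u) ∧ u ∉ B ∧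
      G.lab (c, u) ∉ B ∧ ¬ (u ∈ X ∧ G.lab (c, u) ∈ X) ∧ ¬ (u ∈ Y ∧ G.lab (c, u) ∈ Y)) :
    ∃ K W, G.RM K W ∧ K1 ⊆ K ∧ K.card ≤ 3 * k ∧ W.card ≤ 6 * k ∧
      Fintype.card C + 1 ≤ (X \ W).card + K.card ∧ Fintype.card C + 1 ≤ (Y \ W).card + K.card := by
  obtain ⟨c1, c2, hc, e1, e2⟩ := hs.two
  obtain ⟨K0, W0, a1, a2, a3, a4, a5⟩ := pre X Y k h1 h2 h3 h4 hs.ge hc e1 e2 hX hY hn
  obtain ⟨K, W, b1, b2, -, b3, b4, b5, b6⟩ := exc X Y univ K0 W0 _ _ (6 * k) a1 a4 a5 K1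
    (fun c _ B hB => by
      obtain ⟨u, u1, u2⟩ := h5 c B hB
      exact ⟨u, mem_univ _, u1, mem_univ _, u2⟩) (by omega)
  have := card_sdiff_add_card_inter X W
  have := card_sdiff_add_card_inter Y W
  exact ⟨K, W, b1, b2, by omega, by omega, by omega, by omega⟩

lemma side_big {X Y : Finset V} {D : ℕ} {v : V} (h : ∀ c, G.cel (c, v) → G.lab (c, v) ∉ X)
    (hY : v ∉ Y) (hv : v ∉ X ∪ G.big X D) : v ∉ Y ∪ G.big Y D := by
  simp only [mem_union, mem_big, not_or, not_and, not_lt] at hv ⊢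
  refine ⟨hY, fun _ => le_trans (card_le_card fun c hc => ?_) (hv.2 hv.1)⟩
  rw [mem_out] at hc ⊢
  exact ⟨hc.1, h c hc.1⟩

theorem coverD (X Y : Finset V) (k : ℕ) (xl : ∀ x ∈ X, G.lf x) (yr : ∀ y ∈ Y, ¬ G.lf y)
    (hs : G.Sz) (hX : Fintype.card C + 1 ≤ X.card + k) (hY : Fintype.card C + 1 ≤ Y.card + k)
    (hn : 18 * k + 1 ≤ Fintype.card C) (K1 : Finset C) (hK : K1.card ≤ k) :
    ∃ K W, G.RM K W ∧ K1 ⊆ K ∧ K.card ≤ 3 * k ∧ W.card ≤ 6 * k ∧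
      Fintype.card C + 1 ≤ (X \ W).card + K.card ∧ Fintype.card C + 1 ≤ (Y \ W).card + K.card := by
  have a1 : ∀ e, G.cel e → G.lf e.2 → G.lab e ∉ X := fun e he h g => (G.side e he).1 h (xl _ g)
  have a2 : ∀ e, G.cel e → ¬ G.lf e.2 → G.lab e ∉ Y := fun e he h g =>
    h ((G.side e he).2 (yr _ g))
  have a3 : ∀ e, G.cel e → ¬ (e.2 ∈ X ∧ G.lab e ∈ X) ∧ ¬ (e.2 ∈ Y ∧ G.lab e ∈ Y) := fun e he =>
    ⟨fun h => a1 e he (xl _ h.1) h.2, fun h => a2 e he (yr _ h.1) h.2⟩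
  refine cover X Y k (fun v hv => side_big (fun c hc => a1 _ hc hv) fun h => yr v h hv)
    (fun v hv => side_big (fun c hc => a2 _ hc hv) fun h => hv (xl v h)) (fun z z1 z2 => ?_)
    (fun e he _ => a3 e he) hs hX hY hn K1 hK fun c B hB => ?_
  · by_cases h : G.lf z
    · refine (mem_big.1 z2).2.trans_le (card_le_card fun c hc => ?_)
      rw [mem_out] at hc ⊢
      exact ⟨hc.1, fun g => (mem_union.1 g).elim (a1 _ hc.1 h) hc.2⟩
    · refine (mem_big.1 z1).2.trans_le (card_le_card fun c hc => ?_)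
      rw [mem_out] at hc ⊢
      exact ⟨hc.1, fun g => (mem_union.1 g).elim hc.2 (a2 _ hc.1 h)⟩
  · obtain ⟨u, u1, u2, u3⟩ := G.exists_avoid c B Subset.rfl (by have := hs.ge c; omega)
    exact ⟨u, (G.mem_E.1 u1).2, u2, u3, a3 _ (G.mem_E.1 u1).2⟩

theorem coverS (S : Finset V) (k : ℕ) (hs : G.Sz) (hX : Fintype.card C + 1 ≤ S.card + k)
    (hS : S.card ≤ Fintype.card C + k) (hn : 18 * k + 1 ≤ Fintype.card C) (K1 : Finset C)
    (hK : K1.card ≤ k) :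
    ∃ K W, G.RM K W ∧ K1 ⊆ K ∧ K.card ≤ 3 * k ∧ W.card ≤ 6 * k ∧
      Fintype.card C + 1 ≤ (S \ W).card + K.card := by
  classical
  obtain ⟨K, W, h1, h2, h3, h4, h5, -⟩ := cover S S k (fun _ _ h => h) (fun _ _ h => h)
    (fun z z1 _ => by rw [union_self]; exact (mem_big.1 z1).2)
    (fun e _ h => ⟨fun g => (h.elim id id).1 g.1, fun g => (h.elim id id).1 g.1⟩) hs hX hX hn K1 hK
    fun c B hB => by
      have a1 : ((G.E c).filter fun u => u ∈ S ∧ G.lab (c, u) ∈ S).card ≤ (S.filter G.lf).card :=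
        card_le_card fun u hu =>
          mem_filter.2 ⟨(mem_filter.1 hu).2.1, (G.mem_E.1 (mem_filter.1 hu).1).1⟩
      have a2 : ((G.E c).filter fun u => u ∈ S ∧ G.lab (c, u) ∈ S).card ≤
          (S.filter fun u => ¬ G.lf u).card := by
        refine card_le_card_of_injOn (fun u => G.lab (c, u)) (fun u hu => ?_) fun u hu v hv h => ?_
        · obtain ⟨b1, b2⟩ := G.mem_E.1 (mem_filter.1 hu).1
          exact mem_filter.2 ⟨(mem_filter.1 hu).2.2, (G.side _ b2).1 b1⟩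
        · exact (Prod.ext_iff.1 (G.inj (G.mem_E.1 (mem_filter.1 hu).1).2
            (G.mem_E.1 (mem_filter.1 hv).1).2 rfl h)).2
      have a3 := card_filter_add_card_filter_not (s := S) G.lf
      have a4 := card_filter_add_card_filter_not (s := G.E c) fun u => u ∈ S ∧ G.lab (c, u) ∈ S
      obtain ⟨u, u1, u2, u3⟩ := G.exists_avoid c B
        (filter_subset (fun u => ¬ (u ∈ S ∧ G.lab (c, u) ∈ S)) _) (by have := hs.ge c; omega)
      obtain ⟨u4, u5⟩ := mem_filter.1 u1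
      exact ⟨u, (G.mem_E.1 u4).2, u2, u3, u5, u5⟩
  exact ⟨K, W, h1, h2, h3, h4, h5⟩

end Pool.Agent.Lib.MP_4a6af7_co.Simple.Gr
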