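import Mathlib
import Pool.Agent.Lib.MP_901e0d_co.Rbs.Wrap
import Pool.Agent.Lib.MP_4a6af7_co.Simple.Pre

/-! The case of a graph that is close to a Latin square. -/

set_option autoImplicit false
set_option linter.unusedSectionVars false

namespace Pool.Agent.Lib.MP_4a6af7_co.Simple.Gr

open Finset Pool.Agent.Lib.MP_901e0d_co.Rbs Sum

variable {V C : Type} [Fintype V] [DecidableEq V] [Fintype C] [DecidableEq C] (G : Gr V C)

open Classical in
/-- the edges from `A` to `B` -/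
noncomputable def cells (A B : Finset V) : Finset (C × V) :=
  univ.filter fun e => G.cel e ∧ e.2 ∈ A ∧ G.lab e ∈ B

lemma mem_cells {A B : Finset V} {e : C × V} :
    e ∈ G.cells A B ↔ G.cel e ∧ e.2 ∈ A ∧ G.lab e ∈ B := by simp [cells]

/-- an edge as a triple -/
def tp (e : C × V) : Fin 3 → V ⊕ C := ![inl e.2, inr e.1, inl (G.lab e)]

/-- three classes -/
def Ux (X : Finset V) (K : Finset C) (Y : Finset V) : Finset (Vx (V ⊕ C)) :=
  univ.filter fun b => b.2 ∈ ![X.image inl, K.image inr, Y.image inl] b.1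

lemma sz_Ux (X : Finset V) (K : Finset C) (Y : Finset V) (j : Fin 3) :
    sz (Ux X K Y) j = ![X.card, K.card, Y.card] j := by
  rw [sz_eq]
  simp only [Ux, mem_filter, mem_univ, true_and, filter_mem_eq_inter, univ_inter]
  fin_cases j <;> simp [card_image_of_injective _ inl_injective,
    card_image_of_injective _ inr_injective]

lemma tp_sub {X : Finset V} {K : Finset C} {Y : Finset V} {e : C × V} :
    tri (G.tp e) ⊆ Ux X K Y ↔ e.2 ∈ X ∧ e.1 ∈ K ∧ G.lab e ∈ Y := by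
  simp [tp, tri_eq, insert_subset_iff, Ux]

lemma tp_inj : Function.Injective G.tp := fun e f h =>
  Prod.ext (by simpa [tp] using congrFun h 1) (by simpa [tp] using congrFun h 0)

lemma tp_lin (A : Finset (C × V)) (hA : ∀ e ∈ A, G.cel e) : Lin fun g => g ∈ A.image G.tp := by
  intro g g' hg hg' k hk
  obtain ⟨e, he, rfl⟩ := mem_image.1 hg
  obtain ⟨f, hf, rfl⟩ := mem_image.1 hg'
  congr 1
  fin_cases k
  · exact G.inj (hA e he) (hA f hf) (by simpa [tp] using hk 1 (by decide))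
      (by simpa [tp] using hk 2 (by decide))
  · exact G.simp _ _ (hA e he) (hA f hf) (by simpa [tp] using hk 0 (by decide))
      (by simpa [tp] using hk 2 (by decide))
  · exact Prod.ext (by simpa [tp] using hk 1 (by decide)) (by simpa [tp] using hk 0 (by decide))

lemma rm_of_pm {X X0 Y Y0 : Finset V} {K : Finset C} (xl : ∀ x ∈ X0, G.lf x)
    {F : Finset (Vx (V ⊕ C))} (hF : ∀ b ∈ F, b.1 ≠ 1)
    (h : PM3 (fun g => g ∈ (G.cells X0 Y0).image G.tp ∧ tri g ⊆ Ux X K Y) (Ux X K Y \ F)) :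
    G.RM K (X ∪ Y) := by
  obtain ⟨M, h1, h2, h3⟩ := h
  refine ⟨(G.cells X0 Y0).filter fun e => G.tp e ∈ M, fun e he => ?_, fun c hc => ?_,
    fun e he f hf hne => ?_⟩
  · obtain ⟨e1, e2⟩ := mem_filter.1 he
    have := G.tp_sub.1 (h1 _ e2).2
    exact ⟨(G.mem_cells.1 e1).1, mem_union_left _ this.1, mem_union_right _ this.2.2⟩
  · have : ((1, inr c) : Vx (V ⊕ C)) ∈ M.biUnion tri :=
      h3 ▸ mem_sdiff.2 ⟨by simpa [Ux] using hc, fun h => hF _ h rfl⟩
    obtain ⟨g, g1, g2⟩ := mem_biUnion.1 this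
    obtain ⟨e, e1, rfl⟩ := mem_image.1 (h1 g g1).1
    exact mem_image.2 ⟨e, mem_filter.2 ⟨e1, g1⟩, by simpa [tp] using mem_tri.1 g2⟩
  · obtain ⟨e1, e2⟩ := mem_filter.1 he
    obtain ⟨f1, f2⟩ := mem_filter.1 hf
    have := disjoint_tri.1 (h2 e2 f2 fun h => hne (G.tp_inj h))
    rw [mem_cells] at e1 f1
    exact ⟨by simpa [tp] using this 0, G.cross f1.1 (xl _ e1.2.1) (xl _ f1.2.1),
      by simpa [tp] using this 2⟩

theorem caseD : ∃ n0 : ℕ, ∀ (V C : Type) [Fintype V] [DecidableEq V] [Fintype C] [DecidableEq C]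
    (G : Gr V C) (X0 Y0 : Finset V) (a d : ℕ), n0 ≤ Fintype.card C → G.Sz → (∀ x ∈ X0, G.lf x) →
    (∀ y ∈ Y0, ¬ G.lf y) → X0.card ≤ Fintype.card C + a → Y0.card ≤ Fintype.card C + a →
    Fintype.card C * Fintype.card C ≤ (G.cells X0 Y0).card + a * Fintype.card C → 1 ≤ d →
    12 * a * Fintype.card C ≤ d * d → 400000 * d ≤ Fintype.card C → G.RM univ univ := by
  obtain ⟨n0, h0⟩ := wrap 1 le_rfl
  refine ⟨2 * n0, fun V C _ _ _ _ G X0 Y0 a d hn hs xl yr hX hY hQ d1 d2 d3 => ?_⟩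
  set n := Fintype.card C with hn'
  have ha : a ≤ d := by nlinarith
  have l1 := G.tp_lin (G.cells X0 Y0) fun e he => (G.mem_cells.1 he).1
  set E := fun g => g ∈ (G.cells X0 Y0).image G.tp
  have l2 : ∀ g, E g → tri g ⊆ Ux X0 univ Y0 := by
    intro g hg
    obtain ⟨e, he, rfl⟩ := mem_image.1 hg
    rw [mem_cells] at he
    exact G.tp_sub.2 ⟨he.2.1, mem_univ _, he.2.2⟩
  have l3 : (es E).card = (G.cells X0 Y0).card := by
    rw [← card_image_of_injective _ G.tp_inj]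
    congr 1; ext g; exact mem_es
  have l4 := bad_count l1 l2 (N := n + a) (fun j => by
    rw [sz_Ux]; fin_cases j <;> simp <;> omega) (Λ := 4 * a * n) (by rw [l3]; nlinarith) 1 d
  set Bd := (Ux X0 univ Y0).filter fun b => 1 * dg E b + d < 1 * (n + a) with hBd
  have l5 : Bd.card ≤ d := Nat.le_of_mul_le_mul_right (by nlinarith) d1
  have l6 : ∀ b ∈ Ux X0 univ Y0, b ∉ Bd → n + a ≤ dg E b + d := fun b h1 h2 => by
    by_contra h; exact h2 (mem_filter.2 ⟨h1, by omega⟩)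
  have l7 : ∀ {α : Type} [DecidableEq α] (A : Finset α) (φ : α → Vx (V ⊕ C)), φ.Injective →
      (A.filter fun x => φ x ∈ Bd).card ≤ d := fun A φ hφ =>
    (card_le_card_of_injOn φ (fun x hx => (mem_filter.1 hx).2) hφ.injOn).trans l5
  have x1 := l7 X0 (fun x => (0, inl x)) fun _ _ h => by simpa using h
  have x2 := l7 Y0 (fun x => (2, inl x)) fun _ _ h => by simpa using h
  have x3 := l7 univ (fun c : C => (1, inr c)) fun _ _ h => by simpa using h
  have x4 := card_filter_add_card_filter_not (s := X0) fun x => ((0, inl x) : Vx (V ⊕ C)) ∈ Bd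
  have x5 := card_filter_add_card_filter_not (s := Y0) fun x => ((2, inl x) : Vx (V ⊕ C)) ∈ Bd
  obtain ⟨c, -, hc⟩ := exists_mem_notMem_of_card_lt_card (t := univ)
    (x3.trans_lt (by rw [card_univ]; omega))
  have x6 := l6 (1, inr c) (by simp [Ux]) (by simpa using hc)
  have x7 := dg_le l1 l2 (1, inr c) (j := 0) (by simp)
  have x8 := dg_le l1 l2 (1, inr c) (j := 2) (by simp)
  simp only [sz_Ux, Matrix.cons_val_zero, Matrix.cons_val] at x7 x8
  obtain ⟨K, W, k1, k2, k3, k4, k5, k6⟩ := coverD (G := G)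
    (X0.filter fun x => ((0, inl x) : Vx (V ⊕ C)) ∉ Bd)
    (Y0.filter fun x => ((2, inl x) : Vx (V ⊕ C)) ∉ Bd) (3 * d)
    (fun x hx => xl x (mem_filter.1 hx).1) (fun x hx => yr x (mem_filter.1 hx).1) hs
    (by omega) (by omega) (by omega) _ (x3.trans (by omega))
  have m1 := card_add_card_compl K
  obtain ⟨X, y1, y2⟩ := exists_subset_card_eq (n := Kᶜ.card + 1)
    (s := (X0.filter fun x => ((0, inl x) : Vx (V ⊕ C)) ∉ Bd) \ W) (by omega)
  obtain ⟨Y, y3, y4⟩ := exists_subset_card_eq (n := Kᶜ.card + 1)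
    (s := (Y0.filter fun x => ((2, inl x) : Vx (V ⊕ C)) ∉ Bd) \ W) (by omega)
  have u1 : ∀ b ∈ Ux X Kᶜ Y, b ∈ Ux X0 univ Y0 ∧ b ∉ Bd := by
    rintro ⟨j, b⟩ hb
    fin_cases j <;> simp only [Ux, mem_filter, mem_univ, true_and] at hb <;>
      obtain ⟨x, hx, rfl⟩ := mem_image.1 hb
    · have := mem_filter.1 (mem_sdiff.1 (y1 hx)).1
      exact ⟨by simpa [Ux] using this.1, this.2⟩
    · exact ⟨by simp [Ux], fun h => mem_compl.1 hx (k2 (mem_filter.2 ⟨mem_univ _, h⟩))⟩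
    · have := mem_filter.1 (mem_sdiff.1 (y3 hx)).1
      exact ⟨by simpa [Ux] using this.1, this.2⟩
  have u2 := card_sdiff_add_card_eq_card (s := Ux X Kᶜ Y) fun b hb => (u1 b hb).1
  rw [card_sz (Ux X Kᶜ Y), card_sz (Ux X0 univ Y0)] at u2
  simp only [sz_Ux, Matrix.cons_val_zero, Matrix.cons_val_one, Matrix.cons_val, card_univ] at u2
  obtain ⟨y, -, y', -, -, -, h⟩ := (h0 (V ⊕ C) (fun g => E g ∧ tri g ⊆ Ux X Kᶜ Y) (Ux X Kᶜ Y)
    (Kᶜ.card + 1) (30 * d) (by omega) ⟨fun g g' h h' => l1 g g' h.1 h'.1, fun g h => h.2,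
      fun j => by rw [sz_Ux]; fin_cases j <;> simp <;> omega,
      fun j => by rw [sz_Ux]; fin_cases j <;> simp <;> omega, fun b hb => by
        have := l6 b (u1 b hb).1 (u1 b hb).2
        have := dg_restrict l1 l2 hb
        omega⟩ (by omega)).1 1 Kᶜ.card ∅ ∅
    (fun j => by rw [sz_Ux]; fin_cases j <;> simp <;> omega) (by simp)
  refine (k1.union (G.rm_of_pm xl (by simp [show (1 : Equiv.Perm (Fin 3)).symm = 1 from rfl]) h) ?_).mono (by simp) (subset_univ _)
  exact disjoint_union_right.2 ⟨disjoint_right.2 fun x hx => (mem_sdiff.1 (y1 hx)).2,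
    disjoint_right.2 fun x hx => (mem_sdiff.1 (y3 hx)).2⟩

end Pool.Agent.Lib.MP_4a6af7_co.Simple.Gr
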