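import Mathlib
import Pool.Agent.Shared.FunProb
import Pool.Agent.Lib.MP_d738f8_co.Nibble

/-! Rounding fractional rainbow matchings when the number of vertices is not bounded. -/

set_option autoImplicit false
set_option linter.unusedSectionVars false

namespace Pool.Agent.Lib.MP_4a6af7_co.Simple

open Finset Pool.Agent.Shared.FunProb Pool.Agent.Lib.MP_d738f8_co

section

variable {P F : Type} [Fintype P] [DecidableEq P] [Fintype F] [Nonempty F]

lemma pr_eq {a b : P} (h : a ≠ b) : pr (fun f : P → F => f a = f b) = 1 / Fintype.card F := by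
  classical
  have hF : (0 : ℝ) < Fintype.card F := by exact_mod_cast Fintype.card_pos
  have h1 : ∀ y, pr (fun f : P → F => f a = y ∧ f b = y) =
      1 / Fintype.card F * (1 / Fintype.card F) := fun y => by
    rw [pr_and (T := {a}) (T' := {b}) (fun f g hf h => (hf a (mem_singleton_self _)).symm.trans h)
      (fun f g hf h => (hf b (mem_singleton_self _)).symm.trans h) (disjoint_singleton.2 h),
      pr_coord, pr_coord]
  have h2 : pr (fun f : P → F => f a = f b) = ∑ y, pr (fun f : P → F => f a = y ∧ f b = y) := by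
    unfold pr cnt
    rw [← sum_div, card_eq_sum_card_fiberwise (f := fun f : P → F => f b) (t := univ)
      (fun _ _ => mem_univ _), Nat.cast_sum]
    congr 1
    refine sum_congr rfl fun y _ => ?_
    congr 2
    ext f
    simp only [mem_filter, mem_univ, true_and]
    exact ⟨fun h => ⟨h.1.trans h.2, h.2⟩, fun h => ⟨h.1.trans h.2.symm, h.2⟩⟩
  simp only [h2, h1, sum_const, card_univ, nsmul_eq_mul]
  field_simp

open Classical in
lemma exists_avg {ι : Type} (J : Finset ι) (κ : ι → ℝ) (B : ι → (P → F) → Prop) (ε : ℝ)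
    (hκ : ∀ x ∈ J, 0 ≤ κ x) (hB : ∀ x ∈ J, pr (B x) ≤ ε) :
    ∃ f, ∑ x ∈ J.filter fun x => B x f, κ x ≤ (∑ x ∈ J, κ x) * ε := by
  have hN : (0 : ℝ) < Fintype.card (P → F) := card_pos'
  obtain ⟨f, -, hf⟩ := exists_le_of_sum_le (s := univ) univ_nonempty
    (f := fun f : P → F => ∑ x ∈ J.filter fun x => B x f, κ x)
    (g := fun _ => (∑ x ∈ J, κ x) * ε) (by
      simp only [sum_filter]
      rw [sum_comm, sum_const, card_univ, nsmul_eq_mul, sum_mul, mul_sum]
      refine sum_le_sum fun x hx => ?_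
      have := hB x hx
      rw [pr, div_le_iff₀ hN, cnt] at this
      rw [← sum_filter, sum_const, nsmul_eq_mul]
      nlinarith [hκ x hx])
  exact ⟨f, hf⟩

end

variable {ε A B C : Type} [DecidableEq ε] [DecidableEq A] [DecidableEq B] [DecidableEq C]

/-- two maps that together are injective -/
def Li (s : Finset ε) (p : ε → A) (q : ε → B) : Prop :=
  ∀ e ∈ s, ∀ f ∈ s, p e = p f → q e = q f → e = f

/-- all loads are at most one -/
def Ld (s : Finset ε) (p : ε → A) (w : ε → ℝ) : Prop :=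
  ∀ a, ∑ e ∈ s.filter fun e => p e = a, w e ≤ 1

lemma Li.mono {s s' : Finset ε} {p : ε → A} {q : ε → B} (h : Li s p q) (hs : s' ⊆ s) : Li s' p q :=
  fun e he f hf => h e (hs he) f (hs hf)

lemma Li.symm {s : Finset ε} {p : ε → A} {q : ε → B} (h : Li s p q) : Li s q p :=
  fun e he f hf h1 h2 => h e he f hf h2 h1

lemma Ld.mono {s s' : Finset ε} {p : ε → A} {w : ε → ℝ} (h : Ld s p w) (hs : s' ⊆ s)
    (hw : ∀ e ∈ s, 0 ≤ w e) : Ld s' p w := fun a =>
  (sum_le_sum_of_subset_of_nonneg (filter_subset_filter _ hs) fun e he _ =>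
    hw e (mem_filter.1 he).1).trans (h a)

lemma Li.fib [Fintype C] {s : Finset ε} {p : ε → A} {c : ε → C} (h : Li s p c) (a : A) :
    (s.filter fun e => p e = a).card ≤ Fintype.card C :=
  card_le_card_of_injOn (t := univ) c (fun _ _ => mem_univ _) fun e he f hf =>
    h e (mem_filter.1 he).1 f (mem_filter.1 hf).1 ((mem_filter.1 he).2.trans (mem_filter.1 hf).2.symm)

lemma Ld.tot [Fintype C] {s : Finset ε} {c : ε → C} {w : ε → ℝ} (h : Ld s c w) :
    ∑ e ∈ s, w e ≤ Fintype.card C := by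
  rw [← sum_fiberwise_of_maps_to (g := c) (t := univ) fun _ _ => mem_univ _]
  simpa using sum_le_card_nsmul univ _ 1 fun a _ => h a

lemma merge [Fintype A] (s : Finset ε) (p : ε → A) (q : ε → B) (c : ε → C) (w : ε → ℝ) (n m : ℕ)
    (hm : 0 < m) (hw : ∀ e ∈ s, 0 ≤ w e) (l1 : Li s p q) (l2 : Li s p c) (hp : Ld s p w)
    (f1 : ∀ b, (s.filter fun e => q e = b).card ≤ n) (f2 : ∀ b, (s.filter fun e => c e = b).card ≤ n)
    (ht : ∑ e ∈ s, w e ≤ n) : ∃ μ : A → Fin m, ∃ s' ⊆ s, Li s' (μ ∘ p) q ∧ Li s' (μ ∘ p) c ∧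
      Ld s' (μ ∘ p) w ∧ ∑ e ∈ s, w e - 4 * n ^ 2 / m ≤ ∑ e ∈ s', w e := by
  classical
  have : Nonempty (Fin m) := ⟨⟨0, hm⟩⟩
  let κ : ε → ε → ℝ := fun e f => 2 * w f + ((if q f = q e then 1 else 0) + if c f = c e then 1 else 0)
  have k0 : ∀ e, ∀ f ∈ s, 2 * w f ≤ κ e f := fun e f _ => le_add_of_nonneg_right (by positivity)
  have k1 : ∀ e, ∀ f ∈ s, 0 ≤ κ e f := fun e f hf => by linarith [k0 e f hf, hw f hf]
  have k2 : ∀ e, ∑ f ∈ s, κ e f ≤ 4 * n := fun e => by
    simp only [κ, sum_add_distrib, ← mul_sum, sum_boole]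
    have a1 : ((s.filter fun f => q f = q e).card : ℝ) ≤ n := by exact_mod_cast f1 _
    have a2 : ((s.filter fun f => c f = c e).card : ℝ) ≤ n := by exact_mod_cast f2 _
    linarith
  obtain ⟨μ, hμ⟩ := exists_avg (s ×ˢ s) (fun x => w x.1 * κ x.1 x.2)
    (fun x (μ : A → Fin m) => p x.2 ≠ p x.1 ∧ μ (p x.2) = μ (p x.1)) (1 / m)
    (fun x hx => mul_nonneg (hw _ (mem_product.1 hx).1) (k1 _ _ (mem_product.1 hx).2))
    (fun x _ => by
      by_cases h : p x.2 = p x.1
      · simp [h, pr, cnt]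
      · simp only [ne_eq, h, not_false_eq_true, true_and]
        rw [pr_eq h, Fintype.card_fin])
  let N : ε → Finset ε := fun e => s.filter fun f => p f ≠ p e ∧ μ (p f) = μ (p e)
  have n1 : ∀ e, 0 ≤ ∑ f ∈ N e, κ e f := fun e => sum_nonneg fun f hf => k1 e f (mem_filter.1 hf).1
  have n2 : ∀ e ∈ s.filter fun e => ∑ f ∈ N e, κ e f < 1, ∀ f ∈ s, μ (p e) = μ (p f) →
      q e = q f ∨ c e = c f → p e = p f := by
    intro e he f hf h1 h2
    by_contra h
    have a1 := single_le_sum (f := κ e) (s := N e) (fun f hf => k1 e f (mem_filter.1 hf).1)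
      (mem_filter.2 ⟨hf, Ne.symm h, h1.symm⟩)
    have a2 : 1 ≤ κ e f := by
      have := hw f hf
      simp only [κ]
      rcases h2 with h2 | h2 <;> rw [if_pos h2.symm] <;> split_ifs <;> linarith
    linarith [(mem_filter.1 he).2]
  have n3 : ∀ e ∈ s.filter fun e => ∑ f ∈ N e, κ e f < 1, ∑ f ∈ N e, w f < 1 / 2 := by
    intro e he
    have := sum_le_sum fun f (hf : f ∈ N e) => k0 e f (mem_filter.1 hf).1
    rw [← mul_sum] at this
    linarith [(mem_filter.1 he).2]
  refine ⟨μ, s.filter fun e => ∑ f ∈ N e, κ e f < 1, filter_subset _ _,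
    fun e he f hf h1 h2 => ?_, fun e he f hf h1 h2 => ?_, fun a => ?_, ?_⟩
  · exact l1 e (mem_filter.1 he).1 f (mem_filter.1 hf).1
      (n2 e he f (mem_filter.1 hf).1 h1 (Or.inl h2)) h2
  · exact l2 e (mem_filter.1 he).1 f (mem_filter.1 hf).1
      (n2 e he f (mem_filter.1 hf).1 h1 (Or.inr h2)) h2
  · set T := (s.filter fun e => ∑ f ∈ N e, κ e f < 1).filter fun e => (μ ∘ p) e = a
    have t0 : ∀ e ∈ T, 0 ≤ w e := fun e he => hw e (mem_filter.1 (mem_filter.1 he).1).1
    rcases T.eq_empty_or_nonempty with h | ⟨e, he⟩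
    · simp [h]
    have t1 : ∀ e ∈ T, ∑ f ∈ T.filter fun f => ¬ p f = p e, w f < 1 / 2 := fun e he =>
      (sum_le_sum_of_subset_of_nonneg (fun f hf => by
        simp only [T, N, mem_filter, Function.comp] at he hf ⊢
        exact ⟨hf.1.1.1, hf.2, hf.1.2.trans he.2.symm⟩)
        fun f hf _ => hw f (mem_filter.1 hf).1).trans_lt (n3 e (mem_filter.1 he).1)
    rw [← sum_filter_add_sum_filter_not T fun f => p f = p e]
    rcases (T.filter fun f => ¬ p f = p e).eq_empty_or_nonempty with h | ⟨g, hg⟩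
    · rw [h, sum_empty, add_zero]
      exact hp.mono ((filter_subset _ _).trans (filter_subset _ _)) hw _
    · obtain ⟨g1, g2⟩ := mem_filter.1 hg
      have := sum_le_sum_of_subset_of_nonneg (s := T.filter fun f => p f = p e)
        (t := T.filter fun f => ¬ p f = p g) (f := w)
        (fun f hf => mem_filter.2 ⟨(mem_filter.1 hf).1, fun h =>
          g2 (h.symm.trans (mem_filter.1 hf).2)⟩) fun f hf _ => t0 f (mem_filter.1 hf).1
      linarith [t1 e he, t1 g g1]
  · have a1 : ∑ x ∈ s ×ˢ s, w x.1 * κ x.1 x.2 ≤ 4 * n ^ 2 := by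
      rw [sum_product]
      simp only [← mul_sum]
      refine (sum_le_sum fun e he => mul_le_mul_of_nonneg_left (k2 e) (hw e he)).trans ?_
      rw [← sum_mul]
      nlinarith [(Nat.cast_nonneg n : (0 : ℝ) ≤ n)]
    have a2 : ∑ e ∈ s.filter fun e => ¬ ∑ f ∈ N e, κ e f < 1, w e ≤
        ∑ e ∈ s, w e * ∑ f ∈ N e, κ e f := by
      rw [sum_filter]
      refine sum_le_sum fun e he => ?_
      split_ifs with h
      · exact mul_nonneg (hw e he) (n1 e)
      · exact le_mul_of_one_le_right (hw e he) (not_lt.1 h)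
    rw [sum_filter, sum_product] at hμ
    simp only [← sum_filter, ← mul_sum] at hμ
    have a3 := (a2.trans (le_trans (le_of_eq (by simp only [N])) hμ)).trans
      (mul_le_mul_of_nonneg_right a1 (show (0 : ℝ) ≤ 1 / m by positivity))
    have a4 := sum_filter_add_sum_filter_not s (fun e => ∑ f ∈ N e, κ e f < 1) w
    rw [mul_one_div] at a3
    linarith

lemma nib3 {β : ℝ} (hβ : 0 < β) : ∃ η : ℝ, 0 < η ∧ ∀ (ε A B C : Type) [DecidableEq ε]
    [DecidableEq A] [DecidableEq B] [DecidableEq C] [Fintype A] [Fintype B] [Fintype C]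
    (s : Finset ε) (p : ε → A) (q : ε → B) (c : ε → C) (w : ε → ℝ), (∀ e ∈ s, 0 ≤ w e ∧ w e ≤ η) →
    Li s p q → Li s p c → Li s q c → Ld s p w → Ld s q w → Ld s c w →
    ∃ M ⊆ s, (∀ e ∈ M, ∀ f ∈ M, e ≠ f → c e ≠ c f ∧ p e ≠ p f ∧ q e ≠ q f) ∧
      ∑ e ∈ s, w e - β * (Fintype.card A + Fintype.card B + Fintype.card C) ≤ M.card := by
  obtain ⟨η, h0, h⟩ := nibble (r := 3) (by norm_num) hβ
  refine ⟨η, h0, fun ε A B C _ _ _ _ _ _ _ s p q c w hw l1 l2 l3 d1 d2 d3 => ?_⟩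
  let φ : ε → Finset (A ⊕ B ⊕ C) := fun e => {.inl (p e), .inr (.inl (q e)), .inr (.inr (c e))}
  let w' : Finset (A ⊕ B ⊕ C) → ℝ := fun x => ∑ e ∈ s.filter fun e => φ e = x, w e
  have k : ∀ F : Finset (A ⊕ B ⊕ C) → ℝ, ∑ x ∈ s.image φ, w' x * F x = ∑ e ∈ s, w e * F (φ e) := by
    intro F
    rw [← sum_fiberwise_of_maps_to (g := φ) (t := s.image φ) fun e he => mem_image_of_mem _ he]
    refine sum_congr rfl fun x _ => ?_
    rw [sum_mul]
    exact sum_congr rfl fun e he => by rw [(mem_filter.1 he).2]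
  have k2 : ∀ u v, u ≠ v → ∀ e ∈ s, ∀ f ∈ s, u ∈ φ e → v ∈ φ e → u ∈ φ f → v ∈ φ f → e = f := by
    intro u v huv e he f hf a1 a2 a3 a4
    have := l1 e he f hf
    have := l2 e he f hf
    have := l3 e he f hf
    simp only [φ, mem_insert, mem_singleton] at a1 a2
    rcases a1 with rfl | rfl | rfl <;> rcases a2 with rfl | rfl | rfl <;> simp_all [φ]
  obtain ⟨M, m1, m2, m3⟩ := h (A ⊕ B ⊕ C) (s.image φ) w'
    (fun x hx => by obtain ⟨e, -, rfl⟩ := mem_image.1 hx; simp [φ])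
    (fun x _ => sum_nonneg fun e he => (hw e (mem_filter.1 he).1).1)
    (fun v => by
      rw [load, k]
      rcases v with a | a | a
      · simpa [chi, φ, sum_filter, eq_comm] using d1 a
      · simpa [chi, φ, sum_filter, eq_comm] using d2 a
      · simpa [chi, φ, sum_filter, eq_comm] using d3 a)
    (fun u v huv => by
      rw [cod, k]
      have : ∑ e ∈ s, w e * (chi u (φ e) * chi v (φ e)) =
          ∑ e ∈ s.filter fun e => u ∈ φ e ∧ v ∈ φ e, w e := by
        rw [sum_filter]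
        refine sum_congr rfl fun e _ => ?_
        by_cases a1 : u ∈ φ e <;> by_cases a2 : v ∈ φ e <;> simp [chi, a1, a2]
      rw [this]
      refine (sum_le_card_nsmul _ _ η fun e he => (hw e (mem_filter.1 he).1).2).trans ?_
      have : (s.filter fun e => u ∈ φ e ∧ v ∈ φ e).card ≤ 1 := card_le_one.2 fun e he f hf => by
        rw [mem_filter] at he hf
        exact k2 u v huv e he.1 f hf.1 he.2.1 he.2.2 hf.2.1 hf.2.2
      rw [nsmul_eq_mul]
      exact mul_le_of_le_one_left h0.le (by exact_mod_cast this))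
  refine ⟨s.filter fun e => φ e ∈ M, filter_subset _ _, fun e he f hf hne => ?_, ?_⟩
  · rw [mem_filter] at he hf
    have := m2 he.2 hf.2 fun h => hne (k2 (.inl (p e)) (.inr (.inl (q e))) (by simp) e he.1 f hf.1
      (by simp [φ]) (by simp [φ]) (h ▸ by simp [φ]) (h ▸ by simp [φ]))
    simp [Function.onFun, φ] at this
    tauto
  · have a1 := k fun _ => 1
    have a2 : M.card ≤ (s.filter fun e => φ e ∈ M).card := card_le_card_of_surjOn φ fun x hx => by
      obtain ⟨e, he, rfl⟩ := mem_image.1 (m1 hx)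
      exact ⟨e, mem_filter.2 ⟨he, hx⟩, rfl⟩
    simp only [mul_one] at a1
    simp only [a1, Fintype.card_sum, Nat.cast_add, ← add_assoc] at m3
    exact m3.trans (by exact_mod_cast a2)

theorem nib {β : ℝ} (hβ : 0 < β) : ∃ η : ℝ, 0 < η ∧ ∀ (ε A B C : Type) [DecidableEq ε]
    [DecidableEq A] [DecidableEq B] [DecidableEq C] [Fintype A] [Fintype B] [Fintype C]
    (s : Finset ε) (p : ε → A) (q : ε → B) (c : ε → C) (w : ε → ℝ) (n : ℕ), 0 < n →
    Fintype.card C ≤ n → (∀ b, (s.filter fun e => c e = b).card ≤ n) →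
    (∀ e ∈ s, 0 ≤ w e ∧ w e ≤ η) →
    Li s p q → Li s p c → Li s q c → Ld s p w → Ld s q w → Ld s c w →
    ∃ M ⊆ s, (∀ e ∈ M, ∀ f ∈ M, e ≠ f → c e ≠ c f ∧ p e ≠ p f ∧ q e ≠ q f) ∧
      ∑ e ∈ s, w e - β * n ≤ M.card := by
  obtain ⟨K, hK⟩ := exists_nat_gt (16 / β)
  have hK0 : (0 : ℝ) < K := lt_trans (by positivity) hK
  obtain ⟨η, h0, h⟩ := nib3 (β := β / 2 / (2 * K + 1)) (by positivity)
  refine ⟨η, h0, fun ε A B C _ _ _ _ _ _ _ s p q c w n hn hC f2 hw l1 l2 l3 d1 d2 d3 => ?_⟩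
  have hm : 0 < K * n := Nat.mul_pos (by exact_mod_cast hK0) hn
  have hC' : (Fintype.card C : ℝ) ≤ n := by exact_mod_cast hC
  have hn' : (0 : ℝ) < n := by exact_mod_cast hn
  have w0 : ∀ e ∈ s, 0 ≤ w e := fun e he => (hw e he).1
  obtain ⟨μ, s1, a1, a2, a3, a4, a5⟩ := merge s p q c w n _ hm w0 l1 l2 d1
    (fun b => (l3.fib b).trans hC) f2 (d3.tot.trans hC')
  obtain ⟨ν, s2, b1, b2, b3, b4, b5⟩ := merge s1 q (μ ∘ p) c w n _ hm (fun e he => w0 e (a1 he))
    a2.symm (l3.mono a1) (d2.mono a1 w0) (fun b => (a3.fib b).trans hC)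
    (fun b => (card_le_card (filter_subset_filter _ a1)).trans (f2 b))
    ((d3.mono a1 w0).tot.trans hC')
  obtain ⟨M, m1, m2, m3⟩ := h ε _ _ C s2 (μ ∘ p) (ν ∘ q) c w (fun e he => hw e (a1 (b1 he)))
    b2.symm (a3.mono b1) b3 (a4.mono b1 fun e he => w0 e (a1 he)) b4 (d3.mono (b1.trans a1) w0)
  refine ⟨M, m1.trans (b1.trans a1), fun e he f hf hne => ?_, ?_⟩
  · obtain ⟨c1, c2, c3⟩ := m2 e he f hf hne
    exact ⟨c1, fun h => c2 (congrArg μ h), fun h => c3 (congrArg ν h)⟩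
  · simp only [Fintype.card_fin] at m3
    push_cast at m3 a5 b5
    have c1 : 4 * (n : ℝ) ^ 2 / (K * n) ≤ β / 4 * n := by
      rw [div_lt_iff₀ hβ] at hK
      rw [div_le_iff₀ (by positivity)]
      nlinarith [mul_pos hn' hn']
    have c2 : β / 2 / (2 * K + 1) * (K * n + K * n + Fintype.card C) ≤ β / 2 * n := by
      rw [div_mul_eq_mul_div, div_le_iff₀ (by positivity)]
      nlinarith
    linarith

end Pool.Agent.Lib.MP_4a6af7_co.Simple
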