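import Mathlib
import Pool.Agent.Lib.MP_4a6af7_co.Simple.Basic
import Pool.Agent.Lib.MP_4a6af7_co.Simple.Tail
import Pool.Agent.Lib.MP_4a6af7_co.Simple.Nib

/-! The case of a fractional rainbow matching with slack at every vertex. -/

set_option autoImplicit false
set_option linter.unusedSectionVars false

namespace Pool.Agent.Lib.MP_4a6af7_co.Simple.Gr

open Finset

lemma resc {δ a b : ℝ} (h1 : δ ≤ 1 / 2) (ha : a ≤ 1) (hb : a ≤ b + δ) :
    2 * a - 1 ≤ b / max b (1 - δ) := by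
  rcases le_total b (1 - δ) with h | h
  · rw [max_eq_right h, le_div_iff₀ (by linarith)]; nlinarith
  · rw [max_eq_left h, div_self (by linarith)]; linarith

variable {V C : Type} [Fintype V] [DecidableEq V] [Fintype C] [DecidableEq C] (G : Gr V C)

/-- the cells of a choice of edges -/
def ch (A : C → Finset V) : Finset (C × V) := univ.filter fun e => e.2 ∈ A e.1

lemma mem_ch {A : C → Finset V} {e : C × V} : e ∈ ch A ↔ e.2 ∈ A e.1 := by simp [ch]

lemma ch_fib (A : C → Finset V) (P : C × V → Prop) [DecidablePred P] (c : C) :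
    (((ch A).filter P).filter fun e => e.1 = c).card = ((A c).filter fun u => P (c, u)).card := by
  refine card_nbij' Prod.snd (fun u => (c, u)) ?_ ?_ ?_ ?_
  · rintro ⟨c', u⟩ h
    simp only [coe_filter, mem_filter, mem_ch, Set.mem_ofPred_eq] at h ⊢
    obtain ⟨h, rfl⟩ := h
    exact h
  · intro u h
    simpa [mem_ch] using h
  · rintro ⟨c', u⟩ h
    exact Prod.ext (mem_filter.1 h).2.symm rfl
  · intro u _; rfl

lemma li {s : Finset (C × V)} (h : ∀ e ∈ s, G.cel e) :
    Li s Prod.snd G.lab ∧ Li s Prod.snd Prod.fst ∧ Li s G.lab Prod.fst :=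
  ⟨fun e he f hf => G.simp e f (h e he) (h f hf), fun _ _ _ _ h1 h2 => Prod.ext h2 h1,
    fun e he f hf h1 h2 => G.inj (h e he) (h f hf) h2 h1⟩

theorem caseN (L : ℕ) (hL : 2 ≤ L) : ∃ n0 : ℕ, ∀ (V C : Type) [Fintype V] [DecidableEq V]
    [Fintype C] [DecidableEq C] (G : Gr V C) (A : C → Finset V) (w : C × V → ℝ),
    n0 ≤ Fintype.card C → (∀ c, A c ⊆ G.E c) → (∀ c, (A c).card = Fintype.card C) →
    (∀ e ∈ ch A, 0 ≤ w e ∧ w e ≤ 2 / Fintype.card C) → Ld (ch A) Prod.fst w →
    (∀ v, ∑ e ∈ (ch A).filter fun e => e.2 = v, w e ≤ 1 - 1 / L) →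
    (∀ v, ∑ e ∈ (ch A).filter fun e => G.lab e = v, w e ≤ 1 - 1 / L) →
    (Fintype.card C : ℝ) - 1 ≤ ∑ e ∈ ch A, w e → G.RM univ univ := by
  have hL' : (2 : ℝ) ≤ L := by exact_mod_cast hL
  obtain ⟨q, hq⟩ : ∃ q : ℕ, q = 6 * L := ⟨_, rfl⟩
  have hq' : (q : ℝ) = 6 * L := by exact_mod_cast hq
  have q0 : (1 : ℝ) ≤ q := by linarith
  have : NeZero q := ⟨by omega⟩
  obtain ⟨η, h0, hnib⟩ := nib (β := 1 / (10 * q ^ 2)) (by positivity)
  obtain ⟨n1, hn1⟩ := exp_small (1 + q) (c := 1 / (16 * q ^ 4)) (by positivity)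
  obtain ⟨n2, hn2⟩ := exists_nat_gt (4 / η + 14 * q ^ 2)
  refine ⟨n1 + n2 + 1, fun V C _ _ _ _ G A w hn hA hc hw d1 d2 d3 ht => ?_⟩
  set n := Fintype.card C with hn'
  have n3 : (n2 : ℝ) ≤ n := by exact_mod_cast (by omega : n2 ≤ n)
  have n4 : (1 : ℝ) ≤ n := by exact_mod_cast (by omega : 1 ≤ n)
  have n5 : 4 / η + 14 * q ^ 2 < n := hn2.trans_le n3
  have z1 : ∀ c, ((A c ∪ (A c).image fun u => G.lab (c, u)).card : ℝ) ≤ 2 * n := fun c => by
    have := (card_union_le (A c) _).trans (Nat.add_le_add_left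
      (card_image_le (s := A c) (f := fun u => G.lab (c, u))) _)
    rw [hc, ← two_mul] at this
    exact_mod_cast this
  obtain ⟨ω, o1, o2⟩ := exists_good (F := Fin q) A (fun c u => {u, G.lab (c, u)}) (fun _ _ _ => 0)
    (fun c => A c ∪ (A c).image fun u => G.lab (c, u)) (r := 2) (Δ := 1) (l := n / (2 * q ^ 2))
    (l' := n / q) (s := 1 / (16 * q ^ 4) * n) (fun _ _ _ => card_le_two)
    (fun c x => le_trans (card_le_card fun u hu => by
      simp only [mem_filter, mem_insert, mem_singleton] at hu ⊢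
      exact ⟨hA c hu.1, hu.2.imp Eq.symm Eq.symm⟩) (G.touch c {x})) (by positivity) (by positivity)
    (by positivity) (fun c => by rw [hc]; push_cast; field_simp; norm_num)
    (fun c => (mul_le_mul_of_nonneg_left (z1 c) (by positivity)).trans (by
      field_simp; nlinarith [pow_le_pow_left₀ zero_le_one q0 2]))
    (lt_of_le_of_lt (mul_le_mul_of_nonneg_right (by
      rw [Fintype.card_fin, ← hn']
      nlinarith [mul_le_mul_of_nonneg_left n4 (show (0 : ℝ) ≤ (1 + q) * n by positivity)]) (Real.exp_pos _).le) (hn1 n (by omega)))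
  rw [Fintype.card_fin] at o1 o2
  set R := univ.filter fun v => ω v = 0 with hR
  have hR' : ∀ v, v ∈ R ↔ ω v = 0 := by simp [hR]
  set s := (ch A).filter fun e => e.2 ∉ R ∧ G.lab e ∉ R with hs
  have s1 : ∀ e ∈ ch A, G.lf e.2 ∧ G.cel e := fun e he => G.mem_E.1 (hA _ (mem_ch.1 he))
  have s2 : s ⊆ ch A := filter_subset _ _
  let b : C → ℝ := fun c => ∑ e ∈ s.filter fun e => e.1 = c, w e
  have δ1 : (1 : ℝ) / L ≤ 1 / 2 := by gcongr
  have δ0 : (0 : ℝ) ≤ 1 / L := by positivity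
  have b0 : ∀ c, 1 - 1 / (L : ℝ) ≤ max (b c) (1 - 1 / L) := fun c => le_max_right _ _
  have b1 : ∀ c, ∑ e ∈ (ch A).filter fun e => e.1 = c, w e ≤ b c + 1 / L := fun c => by
    rw [← sum_filter_add_sum_filter_not _ fun e => e.2 ∉ R ∧ G.lab e ∉ R, filter_comm,
      filter_comm (fun e : C × V => e.1 = c)]
    refine add_le_add le_rfl ((sum_le_card_nsmul _ _ _ fun e he =>
      (hw e (mem_filter.1 (mem_filter.1 he).1).1).2).trans ?_)
    have a1 : ((A c).filter fun u => ¬ (u ∉ R ∧ G.lab (c, u) ∉ R)).card ≤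
        ((A c ∪ (A c).image fun u => G.lab (c, u)).filter fun x => ω x = 0).card :=
      le_trans (card_le_card fun u hu => by
        simp only [mem_filter, hR', mem_union, not_and_or, not_not] at hu ⊢
        exact ⟨hA c hu.1, hu.2.imp (fun h => ⟨Or.inl hu.1, h⟩)
          fun h => ⟨Or.inr (mem_image_of_mem _ hu.1), h⟩⟩) (G.touch c _)
    have a2 := (Nat.cast_le.2 a1).trans ((o2 c 0).trans (add_le_add_left
      (div_le_div_of_nonneg_right (z1 c) (by positivity)) _))
    rw [ch_fib, nsmul_eq_mul]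
    refine (mul_le_mul_of_nonneg_right a2 (by positivity)).trans (le_of_eq ?_)
    rw [hq']; field_simp; norm_num
  have b2 : ∀ (T : Finset (C × V)), ∑ e ∈ (ch A).filter fun e => e ∈ T, w e ≤ 1 - 1 / L →
      ∑ e ∈ s.filter fun e => e ∈ T, w e / max (b e.1) (1 - 1 / L) ≤ 1 := fun T hT => by
    refine (sum_le_sum fun e he => div_le_div_of_nonneg_left (hw e (s2 (mem_filter.1 he).1)).1
      (by linarith) (b0 e.1)).trans ?_
    rw [← sum_div, div_le_one (by linarith)]
    exact (sum_le_sum_of_subset_of_nonneg (filter_subset_filter _ s2) fun e he _ =>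
      (hw e (mem_filter.1 he).1).1).trans hT
  have b3 : ∀ c, ∑ e ∈ s.filter fun e => e.1 = c, w e / max (b e.1) (1 - 1 / L) =
      b c / max (b c) (1 - 1 / L) := fun c => by
    rw [sum_div]
    exact sum_congr rfl fun e he => by rw [(mem_filter.1 he).2]
  obtain ⟨l1, l2, l3⟩ := G.li fun e he => (s1 e (s2 he)).2
  obtain ⟨M, m1, m2, m3⟩ := hnib _ _ _ _ s Prod.snd G.lab Prod.fst
    (fun e => w e / max (b e.1) (1 - 1 / L)) n (by omega) le_rfl
    (fun c => by rw [hs, ch_fib]; exact (card_filter_le _ _).trans (hc c).le)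
    (fun e he => by
      obtain ⟨a1, a2⟩ := hw e (s2 he)
      have := b0 e.1
      refine ⟨div_nonneg a1 (by linarith), ?_⟩
      have a3 : 4 / η < n := by linarith [sq_nonneg (q : ℝ)]
      rw [div_lt_iff₀ h0] at a3
      rw [le_div_iff₀ (by linarith)] at a2
      rw [div_le_iff₀ (by linarith)]
      nlinarith) l1 l2 l3
    (fun v => by simpa using b2 (univ.filter fun e => e.2 = v) (by simpa using d2 v))
    (fun v => by simpa using b2 (univ.filter fun e => G.lab e = v) (by simpa using d3 v))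
    (fun c => (b3 c).trans_le (div_le_one_of_le₀ (le_max_left _ _) (by linarith [b0 c])))
  have t1 : 2 * ∑ e ∈ ch A, w e - n ≤ ∑ e ∈ s, w e / max (b e.1) (1 - 1 / L) := by
    rw [← sum_fiberwise_of_maps_to (g := Prod.fst) (t := univ) fun _ _ => mem_univ _,
      ← sum_fiberwise_of_maps_to (s := s) (g := Prod.fst) (t := univ) fun _ _ => mem_univ _]
    refine le_trans (le_of_eq ?_) (sum_le_sum fun c _ => (resc δ1 (d1 c) (b1 c)).trans (b3 c).ge)
    simp [mul_sum, hn']
  have r1 : G.Rb M := ⟨fun e he => (s1 e (s2 (m1 he))).2, m2⟩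
  have r2 := card_add_card_compl (M.image Prod.fst)
  rw [card_image_of_injOn r1.i1] at r2
  have r3 : (M.card : ℝ) + (M.image Prod.fst)ᶜ.card = n := by exact_mod_cast r2
  obtain ⟨K, W, k1, k2, k3, -⟩ := exc (G := G) ∅ ∅ R ∅ ∅ 0 0 _ RM.empty (by simp) (by simp)
    (M.image Prod.fst)ᶜ (fun c _ B hB => by
      have a1 := o1 c
      have a2 : Nw (A c) (fun u => {u, G.lab (c, u)}) (fun _ _ => 0) ω =
          ((A c).filter fun u => u ∈ R ∧ G.lab (c, u) ∈ R).card := by
        unfold Nw; congr 1; ext u; simp [hR']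
      rw [a2, hc] at a1
      obtain ⟨u, u1, u2⟩ := G.exists_avoid c B ((filter_subset
        (fun u => u ∈ R ∧ G.lab (c, u) ∈ R) _).trans (hA c)) (by
          have a3 : (B.card : ℝ) ≤ 2 * (M.image Prod.fst)ᶜ.card := by
            rw [card_empty, zero_add] at hB; exact_mod_cast hB
          have a4 : 14 ≤ (n : ℝ) / q ^ 2 := by
            rw [le_div_iff₀ (by positivity)]; linarith [div_pos four_pos h0]
          have a5 : (n : ℝ) / (2 * q ^ 2) = n / q ^ 2 / 2 := by ring
          have a6 : 1 / (10 * (q : ℝ) ^ 2) * n = n / q ^ 2 / 10 := by ring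
          rw [← Nat.cast_lt (α := ℝ)]
          linarith)
      obtain ⟨u3, u4, u5⟩ := mem_filter.1 u1
      exact ⟨u, u4, (G.mem_E.1 (hA c u3)).2, u5, u2.1, u2.2, by simp, by simp⟩) le_rfl
  refine (k1.union (r1.rm (W := Rᶜ) (fun e he => ?_) fun e he f hf => G.cross (r1.1 f hf)
    (s1 e (s2 (m1 he))).1 (s1 f (s2 (m1 hf))).1) ?_).mono (fun c _ => ?_) (subset_univ _)
  · simpa using (mem_filter.1 (m1 he)).2
  · exact disjoint_compl_right.mono_left (by simpa using k3)
  · by_cases h : c ∈ M.image Prod.fst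
    exacts [mem_union_right _ h, mem_union_left _ (k2 (mem_compl.2 h))]

end Pool.Agent.Lib.MP_4a6af7_co.Simple.Gr
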