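import Mathlib
import Pool.Agent.Lib.MP_4a6af7_co.Simple.Nib

/-! Weights on a nearly complete array with prescribed line sums. -/

set_option autoImplicit false

namespace Pool.Agent.Lib.MP_4a6af7_co.Simple

open Finset

variable {α β : Type}

lemma reg (R : Finset α) (K : Finset β) (a : α → β → Prop) [∀ x y, Decidable (a x y)]
    (f : α → β → ℝ) {m d : ℝ} (hR : R.card = m) (hK : K.card = m) (hm : 0 < m) (hd : 8 * d ≤ m)
    (hf : ∀ x ∈ R, ∀ y ∈ K, 1 / 2 ≤ f x y ∧ f x y ≤ 2)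
    (h1 : ∀ x ∈ R, ((K.filter fun y => ¬ a x y).card : ℝ) ≤ d)
    (h2 : ∀ y ∈ K, ((R.filter fun x => ¬ a x y).card : ℝ) ≤ d) :
    ∃ F : α → β → ℝ, (∀ x ∈ R, ∀ y ∈ K, 0 ≤ F x y ∧ F x y ≤ f x y + 8 * d / m ∧
      (¬ a x y → F x y = 0)) ∧ (∀ x, ∑ y ∈ K, F x y = ∑ y ∈ K, f x y) ∧
      ∀ y, ∑ x ∈ R, F x y = ∑ x ∈ R, f x y := by
  let i : α → β → ℝ := fun x y => if ¬ a x y then 1 else 0
  have i1 : ∀ x ∈ R, ∑ y ∈ K, i x y ≤ d := fun x hx => by simpa only [i, sum_boole] using h1 x hx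
  have i2 : ∀ y ∈ K, ∑ x ∈ R, i x y ≤ d := fun y hy => by simpa only [i, sum_boole] using h2 y hy
  have i3 : ∑ x ∈ R, ∑ y ∈ K, i x y ≤ m * d := by
    simpa [hR] using sum_le_card_nsmul R _ d i1
  let j : α → β → α → β → ℝ := fun r s r' s' => if a r s' ∧ a r' s' ∧ a r' s then 1 else 0
  let N : α → β → ℝ := fun r s => ∑ r' ∈ R, ∑ s' ∈ K, j r s r' s'
  have n1 : ∀ r ∈ R, ∀ s ∈ K, m ^ 2 / 2 ≤ N r s := fun r hr s hs => by
    have : ∑ r' ∈ R, ∑ s' ∈ K, (1 - i r s' - i r' s' - i r' s) ≤ N r s :=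
      sum_le_sum fun r' _ => sum_le_sum fun s' _ => by
        simp only [i, j]
        by_cases a r s' <;> by_cases a r' s' <;> by_cases a r' s <;> simp [*]
    simp only [sum_sub_distrib, sum_const, nsmul_eq_mul, hR, hK, ← mul_sum] at this
    nlinarith [mul_le_mul_of_nonneg_left (i1 r hr) hm.le, mul_le_mul_of_nonneg_left (i2 s hs) hm.le]
  let φ : α → β → α → β → ℝ := fun r s r' s' => i r s * f r s / N r s * j r s r' s'
  have p1 : ∀ r ∈ R, ∀ s ∈ K, ∀ r' s', 0 ≤ φ r s r' s' ∧ φ r s r' s' ≤ 4 / m ^ 2 * i r s := by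
    intro r hr s hs r' s'
    have a1 := n1 r hr s hs
    obtain ⟨a2, a3⟩ := hf r hr s hs
    have a4 : 0 < N r s := lt_of_lt_of_le (by positivity) a1
    have a5 : f r s / N r s ≤ 4 / m ^ 2 := by
      rw [div_le_div_iff₀ a4 (by positivity)]; nlinarith [sq_nonneg m]
    have a6 : 0 ≤ f r s / N r s := div_nonneg (by linarith) a4.le
    simp only [φ, i, j]
    split_ifs <;> simp [a5, a6]
    positivity
  have p2 : ∀ r ∈ R, ∀ s ∈ K, ∑ r' ∈ R, ∑ s' ∈ K, φ r s r' s' = i r s * f r s := by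
    intro r hr s hs
    simp only [φ, ← mul_sum]
    exact div_mul_cancel₀ _ (lt_of_lt_of_le (by positivity) (n1 r hr s hs)).ne'
  have e1 : 4 / m ^ 2 * (m * d) = 4 * d / m := by field_simp
  refine ⟨fun x y => f x y - ∑ r ∈ R, ∑ s ∈ K, φ x y r s + ∑ r ∈ R, ∑ s ∈ K, φ x s r y +
    ∑ r ∈ R, ∑ s ∈ K, φ r y x s - ∑ r ∈ R, ∑ s ∈ K, φ r s x y, fun x hx y hy => ?_,
    fun x => ?_, fun y => ?_⟩
  · have a1 : 0 ≤ ∑ r ∈ R, ∑ s ∈ K, φ x s r y :=
      sum_nonneg fun r _ => sum_nonneg fun s hs => (p1 x hx s hs r y).1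
    have a2 : 0 ≤ ∑ r ∈ R, ∑ s ∈ K, φ r y x s :=
      sum_nonneg fun r hr => sum_nonneg fun s _ => (p1 r hr y hy x s).1
    have a3 : 0 ≤ ∑ r ∈ R, ∑ s ∈ K, φ r s x y :=
      sum_nonneg fun r hr => sum_nonneg fun s hs => (p1 r hr s hs x y).1
    have a4 : ∑ r ∈ R, ∑ s ∈ K, φ x s r y ≤ 4 * d / m := by
      refine (sum_le_sum fun r _ => sum_le_sum fun s hs => (p1 x hx s hs r y).2).trans ?_
      rw [sum_const, nsmul_eq_mul, ← mul_sum, hR, mul_left_comm, ← e1]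
      gcongr
      exact i1 x hx
    have a5 : ∑ r ∈ R, ∑ s ∈ K, φ r y x s ≤ 4 * d / m := by
      refine (sum_le_sum fun r hr => sum_le_sum fun s _ => (p1 r hr y hy x s).2).trans ?_
      rw [sum_comm, sum_const, nsmul_eq_mul, ← mul_sum, hK, mul_left_comm, ← e1]
      gcongr
      exact i2 y hy
    have a6 : ∑ r ∈ R, ∑ s ∈ K, φ r s x y ≤ 4 * d / m := by
      refine (sum_le_sum fun r hr => sum_le_sum fun s hs => (p1 r hr s hs x y).2).trans ?_
      simp only [← mul_sum, ← e1]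
      gcongr
    have a7 : 4 * d / m ≤ 1 / 2 := by rw [div_le_iff₀ hm]; linarith
    have a8 : 8 * d / m = 4 * d / m + 4 * d / m := by ring
    obtain ⟨a9, -⟩ := hf x hx y hy
    dsimp only
    rw [p2 x hx y hy]
    by_cases h : a x y
    · simp only [i, h, not_true, if_false, zero_mul]
      exact ⟨by linarith, by linarith, False.elim⟩
    · have : ∀ r s, φ x s r y = 0 ∧ φ r y x s = 0 ∧ φ r s x y = 0 := fun r s => by simp [φ, j, h]
      simp only [i, this, h, sum_const_zero]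
      simp only [not_false_eq_true, if_true, one_mul, sub_self, add_zero, le_refl, true_and,
        implies_true, and_true]
      linarith
  · simp only [sum_add_distrib, sum_sub_distrib]
    have a1 : ∑ y ∈ K, ∑ r ∈ R, ∑ s ∈ K, φ x s r y = ∑ y ∈ K, ∑ r ∈ R, ∑ s ∈ K, φ x y r s := by
      rw [sum_comm, sum_comm (s := K) (t := R)]
      exact sum_congr rfl fun _ _ => sum_comm
    have a2 : ∑ y ∈ K, ∑ r ∈ R, ∑ s ∈ K, φ r s x y = ∑ y ∈ K, ∑ r ∈ R, ∑ s ∈ K, φ r y x s := by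
      rw [sum_comm, sum_comm (s := K) (t := R)]
      exact sum_congr rfl fun _ _ => sum_comm
    linarith
  · simp only [sum_add_distrib, sum_sub_distrib]
    have a1 : ∑ x ∈ R, ∑ r ∈ R, ∑ s ∈ K, φ r y x s = ∑ x ∈ R, ∑ r ∈ R, ∑ s ∈ K, φ x y r s :=
      sum_comm
    have a2 : ∑ x ∈ R, ∑ r ∈ R, ∑ s ∈ K, φ r s x y = ∑ x ∈ R, ∑ r ∈ R, ∑ s ∈ K, φ x s r y :=
      sum_comm
    linarith

lemma sum_inj_ge {ι : Type} [DecidableEq α] (R : Finset α) (r : α → ℝ) (hr : ∀ x ∈ R, r x ≤ 1)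
    (Z : Finset ι) (p : ι → α) (hp : Set.InjOn p Z) (hZ : ∀ z ∈ Z, p z ∈ R) :
    Z.card ≤ R.card ∧ ∑ x ∈ R, r x - R.card + Z.card ≤ ∑ z ∈ Z, r (p z) := by
  have h0 : Z.image p ⊆ R := image_subset_iff.2 hZ
  have h1 := card_sdiff_add_card_eq_card h0
  rw [card_image_of_injOn hp] at h1
  have h2 := sum_le_card_nsmul (R \ Z.image p) r 1 fun x hx => hr x (mem_sdiff.1 hx).1
  rw [← sum_sdiff h0, sum_image hp, ← h1]
  rw [nsmul_eq_mul] at h2
  exact ⟨by omega, by push_cast; linarith⟩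

lemma tilt [DecidableEq α] [DecidableEq β] (R : Finset α) (K : Finset β) (a g : α × β → Prop)
    [DecidablePred a] [DecidablePred g] {m d γ : ℝ} (hR : R.card = m) (hK : K.card = m) (hm : 0 < m)
    (h0 : 0 < γ) (hγ : γ ≤ 1) (hd : 32 * d ≤ γ ^ 2 * m)
    (h1 : ∀ x ∈ R, ((K.filter fun y => ¬ a (x, y)).card : ℝ) ≤ d)
    (h2 : ∀ y ∈ K, ((R.filter fun x => ¬ a (x, y)).card : ℝ) ≤ d)
    (h3 : γ * m ^ 2 ≤ ((R ×ˢ K).filter g).card) :
    ∃ w : α × β → ℝ, (∀ e ∈ (R ×ˢ K).filter a, 0 ≤ w e ∧ w e ≤ 3 / m) ∧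
      Ld ((R ×ˢ K).filter a) Prod.fst w ∧ Ld ((R ×ˢ K).filter a) Prod.snd w ∧
      ∑ e ∈ (R ×ˢ K).filter a, w e = m ∧ ∀ Z ⊆ R ×ˢ K, Set.InjOn Prod.fst (Z : Set (α × β)) →
        Set.InjOn Prod.snd (Z : Set (α × β)) → (∀ z ∈ Z, ¬ g z) ∨ Z.card ≤ (1 - γ) * m →
        ∑ e ∈ Z, w e ≤ 1 := by
  let i : α → β → ℝ := fun x y => if g (x, y) then 1 else 0
  have i0 : ∀ x y, 0 ≤ i x y ∧ i x y ≤ 1 := fun x y => by simp only [i]; split_ifs <;> simp
  let r : α → ℝ := fun x => (∑ y ∈ K, i x y) / m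
  let s : β → ℝ := fun y => (∑ x ∈ R, i x y) / m
  have r0 : ∀ x, 0 ≤ r x ∧ r x ≤ 1 := fun x =>
    ⟨div_nonneg (sum_nonneg fun y _ => (i0 x y).1) hm.le, (div_le_one hm).2 (by
      simpa [hK] using sum_le_card_nsmul K _ 1 fun y _ => (i0 x y).2)⟩
  have s0 : ∀ y, 0 ≤ s y ∧ s y ≤ 1 := fun y =>
    ⟨div_nonneg (sum_nonneg fun x _ => (i0 x y).1) hm.le, (div_le_one hm).2 (by
      simpa [hR] using sum_le_card_nsmul R _ 1 fun x _ => (i0 x y).2)⟩
  obtain ⟨v, hv⟩ : ∃ v, v = (∑ x ∈ R, r x) / m := ⟨_, rfl⟩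
  have v1 : ∑ x ∈ R, r x = m * v := by rw [hv]; field_simp
  have v2 : ∑ y ∈ K, s y = m * v := by
    rw [← v1, ← sum_div, ← sum_div, sum_comm]
  have v3 : γ ≤ v := by
    rw [card_filter, sum_product] at h3
    rw [hv, ← sum_div, div_div, le_div_iff₀ (by positivity), ← sq]
    simpa [i] using h3
  have v4 : v ≤ 1 := by
    rw [hv, div_le_one hm]
    simpa [hR] using sum_le_card_nsmul R _ 1 fun x _ => (r0 x).2
  let f : α → β → ℝ := fun x y => 1 + γ / 4 * (i x y - r x - s y + v)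
  have f0 : ∀ x y, 1 - γ / 2 ≤ f x y ∧ f x y ≤ 1 + γ / 2 := fun x y => by
    have := i0 x y; have := r0 x; have := s0 y
    simp only [f]
    constructor <;> nlinarith
  have d1 : 8 * d ≤ γ ^ 2 / 4 * m := by linarith
  have d2 : γ ^ 2 ≤ γ := by nlinarith
  have d3 : 8 * d / m ≤ γ / 4 := by rw [div_le_iff₀ hm]; nlinarith
  obtain ⟨F, F1, F2, F3⟩ := reg R K (fun x y => a (x, y)) f hR hK hm (d := d) (by nlinarith)
    (fun x _ y _ => ⟨by linarith [(f0 x y).1], by linarith [(f0 x y).2]⟩) h1 h2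
  have f1 : ∀ x, ∑ y ∈ K, F x y / m = 1 := fun x => by
    have : ∑ y ∈ K, i x y = m * r x := by simp only [r]; field_simp
    rw [← sum_div, F2, div_eq_one_iff_eq hm.ne']
    simp only [f, sum_add_distrib, sum_sub_distrib, ← mul_sum, sum_const, nsmul_eq_mul, hK, v2, this]
    ring
  have f2 : ∀ y, ∑ x ∈ R, F x y / m = 1 := fun y => by
    have : ∑ x ∈ R, i x y = m * s y := by simp only [s]; field_simp
    rw [← sum_div, F3, div_eq_one_iff_eq hm.ne']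
    simp only [f, sum_add_distrib, sum_sub_distrib, ← mul_sum, sum_const, nsmul_eq_mul, hR, v1, this]
    ring
  have w0 : ∀ e ∈ R ×ˢ K, 0 ≤ F e.1 e.2 / m := fun e he =>
    div_nonneg (F1 _ (mem_product.1 he).1 _ (mem_product.1 he).2).1 hm.le
  refine ⟨fun e => F e.1 e.2 / m, fun e he => ⟨w0 e (mem_filter.1 he).1, ?_⟩,
    Ld.mono (fun x => ?_) (filter_subset _ _) w0, Ld.mono (fun y => ?_) (filter_subset _ _) w0, ?_,
    fun Z z0 z1 z2 hZ => ?_⟩
  · obtain ⟨e1, e2⟩ := mem_product.1 (mem_filter.1 he).1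
    exact div_le_div_of_nonneg_right (by linarith [(F1 _ e1 _ e2).2.1, (f0 e.1 e.2).2]) hm.le
  · rw [sum_filter, sum_product, sum_comm]
    simp only [sum_ite_eq']
    split_ifs <;> simp [f1]
  · rw [sum_filter, sum_product]
    simp only [sum_ite_eq']
    split_ifs <;> simp [f2]
  · rw [sum_filter_of_ne fun e he h => by_contra fun h' =>
      h (by rw [(F1 _ (mem_product.1 he).1 _ (mem_product.1 he).2).2.2 h', zero_div]), sum_product]
    simp [f1, hR]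
  · obtain ⟨a1, a2⟩ := sum_inj_ge R r (fun x _ => (r0 x).2) Z Prod.fst z1
      fun z hz => (mem_product.1 (z0 hz)).1
    obtain ⟨-, a3⟩ := sum_inj_ge K s (fun x _ => (s0 x).2) Z Prod.snd z2
      fun z hz => (mem_product.1 (z0 hz)).2
    have a4 : (Z.card : ℝ) ≤ m := hR ▸ Nat.cast_le.2 a1
    have a5 := sum_le_sum fun z (hz : z ∈ Z) =>
      (F1 _ (mem_product.1 (z0 hz)).1 _ (mem_product.1 (z0 hz)).2).2.1
    rw [← sum_div, div_le_one hm]
    rw [sum_add_distrib, sum_const, nsmul_eq_mul] at a5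
    have a6 : Z.card * (8 * d / m) ≤ γ ^ 2 / 4 * m := by
      have : 8 * d / m ≤ γ ^ 2 / 4 := by rw [div_le_iff₀ hm]; exact d1
      nlinarith [mul_le_mul_of_nonneg_left this (Nat.cast_nonneg Z.card), sq_nonneg γ]
    rcases hZ with hZ | hZ
    · have : ∑ z ∈ Z, i z.1 z.2 = 0 := sum_eq_zero fun z hz => if_neg (hZ z hz)
      simp only [f, sum_add_distrib, sum_sub_distrib, ← mul_sum, sum_const, nsmul_eq_mul,
        this] at a5
      rw [v1, hR] at a2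
      rw [v2, hK] at a3
      have b1 := mul_le_mul_of_nonneg_left (add_le_add a2 a3) (show 0 ≤ γ / 4 by linarith)
      have b2 := mul_le_mul_of_nonneg_right a4 (show 0 ≤ 1 + γ / 4 * v - γ / 2 by nlinarith)
      have b3 := mul_le_mul_of_nonneg_left v3 (show 0 ≤ γ / 4 * m by positivity)
      nlinarith
    · have b1 := sum_le_card_nsmul Z _ _ fun z _ => (f0 z.1 z.2).2
      rw [nsmul_eq_mul] at b1
      have b2 := mul_le_mul_of_nonneg_right hZ (show 0 ≤ 1 + γ / 2 by linarith)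
      nlinarith [mul_pos h0 hm, mul_pos (pow_pos h0 2) hm]

end Pool.Agent.Lib.MP_4a6af7_co.Simple
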