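import Mathlib
import Pool.Agent.Lib.MP_4a6af7_co.Simple.CaseN
import Pool.Agent.Lib.MP_4a6af7_co.Simple.Reg
import Pool.Agent.Lib.MP_4a6af7_co.Simple.Abs

/-! Full transversals in nearly complete arrays with many cells of rare labels. -/

set_option autoImplicit false
set_option linter.unusedSectionVars false

namespace Pool.Agent.Lib.MP_4a6af7_co.Simple.Gr

open Finset

variable {V C : Type} [Fintype V] [DecidableEq V] [Fintype C] [DecidableEq C] {G : Gr V C}

lemma line {ι F : Type} [DecidableEq F] {T : Finset V} {J J' : Finset ι} (hJ : J' ⊆ J)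
    (φ : ι → C × V) (hφ : ∀ a b, G.cel (φ a) → G.cel (φ b) → G.lab (φ a) = G.lab (φ b) → a = b)
    (ω : V → F) (y y' : F) :
    (J'.filter fun j => ¬ (G.ok T (φ j) ∧ ω (G.lab (φ j)) ≠ y ∧ ω (G.lab (φ j)) ≠ y')).card ≤
      (J.filter fun j => ¬ G.ok T (φ j)).card +
        (((J.image fun j => G.lab (φ j)).filter fun x => ω x = y).card +
          ((J.image fun j => G.lab (φ j)).filter fun x => ω x = y').card) := by
  classical
  have k : ∀ y, (J.filter fun j => G.cel (φ j) ∧ ω (G.lab (φ j)) = y).card ≤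
      ((J.image fun j => G.lab (φ j)).filter fun x => ω x = y).card := fun y =>
    card_le_card_of_injOn (fun j => G.lab (φ j)) (fun j hj => mem_filter.2
      ⟨mem_image_of_mem _ (mem_filter.1 hj).1, (mem_filter.1 hj).2.2⟩) fun a ha b hb =>
        hφ a b (mem_filter.1 ha).2.1 (mem_filter.1 hb).2.1
  refine le_trans (card_le_card fun j hj => ?_) ((card_union_le _ _).trans (Nat.add_le_add_left
    ((card_union_le _ _).trans (add_le_add (k y) (k y'))) _))
  simp only [mem_union, mem_filter, hJ (mem_filter.1 hj).1, true_and]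
  have := (mem_filter.1 hj).2
  unfold ok at *
  tauto

lemma paths {T : Finset V} {I : Finset (C × V)} (hI : G.Rb I) {F : Type} {ω : V → F} {y0 y1 : F}
    (p : C × V) (B : Finset V) (h : B.card * (5 * I.card) < Nw ((I ×ˢ I).filter (G.good T p))
      (G.Tw p) (fun w x => if x = G.lab w.1 ∨ x = G.lab w.2 then y0 else y1) ω) :
    ∃ w ∈ I ×ˢ I, G.good T p w ∧ Disjoint (G.Tw p w) B ∧ ω (G.lab w.1) = y0 ∧
      ω (G.lab w.2) = y0 ∧ ω (G.lab (p.1, w.1.2)) = y1 ∧ ω (G.lab (w.1.1, w.2.2)) = y1 ∧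
      ω (G.lab (w.2.1, p.2)) = y1 := by
  obtain ⟨w, w1, w2⟩ := exists_mem_notMem_of_card_lt_card
    ((card_biUnion_le_card_mul B _ _ fun x _ => good_deg (T := T) hI p x).trans_lt h)
  simp only [mem_filter] at w1
  refine ⟨w, w1.1.1, w1.1.2, disjoint_right.2 fun x x1 x2 => w2 ?_, w1.1.2.marks hI w1.1.1 w1.2⟩
  exact mem_biUnion.2 ⟨x, x1, mem_filter.2 ⟨mem_filter.2 w1.1, x2⟩⟩

theorem core {γ : ℝ} (h0 : 0 < γ) (hγ : γ ≤ 1) : ∃ q m0 : ℕ, ∀ (V C : Type) [Fintype V]
    [DecidableEq V] [Fintype C] [DecidableEq C] (G : Gr V C) (R : Finset C) (S T Lt : Finset V)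
    (m d : ℕ), m0 ≤ m → Fintype.card C ≤ 2 * m → R.card = m → S.card = m → Disjoint S T →
    q * d ≤ m → (∀ c ∈ R, (S.filter fun s => ¬ G.ok T (c, s)).card ≤ d) →
    (∀ s ∈ S, (R.filter fun c => ¬ G.ok T (c, s)).card ≤ d) →
    (∀ t ∈ Lt, (((R ×ˢ S).filter (G.ok {t})).card : ℝ) ≤ (1 - γ) * m) →
    γ * m ^ 2 ≤ ((R ×ˢ S).filter (G.ok Lt)).card → G.RM R (S ∪ T) := by
  obtain ⟨q, hq⟩ := exists_nat_ge (1280 / γ ^ 2)
  have q1 : 1280 ≤ γ ^ 2 * q := by rwa [div_le_iff₀' (by positivity)] at hq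
  have q2 : 1280 ≤ γ * q := by nlinarith [mul_pos h0 h0, (Nat.cast_nonneg q : (0 : ℝ) ≤ q)]
  have q0 : (1280 : ℝ) ≤ q := by nlinarith
  have q3 : 1280 ≤ q := by exact_mod_cast q0
  have : NeZero q := ⟨by omega⟩
  obtain ⟨η, η0, hnib⟩ := nib (β := 1 / (2000 * q ^ 5)) (by positivity)
  obtain ⟨n1, hn1⟩ := exp_small (1 + 3 * q) (c := 1 / (4000 * q ^ 10)) (by positivity)
  obtain ⟨n2, hn2⟩ := exists_nat_ge (6 / η)
  refine ⟨q, n1 + n2 + 200, fun V C _ _ _ _ G R S T Lt m d hm hC hR hS hd hq' h1 h2 h3 h4 => ?_⟩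
  have d1 : 1280 * d ≤ m := (Nat.mul_le_mul_right _ q3).trans hq'
  obtain ⟨k, k1, k2, k3, k4⟩ : ∃ k, 2 * k + d ≤ m ∧ m ≤ 5 * k ∧ 2 * (3 * d + 8) ≤ k ∧ k ≤ m :=
    ⟨m / 4, by omega, by omega, by omega, by omega⟩
  obtain ⟨I, i1, i2, i3, i4⟩ := exI h1 k (by omega) (by omega)
  have m0 : (0 : ℝ) < m := by exact_mod_cast (by omega : 0 < m)
  have m1 : (1 : ℝ) ≤ m := by exact_mod_cast (by omega : 1 ≤ m)
  have k0 : (0 : ℝ) < k := by exact_mod_cast (by omega : 0 < k)
  have k2' : (m : ℝ) ≤ 5 * k := by exact_mod_cast k2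
  let Z : R ⊕ S ⊕ Unit → Finset V := Sum.elim (fun c => S.image fun s => G.lab (c, s))
    (Sum.elim (fun s => R.image fun c => G.lab (c, s)) fun _ => I.image G.lab)
  have z1 : ∀ j, ((Z j).card : ℝ) ≤ m := by
    rintro (c | s | u) <;> exact Nat.cast_le.2 (card_image_le.trans (by omega))
  obtain ⟨ω, o1, o2⟩ := exists_good (F := Fin q) (ρ := R × S)
    (fun p => (I ×ˢ I).filter (G.good T (p.1, p.2))) (fun p => G.Tw (p.1, p.2))
    (fun _ w x => if x = G.lab w.1 ∨ x = G.lab w.2 then 0 else 1) Z (r := 5) (Δ := 5 * k)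
    (l := k ^ 2 / (4 * q ^ 5)) (l' := m / q) (s := 1 / (4000 * q ^ 10) * m)
    (fun _ _ _ => card_le_five) (fun p x => i4 ▸ good_deg i2 _ x) (by positivity) (by positivity)
    (by positivity) (fun p => by
      have a1 : (((I ×ˢ I).filter (G.good T (p.1, p.2))).card : ℝ) ≤ k * k := by
        exact_mod_cast (card_filter_le _ _).trans (by rw [card_product, i4])
      push_cast
      grw [a1, k2']
      field_simp
      norm_num)
    (fun j => by
      grw [z1 j]
      field_simp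
      nlinarith [one_le_pow₀ (show (1 : ℝ) ≤ q by linarith) (n := 8)])
    (lt_of_le_of_lt (mul_le_mul_of_nonneg_right (by
      simp only [Fintype.card_prod, Fintype.card_sum, Fintype.card_coe, Fintype.card_fin, hR, hS,
        Fintype.card_unique]
      push_cast
      nlinarith [mul_le_mul_of_nonneg_left m1 (show (0 : ℝ) ≤ q * m by positivity),
        mul_le_mul_of_nonneg_left m1 (show (0 : ℝ) ≤ q by positivity)])
      (Real.exp_pos _).le) (hn1 m (by omega)))
  rw [Fintype.card_fin] at o1 o2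
  obtain ⟨u, hu⟩ : ∃ u : ℝ, u = m / q := ⟨_, rfl⟩
  have u0 : 0 < u := by rw [hu]; positivity
  have u1 : u * q = m := by rw [hu]; field_simp
  have u2 : 1280 * u ≤ γ ^ 2 * m := by nlinarith
  have u3 : 1280 * u ≤ γ * m := by nlinarith
  have u4 : γ * m ≤ m := by nlinarith
  have u5 : (d : ℝ) ≤ u := by
    rw [hu, le_div_iff₀' (by positivity)]; exact_mod_cast hq'
  have o3 : ∀ j y, (((Z j).filter fun x => ω x = y).card : ℝ) ≤ 2 * u := fun j y => by
    grw [o2 j y, z1 j, ← hu, two_mul]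
  set M0 := I.filter fun e => ω (G.lab e) = 0 with hM0
  have r0 : G.Rb M0 := i2.mono (filter_subset _ _)
  have c0 : (M0.card : ℝ) ≤ 2 * u := le_trans (Nat.cast_le.2 (card_le_card_of_injOn G.lab
    (fun e he => mem_filter.2 ⟨mem_image_of_mem _ (mem_filter.1 he).1, (mem_filter.1 he).2⟩) r0.i3))
    (o3 (.inr (.inr ())) 0)
  have s0 : ∀ e ∈ M0, e.1 ∈ R ∧ e.2 ∈ S := fun e he => mem_product.1 (i1 (mem_filter.1 he).1)
  have c1 := card_sdiff_add_card_eq_card (s := M0.image Prod.fst)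
    (image_subset_iff.2 fun e he => (s0 e he).1)
  have c2 := card_sdiff_add_card_eq_card (s := M0.image Prod.snd)
    (image_subset_iff.2 fun e he => (s0 e he).2)
  rw [card_image_of_injOn r0.i1, hR] at c1
  rw [card_image_of_injOn r0.i2, hS] at c2
  set R' := R \ M0.image Prod.fst with hR'
  set S' := S \ M0.image Prod.snd with hS'
  have c3 : (R'.card : ℝ) = m - M0.card := by rw [← c1]; push_cast; ring
  have c4 : (S'.card : ℝ) = m - M0.card := by rw [← c2]; push_cast; ring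
  have c5 : R' ×ˢ S' ⊆ R ×ˢ S := product_subset_product sdiff_subset sdiff_subset
  have c6 : (0 : ℝ) ≤ M0.card := Nat.cast_nonneg _
  obtain ⟨w, w1, w2, w3, w4, w5⟩ := tilt R' S'
    (fun e => G.ok T e ∧ ω (G.lab e) ≠ 0 ∧ ω (G.lab e) ≠ 1) (G.ok Lt) (d := 5 * u) (γ := γ / 2)
    c3 c4 (by linarith) (by linarith) (by linarith) (by nlinarith [sq_nonneg γ])
    (fun c hc => by
      have a1 := line (G := G) (T := T) (J' := S') sdiff_subset (fun s => (c, s))
        (fun a b ha hb h => (Prod.ext_iff.1 (G.inj ha hb rfl h)).2) ω 0 1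
      have a2 := o3 (.inl ⟨c, (mem_sdiff.1 hc).1⟩)
      grw [a1, h1 c (mem_sdiff.1 hc).1]
      push_cast
      linarith! [a2 0, a2 1])
    (fun s hs => by
      have a1 := line (G := G) (T := T) (J' := R') sdiff_subset (fun c => (c, s))
        (fun a b ha hb h => (Prod.ext_iff.1 (G.simp _ _ ha hb rfl h)).1) ω 0 1
      have a2 := o3 (.inr (.inl ⟨s, (mem_sdiff.1 hs).1⟩))
      grw [a1, h2 s (mem_sdiff.1 hs).1]
      push_cast
      linarith! [a2 0, a2 1])
    (by
      have a1 : ((R ×ˢ S).filter (G.ok Lt)).card ≤ ((R' ×ˢ S').filter (G.ok Lt)).card +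
          ((R ×ˢ S) \ (R' ×ˢ S')).card := le_trans (card_le_card fun e he => by
        simp only [mem_union, mem_filter, mem_sdiff] at he ⊢
        tauto) (card_union_le _ _)
      have a2 := card_sdiff_add_card_eq_card c5
      rw [card_product, card_product, hR, hS] at a2
      have a3 : (((R ×ˢ S) \ (R' ×ˢ S')).card : ℝ) + R'.card * S'.card = m * m := by
        exact_mod_cast a2
      have a4 := h4.trans (Nat.cast_le.2 a1)
      rw [c3, c4] at a3
      push_cast at a4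
      nlinarith [mul_le_mul_of_nonneg_right c0 m0.le, mul_le_mul_of_nonneg_right u3 m0.le,
        mul_nonneg h0.le (mul_nonneg c6 (show 0 ≤ 2 * m - (M0.card : ℝ) by linarith))])
  set s := (R' ×ˢ S').filter fun e => G.ok T e ∧ ω (G.lab e) ≠ 0 ∧ ω (G.lab e) ≠ 1 with hs
  obtain ⟨l1, l2, l3⟩ := G.li (s := s) fun e he => (mem_filter.1 he).2.1.1
  obtain ⟨M, g1, g2, g3⟩ := hnib _ _ _ _ s Prod.snd G.lab Prod.fst w (2 * m) (by omega) hC
    (fun c => (card_le_card_of_injOn (t := S) Prod.snd (fun e he =>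
      (mem_product.1 (c5 (mem_filter.1 (mem_filter.1 he).1).1)).2) fun e he f hf h => Prod.ext
        ((mem_filter.1 he).2.trans (mem_filter.1 hf).2.symm) h).trans (by omega))
    (fun e he => ⟨(w1 e he).1, (w1 e he).2.trans (by
      have a1 : (n2 : ℝ) ≤ m := by exact_mod_cast (by omega : n2 ≤ m)
      have a2 := hn2.trans a1
      rw [div_le_iff₀ η0] at a2
      rw [div_le_iff₀ (by linarith)]
      nlinarith)⟩) l1 l2 l3 w3
    (fun t => w5 _ ((filter_subset _ _).trans (filter_subset _ _))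
      (fun e he f hf h => l3 e (mem_filter.1 he).1 f (mem_filter.1 hf).1
        ((mem_filter.1 he).2.trans (mem_filter.1 hf).2.symm) h)
      (fun e he f hf h => l1 e (mem_filter.1 he).1 f (mem_filter.1 hf).1 h
        ((mem_filter.1 he).2.trans (mem_filter.1 hf).2.symm)) (by
      by_cases ht : t ∈ Lt
      · refine Or.inr ((Nat.cast_le.2 (card_le_card fun e he => ?_)).trans ((h3 t ht).trans ?_))
        · obtain ⟨e1, e2⟩ := mem_filter.1 he
          exact mem_filter.2 ⟨c5 (mem_filter.1 e1).1, (mem_filter.1 e1).2.1.1, mem_singleton.2 e2⟩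
        · nlinarith
      · exact Or.inl fun z hz h => ht ((mem_filter.1 hz).2 ▸ h.2))) w2
  have x1 : ∀ e ∈ M, ∀ f ∈ M0, e.1 ≠ f.1 ∧ e.2 ≠ f.2 ∧ G.lab e ≠ G.lab f := fun e he f hf => by
    obtain ⟨e1, e2⟩ := mem_filter.1 (g1 he)
    exact ⟨fun h => (mem_sdiff.1 (mem_product.1 e1).1).2 (mem_image.2 ⟨f, hf, h.symm⟩),
      fun h => (mem_sdiff.1 (mem_product.1 e1).2).2 (mem_image.2 ⟨f, hf, h.symm⟩),
      fun h => e2.2.1 (h ▸ (mem_filter.1 hf).2)⟩
  have x2 : (M ∪ M0).card = M.card + M0.card :=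
    card_union_of_disjoint (disjoint_left.2 fun e h h' => (x1 e h e h').1 rfl)
  obtain ⟨j, j1, j2⟩ : ∃ j : ℕ, m ≤ (M ∪ M0).card + j ∧ (j : ℝ) ≤ m / (1000 * q ^ 5) := by
    rcases le_total m (M ∪ M0).card with h | h
    · exact ⟨0, h, by push_cast; positivity⟩
    · refine ⟨m - (M ∪ M0).card, by omega, ?_⟩
      rw [Nat.cast_sub h, x2]
      rw [w4] at g3
      push_cast at g3 ⊢
      have : 1 / (2000 * (q : ℝ) ^ 5) * (2 * m) = m / (1000 * q ^ 5) := by ring
      linarith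
  obtain ⟨M', y1, y2, y3, y4⟩ := absorb (β := 5 * j) hR hS i1 (fun x => ω x = 0) (fun x => ω x = 1)
    (fun p hp B hB => paths i2 p B (by
      have a1 := o1 (⟨p.1, (mem_product.1 hp).1⟩, ⟨p.2, (mem_product.1 hp).2⟩)
      have a2 := good_many h1 h2 i2 i1 hp
      rw [i4] at a2 ⊢
      have a3 : k * k ≤ 2 * ((I ×ˢ I).filter (G.good T p)).card := by nlinarith
      have a4 : (k : ℝ) * k / 2 ≤ ((I ×ˢ I).filter (G.good T p)).card := by
        rw [div_le_iff₀' two_pos]; exact_mod_cast a3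
      have a5 : (B.card : ℝ) ≤ 5 * j := by exact_mod_cast hB
      rw [← Nat.cast_lt (α := ℝ)]
      push_cast
      dsimp only at a1
      grw [← a4] at a1
      grw [a5, j2, k2']
      have a6 : 0 < (k : ℝ) ^ 2 / q ^ 5 := by positivity
      have a7 : 5 * (5 * (k : ℝ) / (1000 * q ^ 5)) * (5 * k) = k ^ 2 / q ^ 5 / 8 := by ring
      have a8 : (k : ℝ) * k / 2 / q ^ 5 = k ^ 2 / q ^ 5 / 2 := by ring
      have a9 : (k : ℝ) ^ 2 / (4 * q ^ 5) = k ^ 2 / q ^ 5 / 4 := by ring
      linarith)) j (M ∪ M0) ∅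
    (union_subset (g1.trans ((filter_subset _ _).trans c5)) ((filter_subset _ _).trans i1))
    ⟨fun e he => (mem_union.1 he).elim (fun h => (mem_filter.1 (g1 h)).2.1.1) (r0.1 e),
      fun e he f hf hne => by
        rcases mem_union.1 he with he | he <;> rcases mem_union.1 hf with hf | hf
        exacts [g2 e he f hf hne, x1 e he f hf, ⟨(x1 f hf e he).1.symm, (x1 f hf e he).2.1.symm,
          (x1 f hf e he).2.2.symm⟩, r0.2 e he f hf hne]⟩
    (fun e he => (mem_union.1 he).elim (fun h => (mem_filter.1 (g1 h)).2.1.2)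
      fun h => i3 e (mem_filter.1 h).1)
    (fun i hi h _ => mem_union_right _ (mem_filter.2 ⟨hi, h⟩))
    (fun e he h => (mem_union.1 he).elim (fun g => absurd h (mem_filter.1 (g1 g)).2.2.2) fun g =>
      absurd ((mem_filter.1 g).2.symm.trans h) (by simp [Fin.zero_eq_one_iff]; omega)) j1 (by simp)
  refine (y2.rm (fun e he => ⟨mem_union_left _ (mem_product.1 (y1 he)).2,
    mem_union_right _ (y3 e he)⟩) fun e he f hf => disjoint_iff_ne.1 hd _
      (mem_product.1 (y1 he)).2 _ (y3 f hf)).mono (eq_of_subset_of_card_le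
        (image_subset_iff.2 fun e he => (mem_product.1 (y1 he)).1) ?_).ge Subset.rfl
  rw [card_image_of_injOn y2.i1, hR]
  exact y4

end Pool.Agent.Lib.MP_4a6af7_co.Simple.Gr
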