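import Mathlib
import Pool.Agent.Lib.MP_d738f8_co.Tools
import Pool.Agent.Lib.MP_4a6af7_co.Simple.CaseN
import Pool.Agent.Lib.MP_4a6af7_co.Simple.CaseD

/-! A fractional matching with slack, or a vertex cover of nearly all edges. -/

set_option autoImplicit false
set_option linter.unusedSectionVars false

namespace Pool.Agent.Lib.MP_4a6af7_co.Simple.Gr

open Finset

lemma col_dual {ι : Type} (F : Finset ι) (u x : ι → ℝ) (z τ : ℝ) (hx : ∀ e ∈ F, 0 ≤ x e)
    (h : ∀ e ∈ F, 1 ≤ u e + z + x e) (hu : ∑ e ∈ F, u e ≤ F.card * τ) :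
    F.card * (1 - τ - z) + ∑ e ∈ F, max (τ - u e) 0 ≤ 2 * ∑ e ∈ F, x e := by
  rcases le_total 0 (1 - τ - z) with h0 | h0
  · have := sum_le_sum fun e (he : e ∈ F) =>
      show (1 - τ - z) + max (τ - u e) 0 + (τ - u e) ≤ 2 * x e by
        have := h e he
        have := hx e he
        rcases le_total (τ - u e) 0 with h1 | h1
        · rw [max_eq_right h1]; linarith
        · rw [max_eq_left h1]; linarith
    simp only [sum_add_distrib, sum_sub_distrib, sum_const, nsmul_eq_mul, ← mul_sum] at this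
    linarith
  · have := sum_le_sum fun e (he : e ∈ F) => show (1 - τ - z) + max (τ - u e) 0 ≤ 2 * x e by
      have := h e he
      have := hx e he
      rcases le_total (τ - u e) 0 with h1 | h1
      · rw [max_eq_right h1]; linarith
      · rw [max_eq_left h1]; linarith
    simpa only [sum_add_distrib, sum_const, nsmul_eq_mul, ← mul_sum] using this

lemma sum_card_comm {α β : Type} (s : Finset α) (t : Finset β) (r : α → β → Prop)
    [∀ a b, Decidable (r a b)] :
    ∑ a ∈ s, (t.filter fun b => r a b).card = ∑ b ∈ t, (s.filter fun a => r a b).card := by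
  simp only [card_filter]; exact sum_comm

variable {V C : Type} [Fintype V] [DecidableEq V] [Fintype C] [DecidableEq C] (G : Gr V C)

lemma thresh (s : Finset (C × V)) (k1 k2 : V → ℕ) (L n : ℕ) (hL : 0 < L) : ∃ S : Finset V,
    L * (n * S.card + 2 * (s.filter fun e => e.2 ∉ S ∧ G.lab e ∉ S).card) ≤
      n * (∑ v, k1 v + ∑ v, k2 v) + 2 * ∑ e ∈ s, (L - k2 (G.lab e) - k1 e.2) := by
  let S : ℕ → Finset V := fun j =>
    (univ.filter fun v => j < k1 v) ∪ univ.filter fun v => L - k2 v ≤ j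
  obtain ⟨j, -, hj⟩ := exists_le_of_sum_le (s := range L) (nonempty_range_iff.2 hL.ne')
    (f := fun j => L * (n * (S j).card +
      2 * (s.filter fun e => e.2 ∉ S j ∧ G.lab e ∉ S j).card))
    (g := fun _ => n * (∑ v, k1 v + ∑ v, k2 v) + 2 * ∑ e ∈ s, (L - k2 (G.lab e) - k1 e.2)) (by
      rw [← mul_sum, sum_const, card_range, smul_eq_mul, sum_add_distrib, ← mul_sum, ← mul_sum]
      gcongr
      · refine (sum_le_sum fun j _ => card_union_le _ _).trans ?_
        rw [sum_add_distrib, sum_card_comm (range L), sum_card_comm (range L)]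
        refine add_le_add (sum_le_sum fun v _ => ?_) (sum_le_sum fun v _ => ?_)
        · exact (card_le_card (t := range (k1 v)) fun j hj =>
            mem_range.2 (mem_filter.1 hj).2).trans (card_range _).le
        · exact (card_le_card (t := Ico (L - k2 v) L) fun j hj => mem_Ico.2
            ⟨(mem_filter.1 hj).2, mem_range.1 (mem_filter.1 hj).1⟩).trans (by simp; omega)
      · rw [sum_card_comm]
        refine sum_le_sum fun e _ => (card_le_card (t := Ico (k1 e.2) (L - k2 (G.lab e)))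
          fun j hj => ?_).trans (by simp)
        simp only [S, mem_filter, mem_union, mem_univ, true_and, mem_Ico] at hj ⊢
        omega)
  exact ⟨_, hj⟩

lemma qcount (A : C → Finset V) (hA : ∀ c, A c ⊆ G.E c) (S : Finset V) :
    2 * (ch A).card ≤ (G.cells S Sᶜ).card + Fintype.card C * S.card +
      2 * ((ch A).filter fun e => e.2 ∉ S ∧ G.lab e ∉ S).card := by
  classical
  have s1 : ∀ e ∈ ch A, G.lf e.2 ∧ G.cel e := fun e he => G.mem_E.1 (hA _ (mem_ch.1 he))
  set I := (G.cells S S).filter fun e => G.lf e.2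
  have a1 := card_filter_add_card_filter_not (s := ch A) fun e => e.2 ∉ S ∧ G.lab e ∉ S
  have a2 : ((ch A).filter fun e => ¬ (e.2 ∉ S ∧ G.lab e ∉ S)).card ≤ (G.cells S Sᶜ ∪ I).card := by
    refine card_le_card_of_injOn (fun e => if e.2 ∈ S then e else (e.1, G.lab e)) (fun e he => ?_)
      fun e he f hf h => ?_
    · obtain ⟨e1, e2⟩ := mem_filter.1 he
      obtain ⟨e3, e4⟩ := s1 e e1
      have := G.inv e e4
      simp only [coe_union, Set.mem_union, mem_coe, I, mem_filter, mem_cells, mem_compl]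
      split_ifs
      · tauto
      · simp only [this]; tauto
    · obtain ⟨e3, e4⟩ := s1 e (mem_filter.1 he).1
      obtain ⟨f3, f4⟩ := s1 f (mem_filter.1 hf).1
      dsimp only at h
      split_ifs at h
      · exact h
      · exact absurd (congrArg Prod.snd h) (G.cross f4 e3 f3)
      · exact absurd (congrArg Prod.snd h).symm (G.cross e4 f3 e3)
      · exact G.inj e4 f4 (Prod.ext_iff.1 h).1 (Prod.ext_iff.1 h).2
  have a3 : I.card ≤ ((G.cells S S).filter fun e => ¬ G.lf e.2).card := by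
    refine card_le_card_of_injOn (fun e => (e.1, G.lab e)) (fun e he => ?_) fun e he f hf h => ?_
    · simp only [coe_filter, I, mem_cells, Set.mem_ofPred_eq] at he ⊢
      have := G.inv e he.1.1
      exact ⟨⟨this.1, he.1.2.2, this.2 ▸ he.1.2.1⟩, (G.side e he.1.1).1 he.2⟩
    · exact G.inj (G.mem_cells.1 (mem_filter.1 he).1).1 (G.mem_cells.1 (mem_filter.1 hf).1).1
        (Prod.ext_iff.1 h).1 (Prod.ext_iff.1 h).2
  have a4 : I.card + _ = _ := card_filter_add_card_filter_not (s := G.cells S S) fun e => G.lf e.2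
  have a5 : (G.cells S Sᶜ).card + (G.cells S S).card ≤ Fintype.card C * S.card := by
    rw [← card_union_of_disjoint (disjoint_left.2 fun e h1 h2 =>
      mem_compl.1 (G.mem_cells.1 h1).2.2 (G.mem_cells.1 h2).2.2), ← card_univ, ← card_product]
    refine card_le_card fun e he => mem_product.2 ⟨mem_univ _, ?_⟩
    exact (mem_union.1 he).elim (fun h => (G.mem_cells.1 h).2.1) fun h => (G.mem_cells.1 h).2.1
  have a6 := card_union_le (G.cells S Sᶜ) I
  omega

theorem lp (L : ℕ) (hL : 2 ≤ L) (A : C → Finset V) (hA : ∀ c, A c ⊆ G.E c)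
    (hc : ∀ c, (A c).card = Fintype.card C) (hn : 0 < Fintype.card C) :
    (∃ w : C × V → ℝ, (∀ e ∈ ch A, 0 ≤ w e ∧ w e ≤ 2 / Fintype.card C) ∧ Ld (ch A) Prod.fst w ∧
      (∀ v, ∑ e ∈ (ch A).filter fun e => e.2 = v, w e ≤ 1 - 1 / L) ∧
      (∀ v, ∑ e ∈ (ch A).filter fun e => G.lab e = v, w e ≤ 1 - 1 / L) ∧
      (Fintype.card C : ℝ) - 1 ≤ ∑ e ∈ ch A, w e) ∨
    ∀ a, 6 * Fintype.card C ≤ L * a → ∃ S : Finset V, S.card ≤ Fintype.card C + a ∧
      Fintype.card C * Fintype.card C ≤ (G.cells S Sᶜ).card + a * Fintype.card C := by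
  set n := Fintype.card C with hn'
  have hL' : (2 : ℝ) ≤ L := by exact_mod_cast hL
  have n0 : (0 : ℝ) < n := by exact_mod_cast hn
  have δ1 : (1 : ℝ) / L ≤ 1 / 2 := by gcongr
  let m : V ⊕ V ⊕ C ⊕ C × V → C × V → ℝ := Sum.elim (fun v e => if e.2 = v then 1 else 0)
    (Sum.elim (fun v e => if G.lab e = v then 1 else 0) (Sum.elim
      (fun c e => if e.1 = c then 1 else 0) fun f e => if e = f then 1 else 0))
  let b : V ⊕ V ⊕ C ⊕ C × V → ℝ := Sum.elim (fun _ => 1 - 1 / L) (Sum.elim (fun _ => 1 - 1 / L)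
    (Sum.elim (fun _ => 1) fun _ => 2 / n))
  by_cases h : ∀ w : C × V → ℝ, (∀ e ∈ ch A, 0 ≤ w e) →
      (∀ i, ∑ e ∈ ch A, w e * m i e ≤ b i) → ∑ e ∈ ch A, w e ≤ n - 1
  swap
  · push Not at h
    obtain ⟨w, w0, w1, w2⟩ := h
    refine Or.inl ⟨w, fun e he => ⟨w0 e he, ?_⟩, fun c => ?_, fun v => ?_, fun v => ?_, w2.le⟩
    · simpa [m, b, he] using w1 (.inr (.inr (.inr e)))
    · simpa [m, b, sum_filter] using w1 (.inr (.inr (.inl c)))
    · simpa [m, b, sum_filter] using w1 (.inl v)
    · simpa [m, b, sum_filter] using w1 (.inr (.inl v))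
  obtain ⟨y, y0, y1, y2⟩ := MP_d738f8_co.packing_duality (ch A) m b (by
    rintro (_ | _ | _ | _) <;> simp only [b, Sum.elim_inl, Sum.elim_inr]
    exacts [by linarith, by linarith, one_pos, by positivity]) _ h
  simp only [Fintype.sum_sum_type, m, b, Sum.elim_inl, Sum.elim_inr, mul_ite, mul_one, mul_zero,
    sum_ite_eq, mem_univ, if_true, ← sum_mul] at y1 y2
  set U := ∑ v, y (.inl v) + ∑ v, y (.inr (.inl v)) with hU
  have f1 : ∀ c, ((ch A).filter fun e => e.1 = c).card = n := fun c => by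
    simpa [hc] using ch_fib A (fun _ => True) c
  have f2 : ∀ c, ∑ e ∈ (ch A).filter fun e => e.1 = c,
      (y (.inl e.2) + y (.inr (.inl (G.lab e)))) ≤ U := fun c => by
    rw [sum_add_distrib, ← sum_image (g := Prod.snd) (f := fun v => y (.inl v)) fun e he f hf h =>
      Prod.ext ((mem_filter.1 he).2.trans (mem_filter.1 hf).2.symm) h,
      ← sum_image (g := G.lab) (f := fun v => y (.inr (.inl v))) fun e he f hf h =>
      G.inj (G.mem_E.1 (hA _ (mem_ch.1 (mem_filter.1 he).1))).2
        (G.mem_E.1 (hA _ (mem_ch.1 (mem_filter.1 hf).1))).2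
        ((mem_filter.1 he).2.trans (mem_filter.1 hf).2.symm) h]
    exact add_le_add (sum_le_univ_sum_of_nonneg fun _ => y0 _)
      (sum_le_univ_sum_of_nonneg fun _ => y0 _)
  have f3 := sum_le_sum fun c (_ : c ∈ univ) => col_dual ((ch A).filter fun e => e.1 = c)
    (fun e => y (.inl e.2) + y (.inr (.inl (G.lab e)))) (fun e => y (.inr (.inr (.inr e))))
    (y (.inr (.inr (.inl c)))) (U / n) (fun _ _ => y0 _)
    (fun e he => by have := y1 e (mem_filter.1 he).1; rw [(mem_filter.1 he).2] at this; linarith)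
    (by rw [f1, mul_div_cancel₀ _ n0.ne']; exact f2 c)
  simp only [f1, sum_add_distrib, ← mul_sum, sum_fiberwise, sum_sub_distrib, sum_const, card_univ,
    nsmul_eq_mul, ← hn', mul_div_cancel₀ _ n0.ne'] at f3
  have f4 : ∑ e ∈ ch A, y (.inr (.inr (.inr e))) ≤ ∑ e, y (.inr (.inr (.inr e))) :=
    sum_le_univ_sum_of_nonneg fun _ => y0 _
  have f5 := mul_le_mul_of_nonneg_left y2 n0.le
  have f6 : ∑ e ∈ ch A, max (U / n - (y (.inl e.2) + y (.inr (.inl (G.lab e))))) 0 ≤
      n * U / L - n := by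
    have : (n : ℝ) * ((∑ e, y (.inr (.inr (.inr e)))) * (2 / n)) =
      2 * ∑ e, y (.inr (.inr (.inr e))) := by field_simp
    have : n * U / L = n * U * (1 / L) := by ring
    rw [this, hU] at *
    nlinarith
  have U0 : 0 < U := by
    have := (sum_nonneg fun e _ => le_max_right _ _).trans f6
    by_contra hh
    have : n * U / L ≤ 0 := div_nonpos_of_nonpos_of_nonneg (by nlinarith) (by linarith)
    linarith
  obtain ⟨S, hS⟩ := G.thresh (ch A) (fun v => ⌊L * n / U * y (.inl v)⌋₊)
    (fun v => ⌊L * n / U * y (.inr (.inl v))⌋₊) L n (by omega)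
  have c1 : (ch A).card = n * n := by
    rw [card_eq_sum_card_fiberwise (f := Prod.fst) (t := univ) fun _ _ => mem_univ _]
    simp [f1, hn']
  have g1 : ∑ v, ⌊L * n / U * y (.inl v)⌋₊ + ∑ v, ⌊L * n / U * y (.inr (.inl v))⌋₊ ≤ L * n := by
    rw [← Nat.cast_le (α := ℝ)]
    push_cast
    refine (add_le_add (sum_le_sum fun v _ => Nat.floor_le (mul_nonneg (by positivity) (y0 _)))
      (sum_le_sum fun v _ => Nat.floor_le (mul_nonneg (by positivity) (y0 _)))).trans ?_
    rw [← mul_sum, ← mul_sum, ← mul_add, ← hU, div_mul_cancel₀ _ U0.ne']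
  have g2 : ∑ e ∈ ch A, (L - ⌊L * n / U * y (.inr (.inl (G.lab e)))⌋₊ -
      ⌊L * n / U * y (.inl e.2)⌋₊) ≤ 3 * (n * n) := by
    rw [← Nat.cast_le (α := ℝ), Nat.cast_sum]
    refine (sum_le_sum (g := fun e => L * n / U *
      max (U / n - (y (.inl e.2) + y (.inr (.inl (G.lab e))))) 0 + 2) fun e _ => ?_).trans ?_
    · have a1 := Nat.lt_floor_add_one (L * n / U * y (.inr (.inl (G.lab e))))
      have a2 := Nat.lt_floor_add_one (L * n / U * y (.inl e.2))
      have a3 := mul_le_mul_of_nonneg_left (le_max_left (U / n - (y (.inl e.2) +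
        y (.inr (.inl (G.lab e))))) 0) (show 0 ≤ L * n / U by positivity)
      have a4 : L * n / U * (U / n) = L := by field_simp
      rw [Nat.sub_sub]
      rcases le_total L _ with h | h
      · rw [Nat.sub_eq_zero_of_le h]; push_cast; positivity
      rw [Nat.cast_sub h]
      push_cast
      rw [mul_sub, a4, mul_add] at a3
      linarith
    · rw [sum_add_distrib, ← mul_sum, sum_const, c1, nsmul_eq_mul]
      have a1 := mul_le_mul_of_nonneg_left (f6.trans (sub_le_self _ n0.le))
        (show 0 ≤ L * n / U by positivity)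
      have a2 : L * n / U * (n * U / L) = n * n := by field_simp
      push_cast
      linarith
  have g3 := G.qcount A hA S
  refine Or.inr fun a ha => ⟨S, ?_⟩
  have g4 : n * S.card + 2 * ((ch A).filter fun e => e.2 ∉ S ∧ G.lab e ∉ S).card ≤
      n * (n + a) := by
    refine Nat.le_of_mul_le_mul_left (hS.trans ?_) (by omega)
    have := Nat.mul_le_mul_left n g1
    have := Nat.mul_le_mul_left n ha
    nlinarith
  rw [c1, ← hn'] at g3
  exact ⟨Nat.le_of_mul_le_mul_left (le_of_add_le_left g4) hn, by nlinarith⟩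

end Pool.Agent.Lib.MP_4a6af7_co.Simple.Gr
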