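import Mathlib
import Pool.Agent.Lib.MP_4a6af7_co.Simple.Core
import Pool.Agent.Lib.MP_4a6af7_co.Simple.LP

/-! Full rainbow matchings in simple bipartite graphs. -/

set_option autoImplicit false
set_option linter.unusedSectionVars false

namespace Pool.Agent.Lib.MP_4a6af7_co.Simple.Gr

open Finset

section

variable {V C : Type} [Fintype V] [DecidableEq V] [Fintype C] [DecidableEq C] {G : Gr V C}

lemma cells_eq (A B : Finset V) : G.cells A B = (univ ×ˢ A).filter (G.ok B) := by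
  ext e; simp [mem_cells, ok, and_left_comm]

lemma line2 {ι : Type} {S W : Finset V} {J J' : Finset ι} (hJ : J' ⊆ J) (φ : ι → C × V)
    (hφ : ∀ a b, G.cel (φ a) → G.cel (φ b) → G.lab (φ a) = G.lab (φ b) → a = b) :
    (J'.filter fun j => ¬ G.ok (S ∪ W)ᶜ (φ j)).card ≤
      (J.filter fun j => ¬ G.ok Sᶜ (φ j)).card + W.card := by
  classical
  have k : (J.filter fun j => G.ok W (φ j)).card ≤ W.card :=
    card_le_card_of_injOn (fun j => G.lab (φ j)) (fun j hj => (mem_filter.1 hj).2.2)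
      fun a ha b hb => hφ a b (mem_filter.1 ha).2.1 (mem_filter.1 hb).2.1
  refine le_trans (card_le_card fun j hj => ?_) ((card_union_le _ _).trans (Nat.add_le_add_left k _))
  simp only [mem_union, mem_filter, hJ (mem_filter.1 hj).1, true_and]
  have := (mem_filter.1 hj).2
  simp only [ok, mem_compl, mem_union] at *
  tauto

end

theorem caseS {γ : ℝ} (h0 : 0 < γ) (hγ : γ ≤ 1) : ∃ q n0 : ℕ, 0 < q ∧ ∀ (V C : Type) [Fintype V]
    [DecidableEq V] [Fintype C] [DecidableEq C] (G : Gr V C) (S Lt : Finset V) (a d : ℕ),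
    n0 ≤ Fintype.card C → G.Sz → S.card ≤ Fintype.card C + a →
    Fintype.card C * Fintype.card C ≤ (G.cells S Sᶜ).card + a * Fintype.card C → 1 ≤ d →
    2 * a * Fintype.card C ≤ d * d → q * d ≤ Fintype.card C →
    (∀ t ∈ Lt, (((G.cells S Sᶜ).filter fun e => G.lab e = t).card : ℝ) ≤
      (1 - γ) * Fintype.card C) →
    γ * Fintype.card C ^ 2 ≤ ((G.cells S Sᶜ).filter fun e => G.lab e ∈ Lt).card →
    G.RM univ univ := by
  obtain ⟨q0, m0, hc⟩ := core (half_pos h0) (by linarith)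
  obtain ⟨q1, hq⟩ := exists_nat_ge (38 / γ)
  refine ⟨38 * q0 + q1 + 60, 2 * m0, by omega,
    fun V C _ _ _ _ G S Lt a d hn hs hS hQ d1 d2 d3 h1 h2 => ?_⟩
  set n := Fintype.card C with hn'
  have d4 : 38 * (q0 * d) + q1 * d + 60 * d ≤ n := by nlinarith
  have ha : a ≤ d := by nlinarith
  have q2 : ∑ s ∈ S, (univ.filter fun c => G.ok Sᶜ (c, s)).card = (G.cells S Sᶜ).card := by
    rw [cells_eq, card_filter, sum_product_right]; simp only [card_filter]
  have q3 : ∑ c, (S.filter fun s => G.ok Sᶜ (c, s)).card = (G.cells S Sᶜ).card := by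
    rw [cells_eq, card_filter, sum_product]; simp only [card_filter]
  have q4 : (G.cells S Sᶜ).card ≤ n * S.card := by
    rw [cells_eq, hn', ← card_univ, ← card_product]; exact card_filter_le _ _
  have q5 : n ≤ S.card + a := Nat.le_of_mul_le_mul_left (by nlinarith) (show 0 < n by omega)
  have b1 := Nat.le_of_mul_le_mul_right ((few_bad S
    (fun s => (univ.filter fun c => G.ok Sᶜ (c, s)).card) n d (2 * a * n)
    (fun s _ => card_le_univ _) (by rw [q2]; nlinarith)).trans d2) d1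
  have b2 := Nat.le_of_mul_le_mul_right ((few_bad univ
    (fun c => (S.filter fun s => G.ok Sᶜ (c, s)).card) (n + a) d (2 * a * n)
    (fun c _ => (card_filter_le _ _).trans hS) (by rw [q3, card_univ]; nlinarith)).trans d2) d1
  have b3 := card_filter_add_card_filter_not (s := S)
    fun s => (univ.filter fun c => G.ok Sᶜ (c, s)).card + d < n
  obtain ⟨K, W, k1, k2, k3, k4, k5⟩ := coverS (G := G)
    (S.filter fun s => ¬ (univ.filter fun c => G.ok Sᶜ (c, s)).card + d < n) (3 * d) hs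
    (by omega) (by omega) (by omega) _ (b2.trans (by omega))
  have m1 := card_add_card_compl K
  obtain ⟨S', y1, y2⟩ := exists_subset_card_eq (n := Kᶜ.card)
    (s := (S.filter fun s => ¬ (univ.filter fun c => G.ok Sᶜ (c, s)).card + d < n) \ W) (by omega)
  have y3 : S' ⊆ S := y1.trans (sdiff_subset.trans (filter_subset _ _))
  have y4 : Kᶜ ×ˢ S' ⊆ univ ×ˢ S := product_subset_product (subset_univ _) y3
  have r1 : 38 * (d : ℝ) ≤ γ * n := by
    have : (q1 : ℝ) * d ≤ n := by exact_mod_cast (by omega : q1 * d ≤ n)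
    rw [div_le_iff₀ h0] at hq
    nlinarith [(Nat.cast_nonneg d : (0 : ℝ) ≤ d)]
  have r2 : (n : ℝ) ≤ Kᶜ.card + 9 * d := by exact_mod_cast (by omega : n ≤ Kᶜ.card + 9 * d)
  have r3 : (Kᶜ.card : ℝ) ≤ n := by exact_mod_cast (by omega : Kᶜ.card ≤ n)
  have r4 : (0 : ℝ) ≤ d := Nat.cast_nonneg _
  refine (k1.union (hc V C G Kᶜ S' (S ∪ W)ᶜ (Lt \ S) Kᶜ.card (19 * d) (by omega) (by omega) rfl y2
    (disjoint_compl_right.mono_left (y3.trans subset_union_left)) (by nlinarith) (fun c hc => ?_)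
    (fun s hs => ?_) (fun t ht => ?_) ?_) ?_).mono (by simp) (subset_univ _)
  · have a1 := line2 (G := G) (S := S) (W := W) y3 (fun s => (c, s))
      fun a b ha hb h => (Prod.ext_iff.1 (G.inj ha hb rfl h)).2
    have a2 := card_filter_add_card_filter_not (s := S) fun s => G.ok Sᶜ (c, s)
    have a3 := mt (fun h => k2 (mem_filter.2 ⟨mem_univ c, h⟩)) (mem_compl.1 hc)
    omega
  · have a1 := line2 (G := G) (S := S) (W := W) (subset_univ Kᶜ) (fun c => (c, s))
      fun a b ha hb h => (Prod.ext_iff.1 (G.simp _ _ ha hb rfl h)).1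
    have a2 := card_filter_add_card_filter_not (s := univ) fun c => G.ok Sᶜ (c, s)
    have a3 := (mem_filter.1 (mem_sdiff.1 (y1 hs)).1).2
    rw [card_univ] at a2
    omega
  · obtain ⟨t1, t2⟩ := mem_sdiff.1 ht
    refine (Nat.cast_le.2 (card_le_card fun e he => ?_)).trans ((h1 t t1).trans (by nlinarith))
    simp only [mem_filter, mem_cells, ok, mem_singleton, mem_product, mem_compl] at he ⊢
    exact ⟨⟨he.2.1, y3 he.1.2, he.2.2 ▸ t2⟩, he.2.2⟩
  · have a1 : ((G.cells S Sᶜ).filter fun e => G.lab e ∈ Lt).card ≤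
        ((Kᶜ ×ˢ S').filter (G.ok (Lt \ S))).card + ((univ ×ˢ S) \ (Kᶜ ×ˢ S')).card :=
      le_trans (card_le_card fun e he => by
        simp only [mem_union, mem_filter, mem_sdiff, mem_cells, ok, mem_compl, mem_product,
          mem_univ] at he ⊢
        tauto) (card_union_le _ _)
    have a2 := card_sdiff_add_card_eq_card y4
    rw [card_product, card_product, y2, card_univ] at a2
    have a3 : ((univ ×ˢ S) \ (Kᶜ ×ˢ S')).card ≤ 19 * d * n := by
      have := Nat.mul_le_mul_left n (hS.trans (Nat.add_le_add_left ha n))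
      have : n ≤ Kᶜ.card + 9 * d := by omega
      have : Kᶜ.card ≤ n := by omega
      nlinarith
    have a4 := h2.trans (Nat.cast_le.2 (a1.trans (Nat.add_le_add_left a3 _)))
    push_cast at a4
    have a5 := pow_le_pow_left₀ (Nat.cast_nonneg _) r3 2
    nlinarith [mul_le_mul_of_nonneg_right r1 (Nat.cast_nonneg n : (0 : ℝ) ≤ n)]
  · exact disjoint_union_right.2 ⟨disjoint_right.2 fun x hx => (mem_sdiff.1 (y1 hx)).2,
      disjoint_compl_right.mono_left subset_union_right⟩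

theorem heavy : ∃ n0 : ℕ, ∀ (V C : Type) [Fintype V] [DecidableEq V] [Fintype C] [DecidableEq C]
    (G : Gr V C) (S Y : Finset V) (a : ℕ), n0 ≤ Fintype.card C → G.Sz →
    S.card ≤ Fintype.card C + a → 10 ^ 14 * a ≤ Fintype.card C →
    (∀ t ∈ Y, (1 - 1 / 10 ^ 14 : ℝ) * Fintype.card C <
      ((G.cells S Sᶜ).filter fun e => G.lab e = t).card) →
    (1 - 2 / 10 ^ 14 : ℝ) * Fintype.card C ^ 2 ≤
      ((G.cells S Sᶜ).filter fun e => G.lab e ∈ Y).card → (∃ t ∈ Y, ¬ G.lf t) →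
    G.RM univ univ := by
  classical
  obtain ⟨n0, h0⟩ := caseD
  refine ⟨n0 + 10 ^ 14, fun V C _ _ _ _ G S Y a hn hs hS ha h1 h2 ⟨t0, t1, t2⟩ => ?_⟩
  set n := Fintype.card C with hn'
  have n1 : (0 : ℝ) < n := by exact_mod_cast (by omega : 0 < n)
  have a1 : (S.card : ℝ) ≤ n + a := by exact_mod_cast hS
  have a2 : 10 ^ 14 * (a : ℝ) ≤ n := by exact_mod_cast ha
  have k : ∀ t ∈ Y, (1 - 1 / 10 ^ 14 : ℝ) * n < (S.filter fun s => G.lf s ↔ ¬ G.lf t).card :=
    fun t ht => (h1 t ht).trans_le (Nat.cast_le.2 (card_le_card_of_injOn Prod.snd (fun e he => by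
      simp only [coe_filter, mem_cells, Set.mem_ofPred_eq] at he ⊢
      exact ⟨he.1.2.1, he.2 ▸ G.side e he.1.1⟩) fun e he f hf h => by
      simp only [coe_filter, mem_cells, Set.mem_ofPred_eq] at he hf
      exact G.simp e f he.1.1 hf.1.1 h (he.2.trans hf.2.symm)))
  have yr : ∀ t ∈ Y, ¬ G.lf t := fun t ht h => by
    have b1 := k t ht
    have b2 := k t0 t1
    have b3 := card_filter_add_card_filter_not (s := S) G.lf
    simp only [h, t2, not_true, not_false_eq_true, iff_true, iff_false] at b1 b2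
    have b4 : ((S.filter G.lf).card : ℝ) + (S.filter fun s => ¬ G.lf s).card = S.card := by
      exact_mod_cast b3
    linarith
  obtain ⟨b, b1, b2⟩ : ∃ b, 3 * 10 ^ 12 * b ≤ n ∧ n ≤ 4 * 10 ^ 12 * b :=
    ⟨n / (3 * 10 ^ 12), by omega, by omega⟩
  obtain ⟨d, d1, d2⟩ : ∃ d, 400000 * d ≤ n ∧ n ≤ 500000 * d := ⟨n / 400000, by omega, by omega⟩
  have b3 : (n : ℝ) ≤ 4 * 10 ^ 12 * b := by exact_mod_cast b2
  refine h0 V C G (S.filter G.lf) Y b d (by omega) hs (fun x hx => (mem_filter.1 hx).2) yr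
    ((card_filter_le _ _).trans (by omega)) ?_ ?_ (by omega) (by nlinarith) d1
  · have c1 := card_nsmul_le_sum Y _ _ fun t ht => (h1 t ht).le
    rw [← Nat.cast_sum, sum_card_fiberwise_eq_card_filter, nsmul_eq_mul] at c1
    have c2 : (((G.cells S Sᶜ).filter fun e => G.lab e ∈ Y).card : ℝ) ≤ n * S.card := by
      rw [cells_eq, hn', ← card_univ, ← Nat.cast_mul, ← card_product]
      exact Nat.cast_le.2 ((card_filter_le _ _).trans (card_filter_le _ _))
    have c3 : Y.card * (1 - 1 / 10 ^ 14 : ℝ) ≤ S.card := le_of_mul_le_mul_right (by linarith) n1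
    rw [← Nat.cast_le (α := ℝ)]
    push_cast
    linarith [(Nat.cast_nonneg b : (0 : ℝ) ≤ b)]
  · have c1 := h2.trans (Nat.cast_le.2 (card_le_card (t := G.cells (S.filter G.lf) Y) fun e he => by
      simp only [mem_filter, mem_cells] at he ⊢
      exact ⟨he.1.1, ⟨he.1.2.1, (G.side e he.1.1).2 (yr _ he.2)⟩, he.2⟩))
    rw [← Nat.cast_le (α := ℝ)]
    push_cast
    nlinarith

theorem main : ∃ n0 : ℕ, ∀ (V C : Type) [Fintype V] [DecidableEq V] [Fintype C] [DecidableEq C]
    (G : Gr V C), n0 ≤ Fintype.card C → G.Sz → G.RM univ univ := by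
  obtain ⟨q, n1, q0, hS⟩ := caseS (γ := 1 / 10 ^ 14) (by norm_num) (by norm_num)
  obtain ⟨n2, hD⟩ := heavy
  obtain ⟨A, hA⟩ : ∃ A, A = 8 * q * q + 10 ^ 14 := ⟨_, rfl⟩
  obtain ⟨n3, hN⟩ := caseN (12 * A) (by omega)
  refine ⟨n1 + n2 + n3 + A + q, fun V C _ _ _ _ G hn hs => ?_⟩
  set n := Fintype.card C with hn'
  choose B hB hB' using fun c => exists_subset_card_eq (hs.ge c)
  rcases G.lp (12 * A) (by omega) B hB hB' (by omega) with ⟨w, h1, h2, h3, h4, h5⟩ | h
  · exact hN V C G B w (by omega) hB hB' h1 h2 h3 h4 h5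
  have dv : ∀ x, 0 < x → x ≤ n → x * (n / x) ≤ n ∧ n ≤ 2 * x * (n / x) := fun x x0 hx => by
    have := Nat.div_add_mod n x
    have := Nat.mod_lt n x0
    have := Nat.mul_le_mul_left x (Nat.div_pos hx x0)
    rw [mul_assoc]
    omega
  obtain ⟨a1, a2⟩ := dv A (by omega) (by omega)
  obtain ⟨d1, d2⟩ := dv q q0 (by omega)
  obtain ⟨S, s1, s2⟩ := h (n / A) (by nlinarith)
  generalize n / A = a at *
  generalize n / q = d at *
  have a3 : 8 * q * q * a + 10 ^ 14 * a ≤ n := by rwa [hA, add_mul] at a1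
  set Y := univ.filter fun t => (1 - 1 / 10 ^ 14 : ℝ) * n <
    ((G.cells S Sᶜ).filter fun e => G.lab e = t).card with hY
  by_cases hL : (1 / 10 ^ 14 : ℝ) * n ^ 2 ≤ ((G.cells S Sᶜ).filter fun e => G.lab e ∈ Yᶜ).card
  · refine hS V C G S Yᶜ a d (by omega) hs s1 s2 (Nat.pos_of_ne_zero ?_) ?_ d1
      (fun t ht => by simpa [hY] using ht) hL
    · rintro rfl; omega
    · refine Nat.le_of_mul_le_mul_left (c := 4 * q * q) ?_ (by positivity)
      have := Nat.mul_le_mul d2 d2
      have := Nat.mul_le_mul_right n (le_of_add_le_left a3)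
      nlinarith
  have n0 : (0 : ℝ) < n := by exact_mod_cast (by omega : 0 < n)
  have h2 : (1 - 2 / 10 ^ 14 : ℝ) * n ^ 2 ≤ ((G.cells S Sᶜ).filter fun e => G.lab e ∈ Y).card := by
    have b1 := card_filter_add_card_filter_not (s := G.cells S Sᶜ) fun e => G.lab e ∈ Y
    have b2 : (n : ℝ) * n ≤ ((G.cells S Sᶜ).filter fun e => G.lab e ∈ Y).card +
        ((G.cells S Sᶜ).filter fun e => G.lab e ∉ Y).card + a * n := by
      exact_mod_cast b1 ▸ s2
    have b3 : 10 ^ 14 * (a : ℝ) ≤ n := by exact_mod_cast le_of_add_le_right a3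
    simp only [mem_compl] at hL
    nlinarith
  obtain ⟨e, he⟩ := card_pos.1 (Nat.cast_pos.1 (lt_of_lt_of_le (by positivity) h2))
  by_cases hl : G.lf (G.lab e)
  · exact hD V C G.flip S Y a (by omega) hs.flip s1 (by omega) (fun t ht => (mem_filter.1 ht).2) h2
      ⟨_, (mem_filter.1 he).2, not_not.2 hl⟩
  · exact hD V C G S Y a (by omega) hs s1 (by omega) (fun t ht => (mem_filter.1 ht).2) h2
      ⟨_, (mem_filter.1 he).2, hl⟩

end Pool.Agent.Lib.MP_4a6af7_co.Simple.Gr
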